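import Pool.Agent.LibSP.ExD

/-!
Lemma K: a nonzero element of the upper cluster algebra has a monomial in the cone given by seven
inequalities.
-/

set_option autoImplicit false

namespace Pool.Agent.LibSP

/-- The cone. -/
structure K7 (a p q b f g : ℤ) : Prop where
  h1 : 0 ≤ f
  h2 : 0 ≤ g
  h3 : 0 ≤ p + f
  h4 : 0 ≤ q + g
  h5 : 0 ≤ a + p + f
  h6 : 0 ≤ 2 * a + q + g
  h7 : 0 ≤ 2 * a + q + 3 * b + g

section

variable {K : Type} [Field K] {n r : ℕ}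

lemma bmut_comm (x : Idx n r → K) (i₀ : Idx n r) (p q : Idx n r → ℤ) :
    bmut x i₀ p q = bmut x i₀ q p := by
  rw [bmut, bmut, add_comm]

/-- One step of the weight argument. -/
lemma lead_step {s : Seed K n r} (h : Good s) (k : Fin n) (p q w : Idx n r → ℤ)
    (hpq : ((∀ i, p i = max (s.B i k) 0) ∧ ∀ i, q i = max (-s.B i k) 0) ∨
      ((∀ i, q i = max (s.B i k) 0) ∧ ∀ i, p i = max (-s.B i k) 0))
    (hw : dot w p < dot w q) {L L' : Lp n r} (he : ev (s.mut k).x L' = ev s.x L)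
    {m : Idx n r → ℤ} (hm : L.coeff m ≠ 0)
    (hmin : ∀ m', L.coeff m' ≠ 0 → dot w m ≤ dot w m') :
    L'.coeff (tr (Sum.inl k) p m) ≠ 0 ∧ ∀ m', L'.coeff m' ≠ 0 →
      dot (Function.update w (Sum.inl k) (dot w p - w (Sum.inl k))) (tr (Sum.inl k) p m) ≤
        dot (Function.update w (Sum.inl k) (dot w p - w (Sum.inl k))) m' := by
  have hd := h.ss.diag k
  rcases hpq with ⟨hp, hq⟩ | ⟨hq, hp⟩
  · have hp' : p = fun i => max (s.B i k) 0 := funext hp
    have hq' : q = fun i => max (-s.B i k) 0 := funext hq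
    refine lead_bmut h.ai (Sum.inl k) p q w (by rw [hp, hd, max_self])
      (by rw [hq, hd, neg_zero, max_self]) hw L L' ?_ m hm hmin
    rw [hp', hq', ← mut_x]
    exact he
  · have hp' : p = fun i => max (-s.B i k) 0 := funext hp
    have hq' : q = fun i => max (s.B i k) 0 := funext hq
    refine lead_bmut h.ai (Sum.inl k) p q w (by rw [hp, hd, neg_zero, max_self])
      (by rw [hq, hd, max_self]) hw L L' ?_ m hm hmin
    rw [hp', hq', bmut_comm, ← mut_x]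
    exact he

end

lemma dot_E (t s : ℤ × ℤ × ℤ × ℤ × ℤ × ℤ) : dot (E t) (E s) =
    t.1 * s.1 + t.2.1 * s.2.1 + t.2.2.1 * s.2.2.1 + t.2.2.2.1 * s.2.2.2.1 +
      (t.2.2.2.2.1 * s.2.2.2.2.1 + t.2.2.2.2.2 * s.2.2.2.2.2) := by
  simp [dot, E, Fin.sum_univ_four, Fin.sum_univ_two]

lemma update_E0 (a p q b f g c : ℤ) :
    Function.update (E (a, p, q, b, f, g)) (Sum.inl 0) c = E (c, p, q, b, f, g) := by
  funext i
  rcases i with i | i
  · fin_cases i <;> simp [E, Function.update]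
  · simp [E]

lemma update_E1 (a p q b f g c : ℤ) :
    Function.update (E (a, p, q, b, f, g)) (Sum.inl 1) c = E (a, c, q, b, f, g) := by
  funext i
  rcases i with i | i
  · fin_cases i <;> simp [E, Function.update]
  · simp [E]

lemma update_E2 (a p q b f g c : ℤ) :
    Function.update (E (a, p, q, b, f, g)) (Sum.inl 2) c = E (a, p, c, b, f, g) := by
  funext i
  rcases i with i | i
  · fin_cases i <;> simp [E, Function.update]
  · simp [E]

lemma update_E3 (a p q b f g c : ℤ) :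
    Function.update (E (a, p, q, b, f, g)) (Sum.inl 3) c = E (a, p, q, c, f, g) := by
  funext i
  rcases i with i | i
  · fin_cases i <;> simp [E, Function.update]
  · simp [E]

lemma tr_E (i₀ : Idx 4 2) (t s : ℤ × ℤ × ℤ × ℤ × ℤ × ℤ) :
    tr i₀ (E t) (E s) = Function.update (E (s.1 + E s i₀ * t.1, s.2.1 + E s i₀ * t.2.1,
      s.2.2.1 + E s i₀ * t.2.2.1, s.2.2.2.1 + E s i₀ * t.2.2.2.1,
      s.2.2.2.2.1 + E s i₀ * t.2.2.2.2.1, s.2.2.2.2.2 + E s i₀ * t.2.2.2.2.2)) i₀ (-E s i₀) := by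
  rw [tr]
  congr 1
  funext i
  rcases i with i | i
  · fin_cases i <;> simp [E]
  · fin_cases i <;> simp [E]

lemma InU.exists_nonneg {L : Lp 4 2} (hL : InU L) {s : Seed K₀ 4 2} (hs : Reach S₀ s) :
    ∃ L' : Lp 4 2, (∀ m, L'.coeff m ≠ 0 → ∀ j : Fin 2, 0 ≤ m (Sum.inr j)) ∧
      ev s.x L' = ev S₀.x L := hL s hs

/-- Lemma K. -/
theorem lemmaK {L : Lp 4 2} (hL : InU L) (h0 : L ≠ 0) :
    ∃ a p q b f g : ℤ, L.coeff (E (a, p, q, b, f, g)) ≠ 0 ∧ K7 a p q b f g := by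
  have hne : L.coeff.support.Nonempty := by
    rw [Finsupp.support_nonempty_iff]
    intro h
    exact h0 (AddMonoidAlgebra.coeff_eq_zero.1 h)
  obtain ⟨m, hm, hmin⟩ := L.coeff.support.exists_min_image (dot (E (8, 11, 3, 12, -2, 0))) hne
  have hm' : L.coeff m ≠ 0 := Finsupp.mem_support_iff.1 hm
  have hmin' : ∀ m', L.coeff m' ≠ 0 → dot (E (8, 11, 3, 12, -2, 0)) m ≤
      dot (E (8, 11, 3, 12, -2, 0)) m' := fun m' h => hmin m' (Finsupp.mem_support_iff.2 h)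
  obtain ⟨⟨a, p, q, b, f, g⟩, rfl⟩ := exists_E m
  -- the initial seed
  obtain ⟨L0, hL0, he0⟩ := hL.exists_nonneg Reach.refl
  have hLL : L0 = L := ev_injective good_S₀.ai he0
  subst hLL
  have hf : 0 ≤ f := hL0 _ hm' 0
  have hg : 0 ≤ g := hL0 _ hm' 1
  have gA : Good (S₀.mut 0) := good_S₀.mut 0
  have rA : Reach S₀ (S₀.mut 0) := Reach.step 0 Reach.refl
  have gAQ : Good ((S₀.mut 0).mut 2) := gA.mut 2
  have rAQ : Reach S₀ ((S₀.mut 0).mut 2) := Reach.step 2 rA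
  -- mutation at P
  have hP : 0 ≤ p + f := by
    obtain ⟨L1, hL1, he1⟩ := hL.exists_nonneg (Reach.step 1 Reach.refl)
    have h1 := (lead_step good_S₀ 1 (E (1, 0, 0, 0, 1, 0)) (E (0, 0, 0, 2, 0, 0))
      (E (8, 11, 3, 12, -2, 0)) (Or.inr ⟨by decide, by decide⟩)
      (by rw [dot_E, dot_E]; norm_num) he1 hm' hmin').1
    rw [tr_E, update_E1] at h1
    have h2 := hL1 _ h1 0
    simp only [E, Sum.elim_inr, Sum.elim_inl, Matrix.cons_val] at h2
    linarith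
  have hQ : 0 ≤ q + g := by
    obtain ⟨L1, hL1, he1⟩ := hL.exists_nonneg (Reach.step 2 Reach.refl)
    have h1 := (lead_step good_S₀ 2 (E (0, 0, 0, 1, 0, 1)) (E (2, 0, 0, 0, 0, 0))
      (E (8, 11, 3, 12, -2, 0)) (Or.inl ⟨by decide, by decide⟩)
      (by rw [dot_E, dot_E]; norm_num) he1 hm' hmin').1
    rw [tr_E, update_E2] at h1
    have h2 := hL1 _ h1 1
    simp only [E, Sum.elim_inr, Sum.elim_inl, Matrix.cons_val] at h2
    linarith
  -- mutation at A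
  obtain ⟨LA, hLA, heA⟩ := hL.exists_nonneg rA
  have hA := lead_step good_S₀ 0 (E (0, 1, 2, 0, 0, 0)) (E (0, 0, 0, 2, 0, 0))
    (E (8, 11, 3, 12, -2, 0)) (Or.inl ⟨by decide, by decide⟩)
    (by rw [dot_E, dot_E]; norm_num) heA hm' hmin'
  have wA : Function.update (E (8, 11, 3, 12, -2, 0)) (Sum.inl 0)
      (dot (E (8, 11, 3, 12, -2, 0)) (E (0, 1, 2, 0, 0, 0)) -
        E (8, 11, 3, 12, -2, 0) (Sum.inl 0)) = E (9, 11, 3, 12, -2, 0) := by
    rw [update_E0, dot_E]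
    norm_num [E]
  rw [wA, tr_E, update_E0] at hA
  have eA : E (-E (a, p, q, b, f, g) (Sum.inl 0),
      p + E (a, p, q, b, f, g) (Sum.inl 0) * 1, q + E (a, p, q, b, f, g) (Sum.inl 0) * 2,
      b + E (a, p, q, b, f, g) (Sum.inl 0) * 0, f + E (a, p, q, b, f, g) (Sum.inl 0) * 0,
      g + E (a, p, q, b, f, g) (Sum.inl 0) * 0) = E (-a, p + a, q + 2 * a, b, f, g) := by
    show E (-a, p + a * 1, q + a * 2, b + a * 0, f + a * 0, g + a * 0) = _
    ring_nf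
  rw [eA] at hA
  obtain ⟨hA1, hA2⟩ := hA
  -- then at P
  have hAP : 0 ≤ a + p + f := by
    obtain ⟨L1, hL1, he1⟩ := hL.exists_nonneg (Reach.step 1 rA)
    have h1 := (lead_step gA 1 (E (0, 0, 0, 0, 1, 0)) (E (1, 0, 0, 0, 0, 0))
      (E (9, 11, 3, 12, -2, 0)) (Or.inr ⟨by decide, by decide⟩)
      (by rw [dot_E, dot_E]; norm_num) (he1.trans heA.symm) hA1 hA2).1
    rw [tr_E, update_E1] at h1
    have h2 := hL1 _ h1 0
    simp only [E, Sum.elim_inr, Sum.elim_inl, Matrix.cons_val] at h2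
    linarith
  -- then at Q
  obtain ⟨LQ, hLQ, heQ⟩ := hL.exists_nonneg rAQ
  have hQ' := lead_step gA 2 (E (2, 0, 0, 0, 0, 1)) (E (0, 0, 0, 3, 0, 0))
    (E (9, 11, 3, 12, -2, 0)) (Or.inl ⟨by decide, by decide⟩)
    (by rw [dot_E, dot_E]; norm_num) (heQ.trans heA.symm) hA1 hA2
  have wQ : Function.update (E (9, 11, 3, 12, -2, 0)) (Sum.inl 2)
      (dot (E (9, 11, 3, 12, -2, 0)) (E (2, 0, 0, 0, 0, 1)) -
        E (9, 11, 3, 12, -2, 0) (Sum.inl 2)) = E (9, 11, 15, 12, -2, 0) := by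
    have h3 : E (9, 11, 3, 12, -2, 0) (Sum.inl 2) = 3 := rfl
    rw [update_E2, dot_E, h3]
    norm_num
  rw [wQ, tr_E, update_E2] at hQ'
  have eQ : E (-a + E (-a, p + a, q + 2 * a, b, f, g) (Sum.inl 2) * 2,
      p + a + E (-a, p + a, q + 2 * a, b, f, g) (Sum.inl 2) * 0,
      -E (-a, p + a, q + 2 * a, b, f, g) (Sum.inl 2),
      b + E (-a, p + a, q + 2 * a, b, f, g) (Sum.inl 2) * 0,
      f + E (-a, p + a, q + 2 * a, b, f, g) (Sum.inl 2) * 0,
      g + E (-a, p + a, q + 2 * a, b, f, g) (Sum.inl 2) * 1) =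
      E (3 * a + 2 * q, p + a, -q - 2 * a, b, f, g + q + 2 * a) := by
    show E (-a + (q + 2 * a) * 2, p + a + (q + 2 * a) * 0, -(q + 2 * a), b + (q + 2 * a) * 0,
      f + (q + 2 * a) * 0, g + (q + 2 * a) * 1) = _
    ring_nf
  rw [eQ] at hQ'
  obtain ⟨hQ1, hQ2⟩ := hQ'
  have hAQ : 0 ≤ 2 * a + q + g := by
    have h2 := hLQ _ hQ1 1
    simp only [E, Sum.elim_inr, Matrix.cons_val] at h2
    linarith
  -- then at B
  have hAQB : 0 ≤ 2 * a + q + 3 * b + g := by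
    obtain ⟨L1, hL1, he1⟩ := hL.exists_nonneg (Reach.step 3 rAQ)
    have h1 := (lead_step gAQ 3 (E (4, 0, 0, 0, 0, 3)) (E (0, 0, 3, 0, 0, 0))
      (E (9, 11, 15, 12, -2, 0)) (Or.inl ⟨by decide, by decide⟩)
      (by rw [dot_E, dot_E]; norm_num) (he1.trans heQ.symm) hQ1 hQ2).1
    rw [tr_E, update_E3] at h1
    have h2 := hL1 _ h1 1
    simp only [E, Sum.elim_inr, Sum.elim_inl, Matrix.cons_val] at h2
    linarith
  exact ⟨a, p, q, b, f, g, hm', ⟨hf, hg, hP, hQ, hAP, hAQ, hAQB⟩⟩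

end Pool.Agent.LibSP
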