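import Pool.Agent.LibSP.Upper

/-!
Homogeneity.
-/

set_option autoImplicit false

namespace Pool.Agent.LibSP

variable {n r : ℕ}

/-- The degree of an exponent vector. -/
def deg (D : Idx n r → ℤ × ℤ) (m : Idx n r → ℤ) : ℤ × ℤ := ∑ i, m i • D i

/-- The rational function `u` is homogeneous of degree `d`, expressed with an endomorphism `θ`
scaling the variables. -/
def Hg {K : Type} [Field K] (θ : K →+* K) (u : K) (d : ℤ × ℤ) : Prop :=
  θ u = 2 ^ d.1 * 3 ^ d.2 * u

/-- There is an endomorphism scaling `x_i` by `2 ^ a_i 3 ^ b_i`. -/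
theorem exists_theta (B : EMat n r) (D : Idx n r → ℤ × ℤ) :
    ∃ θ : FractionRing (MvPolynomial (Idx n r) ℚ) →+* FractionRing (MvPolynomial (Idx n r) ℚ),
      ∀ i, Hg θ ((initialSeed B).x i) (D i) := by
  classical
  let q : Idx n r → ℚ := fun i => 2 ^ (D i).1 * 3 ^ (D i).2
  have hq : ∀ i, q i ≠ 0 := fun i =>
    mul_ne_zero (zpow_ne_zero _ (by norm_num)) (zpow_ne_zero _ (by norm_num))
  let f : MvPolynomial (Idx n r) ℚ →ₐ[ℚ] MvPolynomial (Idx n r) ℚ :=
    MvPolynomial.aeval fun i => MvPolynomial.C (q i) * MvPolynomial.X i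
  let g : MvPolynomial (Idx n r) ℚ →ₐ[ℚ] MvPolynomial (Idx n r) ℚ :=
    MvPolynomial.aeval fun i => MvPolynomial.C (q i)⁻¹ * MvPolynomial.X i
  have hgf : ∀ p, g (f p) = p := by
    intro p
    have : (g.comp f) = AlgHom.id ℚ _ := by
      apply MvPolynomial.algHom_ext
      intro i
      simp only [f, g, AlgHom.comp_apply, MvPolynomial.aeval_X, map_mul, AlgHom.id_apply]
      rw [← MvPolynomial.algebraMap_eq, AlgHom.commutes, MvPolynomial.algebraMap_eq, ← mul_assoc,
        ← MvPolynomial.C_mul, mul_inv_cancel₀ (hq i), MvPolynomial.C_1, one_mul]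
    exact AlgHom.congr_fun this p
  have hinj : Function.Injective f := Function.LeftInverse.injective hgf
  let K := FractionRing (MvPolynomial (Idx n r) ℚ)
  have hinj' : Function.Injective
      ((algebraMap (MvPolynomial (Idx n r) ℚ) K).comp f.toRingHom) :=
    (IsFractionRing.injective (MvPolynomial (Idx n r) ℚ) K).comp hinj
  refine ⟨IsFractionRing.lift hinj', fun i => ?_⟩
  have h1 : (initialSeed B).x i = algebraMap (MvPolynomial (Idx n r) ℚ) K (MvPolynomial.X i) := rfl
  rw [Hg, h1, IsFractionRing.lift_algebraMap]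
  have h2 : f.toRingHom (MvPolynomial.X i) = MvPolynomial.C (q i) * MvPolynomial.X i :=
    MvPolynomial.aeval_X _ i
  rw [RingHom.comp_apply, h2, map_mul]
  congr 1
  have h3 : ((algebraMap (MvPolynomial (Idx n r) ℚ) K).comp MvPolynomial.C) (q i) =
      ((q i : ℚ) : K) := by
    exact map_ratCast ((algebraMap (MvPolynomial (Idx n r) ℚ) K).comp MvPolynomial.C) (q i)
  rw [RingHom.comp_apply] at h3
  rw [h3]
  simp only [q]
  push_cast
  rfl

lemma ai_of_injective {K : Type} [Field K] (x : Idx n r → K)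
    (φ : MvPolynomial (Idx n r) ℚ →+* K) (hφ : Function.Injective φ)
    (hx : ∀ i, x i = φ (MvPolynomial.X i)) : AlgebraicIndependent ℤ x := by
  have h : ∀ p : MvPolynomial (Idx n r) ℤ, MvPolynomial.aeval x p =
      φ (MvPolynomial.map (Int.castRingHom ℚ) p) := by
    intro p
    induction p using MvPolynomial.induction_on with
    | C a =>
      rw [MvPolynomial.aeval_C, MvPolynomial.map_C]
      simp
    | add p q hp hq => rw [map_add, map_add, map_add, hp, hq]
    | mul_X p i hp =>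
      rw [map_mul, map_mul, map_mul, hp, MvPolynomial.aeval_X, MvPolynomial.map_X, hx]
  intro p p' hpp
  rw [h, h] at hpp
  exact MvPolynomial.map_injective (Int.castRingHom ℚ) Int.cast_injective (hφ hpp)

theorem good_initialSeed {B : EMat n r} (hs : SkewSymm B) (hc : ColIndep B) :
    Good (initialSeed B) :=
  ⟨ai_of_injective _ (algebraMap (MvPolynomial (Idx n r) ℚ)
      (FractionRing (MvPolynomial (Idx n r) ℚ)))
    (IsFractionRing.injective (MvPolynomial (Idx n r) ℚ)
      (FractionRing (MvPolynomial (Idx n r) ℚ))) fun _ => rfl, hs, hc⟩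

section

variable {K : Type} [Field K] [CharZero K] {s₀ : Seed K n r} {θ : K →+* K}

lemma two_ne : (2 : K) ≠ 0 := two_ne_zero

lemma three_ne : (3 : K) ≠ 0 := three_ne_zero

lemma Hg.mul {u v : K} {d e : ℤ × ℤ} (hu : Hg θ u d) (hv : Hg θ v e) :
    Hg θ (u * v) (d + e) := by
  rw [Hg] at *
  rw [map_mul, hu, hv, Prod.fst_add, Prod.snd_add, zpow_add₀ two_ne, zpow_add₀ three_ne]
  ring

lemma Hg.div {u v : K} {d e : ℤ × ℤ} (hu : Hg θ u d) (hv : Hg θ v e) :
    Hg θ (u / v) (d - e) := by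
  rw [Hg] at *
  rw [map_div₀, hu, hv, Prod.fst_sub, Prod.snd_sub, zpow_sub₀ two_ne, zpow_sub₀ three_ne]
  rcases eq_or_ne v 0 with rfl | hv0
  · simp
  have h2 : (2 : K) ^ e.1 ≠ 0 := zpow_ne_zero _ two_ne
  have h3 : (3 : K) ^ e.2 ≠ 0 := zpow_ne_zero _ three_ne
  field_simp

lemma Hg.add {u v : K} {d : ℤ × ℤ} (hu : Hg θ u d) (hv : Hg θ v d) : Hg θ (u + v) d := by
  rw [Hg] at *
  rw [map_add, hu, hv]
  ring

omit [CharZero K] in
lemma Hg.one : Hg θ (1 : K) 0 := by
  rw [Hg]; simp

lemma Hg.inv {u : K} {d : ℤ × ℤ} (hu : Hg θ u d) : Hg θ u⁻¹ (-d) := by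
  have := Hg.div (Hg.one (θ := θ)) hu
  rwa [one_div, zero_sub] at this

lemma Hg.pow {u : K} {d : ℤ × ℤ} (hu : Hg θ u d) (k : ℕ) : Hg θ (u ^ k) (k • d) := by
  induction k with
  | zero => simpa using Hg.one
  | succ k ih => rw [pow_succ, succ_nsmul]; exact ih.mul hu

lemma Hg.zpow {u : K} {d : ℤ × ℤ} (hu : Hg θ u d) (k : ℤ) : Hg θ (u ^ k) (k • d) := by
  obtain ⟨k, rfl | rfl⟩ := k.eq_nat_or_neg
  · rw [zpow_natCast, natCast_zsmul]; exact hu.pow k
  · rw [zpow_neg, zpow_natCast, neg_smul, natCast_zsmul]; exact (hu.pow k).inv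

lemma Hg.prod {ι : Type} (s : Finset ι) (u : ι → K) (d : ι → ℤ × ℤ)
    (h : ∀ i ∈ s, Hg θ (u i) (d i)) : Hg θ (∏ i ∈ s, u i) (∑ i ∈ s, d i) := by
  classical
  induction s using Finset.induction_on with
  | empty => simpa using Hg.one
  | insert i s hi ih =>
    rw [Finset.prod_insert hi, Finset.sum_insert hi]
    exact (h i (Finset.mem_insert_self i s)).mul
      (ih fun j hj => h j (Finset.mem_insert_of_mem hj))

lemma Hg.mono {x : Idx n r → K} {D : Idx n r → ℤ × ℤ} (hθ : ∀ i, Hg θ (x i) (D i))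
    (m : Idx n r → ℤ) : Hg θ (mono x m) (deg D m) :=
  Hg.prod _ _ _ fun i _ => (hθ i).zpow (m i)

/-- All variables of reachable seeds are homogeneous. -/
theorem Reach.hg (h : Good s₀) (D : Idx n r → ℤ × ℤ)
    (hD : ∀ k, ∑ i, s₀.B i k • D i = 0) (hθ : ∀ i, Hg θ (s₀.x i) (D i)) {t : Seed K n r}
    (ht : Reach s₀ t) (i : Idx n r) : ∃ d, Hg θ (t.x i) d := by
  have key : ∃ D' : Idx n r → ℤ × ℤ, (∀ k, ∑ i, t.B i k • D' i = 0) ∧
      ∀ i, Hg θ (t.x i) (D' i) := by
    induction ht with
    | refl => exact ⟨D, hD, hθ⟩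
    | @step s k hs ih =>
      obtain ⟨E, hE, hx⟩ := ih
      have hg : Good s := hs.good h
      refine ⟨Function.update E (Sum.inl k)
        ((∑ i, max (s.B i k) 0 • E i) - E (Sum.inl k)), fun j => ?_, fun i => ?_⟩
      · exact balanced_mut hg.ss k E hE j
      · rw [mut_x, bmut]
        rcases eq_or_ne i (Sum.inl k) with rfl | hi
        · rw [Function.update_self, Function.update_self]
          refine Hg.div (Hg.add (Hg.mono hx _) ?_) (hx _)
          have h1 : deg E (fun i => max (s.B i k) 0) = deg E (fun i => max (-s.B i k) 0) := by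
            rw [deg, deg, ← sub_eq_zero, ← Finset.sum_sub_distrib, ← hE k]
            refine Finset.sum_congr rfl fun i _ => ?_
            rw [← sub_smul]
            congr 1
            rcases le_total (s.B i k) 0 with h | h
            · rw [max_eq_right h, max_eq_left (by linarith)]; ring
            · rw [max_eq_left h, max_eq_right (by linarith)]; ring
          have h2 := Hg.mono hx (fun i => max (-s.B i k) 0)
          rw [← h1] at h2
          exact h2
        · rw [Function.update_of_ne hi, Function.update_of_ne hi]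
          exact hx i
  obtain ⟨D', -, h'⟩ := key
  exact ⟨_, h' i⟩

lemma pow23_inj {a b c d : ℕ} (h : 2 ^ a * 3 ^ b = 2 ^ c * 3 ^ d) : a = c ∧ b = d := by
  have h2 : ∀ a b : ℕ, (2 ^ a * 3 ^ b).factorization 2 = a := by
    intro a b
    rw [Nat.factorization_mul (by positivity) (by positivity), Nat.factorization_pow,
      Nat.factorization_pow, Nat.Prime.factorization Nat.prime_two,
      Nat.Prime.factorization Nat.prime_three]
    simp
  have h3 : ∀ a b : ℕ, (2 ^ a * 3 ^ b).factorization 3 = b := by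
    intro a b
    rw [Nat.factorization_mul (by positivity) (by positivity), Nat.factorization_pow,
      Nat.factorization_pow, Nat.Prime.factorization Nat.prime_two,
      Nat.Prime.factorization Nat.prime_three]
    simp
  constructor
  · rw [← h2 a b, h, h2]
  · rw [← h3 a b, h, h3]

/-- The expansion of a homogeneous element is homogeneous. -/
theorem deg_of_hg {x : Idx n r → K} (hx : AlgebraicIndependent ℤ x) (D : Idx n r → ℤ × ℤ)
    (hθ : ∀ i, Hg θ (x i) (D i)) {L : Lp n r} {d : ℤ × ℤ} (hL : Hg θ (ev x L) d)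
    (m : Idx n r → ℤ) (hm : L.coeff m ≠ 0) : deg D m = d := by
  classical
  -- a common bound for the exponents
  let S := L.coeff.support
  let N : ℕ := d.1.natAbs + d.2.natAbs + ∑ m ∈ S, ((deg D m).1.natAbs + (deg D m).2.natAbs)
  let T : ℤ × ℤ → ℤ := fun e => 2 ^ (e.1 + N).toNat * 3 ^ (e.2 + N).toNat
  have hT : ∀ e : ℤ × ℤ, e.1.natAbs ≤ N → e.2.natAbs ≤ N →
      ((T e : ℤ) : K) = 2 ^ (N : ℤ) * 3 ^ (N : ℤ) * (2 ^ e.1 * 3 ^ e.2) := by
    intro e h1 h2
    simp only [T]
    push_cast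
    rw [← zpow_natCast, ← zpow_natCast (3 : K), Int.toNat_of_nonneg (by omega),
      Int.toNat_of_nonneg (by omega), zpow_add₀ two_ne, zpow_add₀ three_ne]
    ring
  have hNm : ∀ m ∈ S, (deg D m).1.natAbs ≤ N ∧ (deg D m).2.natAbs ≤ N := by
    intro m hm
    have := Finset.single_le_sum
      (f := fun m => (deg D m).1.natAbs + (deg D m).2.natAbs) (fun _ _ => Nat.zero_le _) hm
    simp only [N]
    omega
  have hNd : d.1.natAbs ≤ N ∧ d.2.natAbs ≤ N := by simp only [N]; omega
  let L' : Lp n r := ∑ m ∈ S, AddMonoidAlgebra.single m (L.coeff m * (T (deg D m) - T d))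
  have hev : ev x L = ∑ m ∈ S, (L.coeff m : K) * mono x m := rfl
  have hL' : ev x L' = 0 := by
    have h1 : θ (ev x L) = ∑ m ∈ S, (L.coeff m : K) *
        (2 ^ (deg D m).1 * 3 ^ (deg D m).2 * mono x m) := by
      rw [hev, map_sum]
      refine Finset.sum_congr rfl fun m _ => ?_
      rw [map_mul, map_intCast]
      rw [show θ (mono x m) = _ from Hg.mono hθ m]
    have h2 : θ (ev x L) = ∑ m ∈ S, (L.coeff m : K) * (2 ^ d.1 * 3 ^ d.2 * mono x m) := by
      rw [show θ (ev x L) = _ from hL, hev, Finset.mul_sum]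
      refine Finset.sum_congr rfl fun m _ => ?_
      ring
    rw [ev_sum]
    have h3 : ∀ m ∈ S, ev x (AddMonoidAlgebra.single m (L.coeff m * (T (deg D m) - T d))) =
        2 ^ (N : ℤ) * 3 ^ (N : ℤ) * ((L.coeff m : K) *
          (2 ^ (deg D m).1 * 3 ^ (deg D m).2 * mono x m) -
          (L.coeff m : K) * (2 ^ d.1 * 3 ^ d.2 * mono x m)) := by
      intro m hm
      rw [ev_single]
      rw [Int.cast_mul, Int.cast_sub, hT _ (hNm m hm).1 (hNm m hm).2, hT _ hNd.1 hNd.2]
      ring
    rw [Finset.sum_congr rfl h3, ← Finset.mul_sum, Finset.sum_sub_distrib, ← h1, ← h2, sub_self,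
      mul_zero]
  have hL0 : L' = 0 := by
    apply ev_injective hx
    rw [hL', ev_zero]
  have hmS : m ∈ S := by simpa [S] using hm
  have hc : L'.coeff m = L.coeff m * (T (deg D m) - T d) := by
    simp only [L']
    rw [AddMonoidAlgebra.coeff_sum, Finsupp.finsetSum_apply]
    rw [Finset.sum_eq_single m]
    · simp
    · intro b _ hb
      simp [hb]
    · intro h; exact absurd hmS h
  have h0 : T (deg D m) = T d := by
    rw [hL0] at hc
    simp only [AddMonoidAlgebra.coeff_zero, Finsupp.coe_zero, Pi.zero_apply] at hc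
    rcases mul_eq_zero.1 hc.symm with h | h
    · exact absurd h hm
    · linarith
  simp only [T] at h0
  have h1 : 2 ^ ((deg D m).1 + N).toNat * 3 ^ ((deg D m).2 + N).toNat =
      2 ^ (d.1 + N).toNat * 3 ^ (d.2 + N).toNat := by exact_mod_cast h0
  obtain ⟨h2, h3⟩ := pow23_inj h1
  have h4 := hNm m hmS
  ext
  · omega
  · omega

/-- Laurent polynomials with homogeneous support are homogeneous. -/
theorem hg_of_deg {x : Idx n r → K} (D : Idx n r → ℤ × ℤ)
    (hθ : ∀ i, Hg θ (x i) (D i)) {L : Lp n r} {d : ℤ × ℤ}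
    (hL : ∀ m, L.coeff m ≠ 0 → deg D m = d) : Hg θ (ev x L) d := by
  have hev : ev x L = ∑ m ∈ L.coeff.support, (L.coeff m : K) * mono x m := rfl
  rw [Hg, hev, map_sum, Finset.mul_sum]
  refine Finset.sum_congr rfl fun m hm => ?_
  rw [map_mul, map_intCast, show θ (mono x m) = _ from Hg.mono hθ m,
    hL m (by simpa using hm)]
  ring

end

end Pool.Agent.LibSP
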