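import Pool.Agent.LibSP.FinA

/-!
Parity of the elements of the cluster algebra.
-/

set_option autoImplicit false

namespace Pool.Agent.LibSP

/-- The parity functional. -/
def eps (L : Lp 4 2) : ℤ := L.coeff (E (0, -2, -2, 0, 2, 2)) + L.coeff (E (3, -1, 0, -2, 1, 0)) +
  L.coeff (E (0, 0, 2, -1, 0, 1)) + L.coeff (E (2, 0, 2, -2, 0, 0))

/-- The property of homogeneous elements of the cluster algebra which is preserved under
products. -/
structure Ok (L : Lp 4 2) (d : ℤ × ℤ) : Prop where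
  inU : InU L
  hom : HomL L d
  d11 : d = (1, 1) → ∃ c : ℤ, L = c • (lp la * lp lb)
  d14 : d = (-1, 4) → Even (L.coeff (E (1, -1, 1, -1, 1, 0)))
  d41 : d = (4, -1) → Even (L.coeff (E (1, 0, 0, -1, 0, 1)))
  d22 : d = (2, 2) → Even (eps L)

lemma HomL.mul {L M : Lp 4 2} {d e : ℤ × ℤ} (hL : HomL L d) (hM : HomL M e) :
    HomL (L * M) (d + e) := by
  classical
  intro m hm
  rw [AddMonoidAlgebra.coeff_mul] at hm
  rw [Finsupp.sum] at hm
  obtain ⟨m1, h1, h2⟩ := Finset.exists_ne_zero_of_sum_ne_zero hm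
  rw [Finsupp.sum] at h2
  obtain ⟨m2, h3, h4⟩ := Finset.exists_ne_zero_of_sum_ne_zero h2
  have h5 : m1 + m2 = m := by
    by_contra h
    rw [if_neg h] at h4
    exact h4 rfl
  rw [← h5, ← hL m1 (Finsupp.mem_support_iff.1 h1), ← hM m2 (Finsupp.mem_support_iff.1 h3)]
  simp [deg, add_smul, Finset.sum_add_distrib]

lemma eps_add (L M : Lp 4 2) : eps (L + M) = eps L + eps M := by
  simp only [eps, AddMonoidAlgebra.coeff_add, Finsupp.add_apply]
  ring

lemma eps_smul (c : ℤ) (L : Lp 4 2) : eps (c • L) = c * eps L := by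
  simp only [eps, AddMonoidAlgebra.coeff_smul, Finsupp.smul_apply, smul_eq_mul]
  ring

lemma eps_lp (l : List Term) : eps (lp l) = cf l (0, -2, -2, 0, 2, 2) + cf l (3, -1, 0, -2, 1, 0) +
    cf l (0, 0, 2, -1, 0, 1) + cf l (2, 0, 2, -2, 0, 0) := by
  simp only [eps, coeff_lp]

lemma Ok.zero (d : ℤ × ℤ) : Ok 0 d where
  inU := by
    have h := (inU_all lA (by simp))
    have := h.smul 0
    simpa using this
  hom := by
    intro m hm
    simp at hm
  d11 := fun _ => ⟨0, by simp⟩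
  d14 := fun _ => by simp
  d41 := fun _ => by simp
  d22 := fun _ => by simp [eps]

lemma Ok.comm {L M : Lp 4 2} {d e : ℤ × ℤ} (h : Ok (L * M) (d + e)) : Ok (M * L) (e + d) := by
  rw [mul_comm, add_comm]
  exact h

lemma coeff_ab2 : (lp la * lp lb2).coeff (E (1, -1, 1, -1, 1, 0)) = 2 := by
  rw [id_ab2]
  simp only [AddMonoidAlgebra.coeff_add, Finsupp.add_apply, AddMonoidAlgebra.coeff_smul,
    Finsupp.smul_apply, coeff_lp]
  rfl

lemma coeff_a2b : (lp la2 * lp lb).coeff (E (1, 0, 0, -1, 0, 1)) = 2 := by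
  rw [id_a2b]
  simp only [AddMonoidAlgebra.coeff_add, Finsupp.add_apply, AddMonoidAlgebra.coeff_smul,
    Finsupp.smul_apply, coeff_lp]
  rfl

lemma eps_nsmul (c : ℕ) (L : Lp 4 2) : eps (c • L) = c * eps L := by
  simp only [eps, AddMonoidAlgebra.coeff_smul, Finsupp.smul_apply]
  simp only [nsmul_eq_mul]
  ring

lemma eps_p1 : eps (lp la * lp lz2) = 2 := by
  rw [id_p1, eps_add, eps_add, eps_nsmul, eps_lp, eps_lp, eps_lp]
  rfl

lemma eps_p2 : eps (lp lb * lp lz1) = 2 := by
  rw [id_p2, eps_add, eps_add, eps_nsmul, eps_lp, eps_lp, eps_lp]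
  rfl

lemma eps_p3 : eps (lp la * lp lz4) = 2 := by
  rw [id_p3, eps_add, eps_add, eps_nsmul, eps_lp, eps_lp, eps_lp]
  rfl

lemma eps_p4 : eps (lp lb * lp lz3) = 2 := by
  rw [id_p4, eps_add, eps_add, eps_nsmul, eps_lp, eps_lp, eps_lp]
  rfl

lemma eps_PQ : eps (lp lP * lp lQ) = 0 := by
  rw [id_PQ, eps_lp]
  rfl

lemma eps_a2b2 : eps (lp la2 * lp lb2) = 6 := by
  rw [id_a2b2, eps_add, eps_add, eps_add, eps_add, eps_add, eps_nsmul, eps_nsmul, eps_nsmul,
    eps_nsmul, eps_lp, eps_lp, eps_lp, eps_lp, eps_lp, eps_lp]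
  rfl

/-- The case of two nonzero factors, the first one of smaller degree. -/
lemma Ok.mul_aux {L M : Lp 4 2} {d e : ℤ × ℤ} (hL : Ok L d) (hM : Ok M e) (hL0 : L ≠ 0)
    (hM0 : M ≠ 0) (hle : d.1 + d.2 ≤ e.1 + e.2) : Ok (L * M) (d + e) := by
  obtain ⟨d1, d2⟩ := d
  obtain ⟨e1, e2⟩ := e
  simp only at hle
  obtain ⟨hd0, hdz, hdo, hdt⟩ := small_deg hL.inU hL.hom hL0
  obtain ⟨he0, hez, heo, het⟩ := small_deg hM.inU hM.hom hM0
  simp only [Prod.mk.injEq] at *
  refine ⟨hL.inU.mul hM.inU, hL.hom.mul hM.hom, ?_, ?_, ?_, ?_⟩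
  · intro h
    simp only [Prod.mk_add_mk, Prod.mk.injEq] at h
    have hs : d1 + d2 = 0 ∨ d1 + d2 = 1 := by omega
    rcases hs with hs | hs
    · obtain ⟨rfl, rfl⟩ := hdz hs
      obtain ⟨c, rfl⟩ := coord_0 hL.inU hL.hom
      obtain ⟨c', rfl⟩ := hM.d11 (by simp only [Prod.mk.injEq]; omega)
      exact ⟨c * c', by rw [smul_mul_assoc, one_mul, smul_smul]⟩
    · rcases hdo hs with ⟨rfl, rfl⟩ | ⟨rfl, rfl⟩
      · obtain ⟨c, rfl⟩ := coord_a hL.inU hL.hom
        obtain rfl : e1 = -2 := by omega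
        obtain rfl : e2 = 3 := by omega
        obtain ⟨c', rfl⟩ := coord_b hM.inU hM.hom
        exact ⟨c * c', by rw [smul_mul_assoc, mul_smul_comm, smul_smul]⟩
      · obtain ⟨c, rfl⟩ := coord_b hL.inU hL.hom
        obtain rfl : e1 = 3 := by omega
        obtain rfl : e2 = -2 := by omega
        obtain ⟨c', rfl⟩ := coord_a hM.inU hM.hom
        exact ⟨c * c', by rw [smul_mul_assoc, mul_smul_comm, smul_smul, mul_comm (lp lb)]⟩
  · intro h
    simp only [Prod.mk_add_mk, Prod.mk.injEq] at h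
    have hs : d1 + d2 = 0 ∨ d1 + d2 = 1 := by omega
    rcases hs with hs | hs
    · obtain ⟨rfl, rfl⟩ := hdz hs
      obtain ⟨c, rfl⟩ := coord_0 hL.inU hL.hom
      have h' := hM.d14 (by simp only [Prod.mk.injEq]; omega)
      rw [smul_mul_assoc, one_mul, AddMonoidAlgebra.coeff_smul, Finsupp.smul_apply, smul_eq_mul]
      exact h'.mul_left c
    · rcases hdo hs with ⟨rfl, rfl⟩ | ⟨rfl, rfl⟩
      · obtain ⟨c, rfl⟩ := coord_a hL.inU hL.hom
        obtain rfl : e1 = -4 := by omega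
        obtain rfl : e2 = 6 := by omega
        obtain ⟨c', rfl⟩ := coord_b2 hM.inU hM.hom
        rw [smul_mul_assoc, mul_smul_comm, smul_smul, AddMonoidAlgebra.coeff_smul,
          Finsupp.smul_apply, smul_eq_mul, coeff_ab2]
        exact even_two.mul_left _
      · obtain ⟨c, rfl⟩ := coord_b hL.inU hL.hom
        obtain ⟨c', rfl⟩ := hM.d11 (by simp only [Prod.mk.injEq]; omega)
        rw [smul_mul_assoc, mul_smul_comm, smul_smul,
          show lp lb * (lp la * lp lb) = lp la * (lp lb * lp lb) by ring, id_b2,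
          AddMonoidAlgebra.coeff_smul, Finsupp.smul_apply, smul_eq_mul, coeff_ab2]
        exact even_two.mul_left _
  · intro h
    simp only [Prod.mk_add_mk, Prod.mk.injEq] at h
    have hs : d1 + d2 = 0 ∨ d1 + d2 = 1 := by omega
    rcases hs with hs | hs
    · obtain ⟨rfl, rfl⟩ := hdz hs
      obtain ⟨c, rfl⟩ := coord_0 hL.inU hL.hom
      have h' := hM.d41 (by simp only [Prod.mk.injEq]; omega)
      rw [smul_mul_assoc, one_mul, AddMonoidAlgebra.coeff_smul, Finsupp.smul_apply, smul_eq_mul]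
      exact h'.mul_left c
    · rcases hdo hs with ⟨rfl, rfl⟩ | ⟨rfl, rfl⟩
      · obtain ⟨c, rfl⟩ := coord_a hL.inU hL.hom
        obtain ⟨c', rfl⟩ := hM.d11 (by simp only [Prod.mk.injEq]; omega)
        rw [smul_mul_assoc, mul_smul_comm, smul_smul, ← mul_assoc, id_a2,
          AddMonoidAlgebra.coeff_smul, Finsupp.smul_apply, smul_eq_mul, coeff_a2b]
        exact even_two.mul_left _
      · obtain ⟨c, rfl⟩ := coord_b hL.inU hL.hom
        obtain rfl : e1 = 6 := by omega
        obtain rfl : e2 = -4 := by omega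
        obtain ⟨c', rfl⟩ := coord_a2 hM.inU hM.hom
        rw [smul_mul_assoc, mul_smul_comm, smul_smul, mul_comm (lp lb),
          AddMonoidAlgebra.coeff_smul, Finsupp.smul_apply, smul_eq_mul, coeff_a2b]
        exact even_two.mul_left _
  · intro h
    simp only [Prod.mk_add_mk, Prod.mk.injEq] at h
    have hs : d1 + d2 = 0 ∨ d1 + d2 = 1 ∨ d1 + d2 = 2 := by omega
    rcases hs with hs | hs | hs
    · obtain ⟨rfl, rfl⟩ := hdz hs
      obtain ⟨c, rfl⟩ := coord_0 hL.inU hL.hom
      have h' := hM.d22 (by simp only [Prod.mk.injEq]; omega)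
      rw [smul_mul_assoc, one_mul, eps_smul]
      exact h'.mul_left c
    · rcases hdo hs with ⟨rfl, rfl⟩ | ⟨rfl, rfl⟩
      · obtain ⟨c, rfl⟩ := coord_a hL.inU hL.hom
        obtain rfl : e1 = -1 := by omega
        obtain rfl : e2 = 4 := by omega
        have h1 := hM.d14 (by simp)
        have h2 := coord_14 hM.inU hM.hom
        rw [h2]
        generalize M.coeff (E (0, -2, -1, 0, 2, 1)) = u
        generalize M.coeff (E (1, -1, 1, -1, 1, 0)) = v at h1
        generalize M.coeff (E (0, 0, 3, -1, 0, 0)) = w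
        rw [smul_mul_assoc, mul_add, mul_add, mul_smul_comm, mul_smul_comm, mul_smul_comm,
          eps_smul, eps_add, eps_add, eps_smul, eps_smul, eps_smul, eps_p1, eps_p3]
        exact (((even_two.mul_left _).add (h1.mul_right _)).add (even_two.mul_left _)).mul_left _
      · obtain ⟨c, rfl⟩ := coord_b hL.inU hL.hom
        obtain rfl : e1 = 4 := by omega
        obtain rfl : e2 = -1 := by omega
        have h1 := hM.d41 (by simp)
        have h2 := coord_41 hM.inU hM.hom
        rw [h2]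
        generalize M.coeff (E (0, -1, -2, 0, 1, 2)) = u
        generalize M.coeff (E (1, 0, 0, -1, 0, 1)) = v at h1
        generalize M.coeff (E (3, 0, 0, -2, 0, 0)) = w
        rw [smul_mul_assoc, mul_add, mul_add, mul_smul_comm, mul_smul_comm, mul_smul_comm,
          eps_smul, eps_add, eps_add, eps_smul, eps_smul, eps_smul, eps_p2, eps_p4]
        exact (((even_two.mul_left _).add (h1.mul_right _)).add (even_two.mul_left _)).mul_left _
    · have he2 : e1 + e2 = 2 := by omega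
      rcases hdt hs with ⟨rfl, rfl⟩ | ⟨rfl, rfl⟩ | ⟨rfl, rfl⟩ | ⟨rfl, rfl⟩ | ⟨rfl, rfl⟩
      · obtain rfl : e1 = -4 := by omega
        obtain rfl : e2 = 6 := by omega
        obtain ⟨c, rfl⟩ := coord_a2 hL.inU hL.hom
        obtain ⟨c', rfl⟩ := coord_b2 hM.inU hM.hom
        rw [smul_mul_assoc, mul_smul_comm, eps_smul, eps_smul, eps_a2b2]
        exact ((by decide : Even (6 : ℤ)).mul_left _).mul_left _
      · obtain rfl : e1 = 6 := by omega
        obtain rfl : e2 = -4 := by omega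
        obtain ⟨c, rfl⟩ := coord_b2 hL.inU hL.hom
        obtain ⟨c', rfl⟩ := coord_a2 hM.inU hM.hom
        rw [smul_mul_assoc, mul_smul_comm, eps_smul, eps_smul, mul_comm (lp lb2), eps_a2b2]
        exact ((by decide : Even (6 : ℤ)).mul_left _).mul_left _
      · obtain rfl : e1 = 0 := by omega
        obtain rfl : e2 = 2 := by omega
        obtain ⟨c, rfl⟩ := coord_P hL.inU hL.hom
        obtain ⟨c', rfl⟩ := coord_Q hM.inU hM.hom
        rw [smul_mul_assoc, mul_smul_comm, eps_smul, eps_smul, eps_PQ]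
        simp
      · obtain rfl : e1 = 2 := by omega
        obtain rfl : e2 = 0 := by omega
        obtain ⟨c, rfl⟩ := coord_Q hL.inU hL.hom
        obtain ⟨c', rfl⟩ := coord_P hM.inU hM.hom
        rw [smul_mul_assoc, mul_smul_comm, eps_smul, eps_smul, mul_comm (lp lQ), eps_PQ]
        simp
      · obtain ⟨c, rfl⟩ := hL.d11 (by simp)
        obtain ⟨c', rfl⟩ := hM.d11 (by simp only [Prod.mk.injEq]; omega)
        rw [smul_mul_assoc, mul_smul_comm, eps_smul, eps_smul,
          show lp la * lp lb * (lp la * lp lb) = (lp la * lp la) * (lp lb * lp lb) by ring,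
          id_a2, id_b2, eps_a2b2]
        exact ((by decide : Even (6 : ℤ)).mul_left _).mul_left _

theorem Ok.mul {L M : Lp 4 2} {d e : ℤ × ℤ} (hL : Ok L d) (hM : Ok M e) : Ok (L * M) (d + e) := by
  by_cases hL0 : L = 0
  · rw [hL0, zero_mul]
    exact Ok.zero _
  by_cases hM0 : M = 0
  · rw [hM0, mul_zero]
    exact Ok.zero _
  rcases le_total (d.1 + d.2) (e.1 + e.2) with h | h
  · exact hL.mul_aux hM hL0 hM0 h
  · exact (hM.mul_aux hL hM0 hL0 h).comm

theorem ok_of_clusterVar {C : Set K₀} (hC : StronglyPositiveBasis S₀ C) {L : Lp 4 2}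
    (hL : IsClusterVar (ev S₀.x L)) : ∃ d, Ok L d := by
  obtain ⟨s, hs, k, hk⟩ := id hL
  obtain ⟨θ, hθ⟩ := exists_theta exB DD
  obtain ⟨d, hd⟩ := Reach.hg good_S₀ DD DD_balanced hθ hs (Sum.inl k)
  rw [← hk] at hd
  have hh : HomL L d := fun m hm => deg_of_hg good_S₀.ai DD hθ hd m hm
  refine ⟨d, ?_, hh, ?_, ?_, ?_, ?_⟩
  · rw [InU, hk]
    exact laurent good_S₀ hs _
  · rintro rfl
    exact (n1 hC hL hh).elim
  · rintro rfl
    rw [n2 hC hL hh]
    exact Even.zero
  · rintro rfl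
    rw [n3 hC hL hh]
    exact Even.zero
  · rintro rfl
    obtain ⟨h1, h2, h3, h4⟩ := n4 hC hL hh
    rw [eps, h1, h2, h3, h4]
    decide

lemma hom_single (m : Idx 4 2 → ℤ) (c : ℤ) :
    HomL (AddMonoidAlgebra.single m c) (deg DD m) := by
  intro m' hm'
  rw [AddMonoidAlgebra.coeff_single, Finsupp.single_apply] at hm'
  by_cases h : m = m'
  · rw [h]
  · rw [if_neg h] at hm'
    exact (hm' rfl).elim

lemma deg_single (i : Idx 4 2) : deg DD (Pi.single i 1) = DD i := by
  rw [deg, Finset.sum_eq_single i]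
  · simp
  · intro j _ hj
    simp [hj]
  · simp

theorem ok_frozen (j : Fin 2) : ∃ L d, ev S₀.x L = S₀.x (Sum.inr j) ∧ Ok L d := by
  have h1 : ev S₀.x (AddMonoidAlgebra.single (Pi.single (Sum.inr j) 1) 1) = S₀.x (Sum.inr j) := by
    rw [ev_single, mono_single]
    simp
  refine ⟨AddMonoidAlgebra.single (Pi.single (Sum.inr j) 1) 1, DD (Sum.inr j), h1, ?_, ?_, ?_, ?_,
    ?_, ?_⟩
  · rw [InU, h1]
    exact laurent good_S₀ Reach.refl _
  · rw [← deg_single]
    exact hom_single _ _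
  · fin_cases j <;> simp [DD]
  · fin_cases j <;> simp [DD]
  · fin_cases j <;> simp [DD]
  · fin_cases j <;> simp [DD]

lemma Ok.eps_even {L : Lp 4 2} {d : ℤ × ℤ} (h : Ok L d) : Even (eps L) := by
  by_cases hd : d = (2, 2)
  · exact h.d22 hd
  · have key : ∀ a p q b f g : ℤ, (2 * a + 2 * p + b + 3 * g, a + 2 * q + 2 * b + 3 * f) = (2, 2) →
        L.coeff (E (a, p, q, b, f, g)) = 0 := by
      intro a p q b f g hE
      by_contra hne
      have := h.hom _ hne
      rw [deg_E, hE] at this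
      exact hd this.symm
    rw [eps, key 0 (-2) (-2) 0 2 2 (by norm_num), key 3 (-1) 0 (-2) 1 0 (by norm_num),
      key 0 0 2 (-1) 0 1 (by norm_num), key 2 0 2 (-2) 0 0 (by norm_num)]
    decide

lemma Ok.one : Ok 1 (0, 0) where
  inU := by
    rw [InU, ev_one]
    intro s _
    have := Lau.int s.x 1
    simpa using this
  hom := by
    have h := hom_single 0 1
    have h0 : deg DD 0 = (0, 0) := by
      simp only [deg, Pi.zero_apply, zero_smul, Finset.sum_const_zero]
      rfl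
    rw [h0] at h
    exact h
  d11 := by simp
  d14 := by simp
  d41 := by simp
  d22 := by simp

/-- The submonoid of homogeneous elements with the property `Ok`. -/
def okMon : Submonoid (Lp 4 2) where
  carrier := {L | ∃ d, Ok L d}
  one_mem' := ⟨_, Ok.one⟩
  mul_mem' := by
    rintro L M ⟨d, hL⟩ ⟨e, hM⟩
    exact ⟨_, hL.mul hM⟩

/-- Elements of the cluster algebra have even `eps`. -/
theorem eps_even {C : Set K₀} (hC : StronglyPositiveBasis S₀ C) {L : Lp 4 2}
    (hL : ev S₀.x L ∈ clusterAlg S₀) : Even (eps L) := by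
  have hgen : ∀ y ∈ {y | ∃ s, Reach S₀ s ∧ ∃ i, y = s.x i}, ∃ M, ev S₀.x M = y ∧ M ∈ okMon := by
    rintro y ⟨s, hs, i, rfl⟩
    rcases i with i | j
    · obtain ⟨M, -, hM⟩ := laurent good_S₀ hs (Sum.inl i) S₀ Reach.refl
      refine ⟨M, hM, ok_of_clusterVar hC ?_⟩
      rw [hM]
      exact ⟨s, hs, i, rfl⟩
    · obtain ⟨M, d, hM, hd⟩ := ok_frozen j
      exact ⟨M, by rw [hM, hs.frozen], d, hd⟩
  have h0 : ∀ i, S₀.x i ≠ 0 := ne_zero_of_ai good_S₀.ai
  have h1 : clusterAlg S₀ ≤ (Subring.closure (okMon : Set (Lp 4 2))).map (evH S₀.x h0) := by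
    rw [clusterAlg, Subring.closure_le]
    intro y hy
    obtain ⟨M, hM, hM'⟩ := hgen y hy
    exact ⟨M, Subring.subset_closure hM', by rw [evH_apply, hM]⟩
  obtain ⟨M, hM, hML⟩ := h1 hL
  rw [evH_apply] at hML
  rw [← ev_injective good_S₀.ai hML]
  clear hML
  replace hM : M ∈ Subring.closure (okMon : Set (Lp 4 2)) := hM
  rw [Subring.mem_closure_iff, Submonoid.closure_eq] at hM
  induction hM using AddSubgroup.closure_induction with
  | mem x hx =>
    obtain ⟨d, hd⟩ := hx
    exact hd.eps_even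
  | zero => simp [eps]
  | add x y _ _ hx hy =>
    rw [eps_add]
    exact hx.add hy
  | neg x _ hx =>
    have : eps (-x) = -eps x := by
      have := eps_smul (-1) x
      rw [neg_one_smul] at this
      rw [this]
      ring
    rw [this]
    exact hx.neg

end Pool.Agent.LibSP
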