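import Pool.Agent.LibSP.PosA

/-!
The special point.
-/

set_option autoImplicit false

namespace Pool.Agent.LibSP

open AddMonoidAlgebra

variable {K : Type} [Field K] {n r : ℕ} {s₀ : Seed K n r}

/-- The Laurent elements as a subring. -/
def lauSubring (x : Idx n r → K) (hx : ∀ i, x i ≠ 0) : Subring K where
  carrier := {u | Lau x u}
  mul_mem' := fun hu hv => Lau.mul hx hu hv
  one_mem' := by simpa using Lau.int x 1
  add_mem' := fun hu hv => Lau.add hu hv
  zero_mem' := by simpa using Lau.int x 0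
  neg_mem' := fun hu => Lau.neg hu

/-- All terms at a positive point are nonnegative. -/
lemma mono_pos {τ : Idx n r → ℚ} (hτ : ∀ i, 0 < τ i) (m : Idx n r → ℤ) : 0 < mono τ m :=
  Finset.prod_pos fun i _ => zpow_pos (hτ i) _

lemma term_le_ev {τ : Idx n r → ℚ} (hτ : ∀ i, 0 < τ i) {L : Lp n r}
    (hL : ∀ m, 0 ≤ L.coeff m) (m : Idx n r → ℤ) : (L.coeff m : ℚ) * mono τ m ≤ ev τ L := by
  classical
  by_cases hm : m ∈ L.coeff.support
  · unfold ev Finsupp.sum
    exact Finset.single_le_sum (f := fun m => (L.coeff m : ℚ) * mono τ m)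
      (fun i _ => mul_nonneg (by exact_mod_cast hL i) (mono_pos hτ i).le) hm
  · have h0 : L.coeff m = 0 := by simpa using hm
    rw [h0]
    simp only [Int.cast_zero, zero_mul]
    unfold ev Finsupp.sum
    exact Finset.sum_nonneg fun i _ => mul_nonneg (by exact_mod_cast hL i) (mono_pos hτ i).le

lemma ev_pos_of {τ : Idx n r → ℚ} (hτ : ∀ i, 0 < τ i) {L : Lp n r}
    (hL : ∀ m, 0 ≤ L.coeff m) (hne : L ≠ 0) : 0 < ev τ L := by
  classical
  have : ∃ m, L.coeff m ≠ 0 := by
    by_contra hcon
    push Not at hcon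
    exact hne (by ext m; simpa using hcon m)
  obtain ⟨m, hm⟩ := this
  have h1 : 0 < L.coeff m := lt_of_le_of_ne (hL m) (Ne.symm hm)
  exact lt_of_lt_of_le (mul_pos (by exact_mod_cast h1) (mono_pos hτ m)) (term_le_ev hτ hL m)

/-- A Laurent polynomial in `t` with nonnegative exponents of the `k`-th variable is Laurent at
the neighbour. -/
lemma lau_mut_of_nonneg (h : Good s₀) {t : Seed K n r} (ht : Reach s₀ t) (k : Fin n)
    (L : Lp n r) (hfr : ∀ m, L.coeff m ≠ 0 → ∀ j : Fin r, 0 ≤ m (Sum.inr j))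
    (hk : ∀ m, L.coeff m ≠ 0 → 0 ≤ m (Sum.inl k)) : Lau (t.mut k).x (ev t.x L) := by
  classical
  have hy : ∀ i, (t.mut k).x i ≠ 0 :=
    ne_zero_of_ai (Reach.good h (Reach.step k ht)).ai
  change ev t.x L ∈ lauSubring (t.mut k).x hy
  unfold ev Finsupp.sum
  refine Subring.sum_mem _ fun m hm => ?_
  have hm0 : L.coeff m ≠ 0 := by simpa using hm
  refine Subring.mul_mem _ (Lau.int _ _) ?_
  unfold mono
  refine Subring.prod_mem _ fun i _ => ?_
  have hpow : ∀ (u : K) (a : ℤ), Lau (t.mut k).x u → 0 ≤ a →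
      u ^ a ∈ lauSubring (t.mut k).x hy := by
    intro u a hu ha
    obtain ⟨b, rfl⟩ := Int.eq_ofNat_of_zero_le ha
    rw [zpow_natCast]
    exact Subring.pow_mem _ hu _
  rcases i with i | j
  · by_cases hik : i = k
    · subst hik
      exact hpow _ _ (laurent h ht (Sum.inl i) _ (Reach.step i ht)) (hk m hm0)
    · have hx : (t.mut k).x (Sum.inl i) = t.x (Sum.inl i) := by
        simp only [Seed.mut]
        rw [Function.update_of_ne]
        intro hcon
        exact hik (Sum.inl.inj hcon)
      rcases le_or_gt 0 (m (Sum.inl i)) with ha | ha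
      · refine hpow _ _ ?_ ha
        rw [← hx]; exact Lau.var _ _
      · have hz : t.x (Sum.inl i) ^ m (Sum.inl i) = (t.x (Sum.inl i))⁻¹ ^ (-m (Sum.inl i)) := by
          rw [inv_zpow', neg_neg]
        rw [hz]
        refine hpow _ _ ?_ (by omega)
        rw [← hx]; exact Lau.var_inv _ _
  · have hx : (t.mut k).x (Sum.inr j) = t.x (Sum.inr j) := by
      simp only [Seed.mut]
      rw [Function.update_of_ne]
      simp
    refine hpow _ _ ?_ (hfr m hm0 j)
    rw [← hx]; exact Lau.var _ _

/-- The special point: the cluster variable `z = t.x (inl k)` takes the value `1/2`, all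
coefficient variables take the value `1`, all initial variables take positive values, and an element
of the basis takes a value `≥ 1` unless its quotient by `z` is universally Laurent. -/
theorem exists_point (h : Good s₀) {C : Set K} (hC : StronglyPositiveBasis s₀ C)
    {t : Seed K n r} (ht : Reach s₀ t) (k : Fin n) :
    ∃ α : Idx n r → ℚ, (∀ i, 0 < α i) ∧ (∀ j : Fin r, α (Sum.inr j) = 1) ∧
      (∀ L₀ : Lp n r, ev s₀.x L₀ = t.x (Sum.inl k) → ev α L₀ = 1 / 2) ∧
      ∀ c ∈ C, ¬ Univ s₀ (c / t.x (Sum.inl k)) → ∀ L₀ : Lp n r, ev s₀.x L₀ = c → 1 ≤ ev α L₀ := by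
  classical
  have hgt : Good t := Reach.good h ht
  have h0t : ∀ i, t.x i ≠ 0 := ne_zero_of_ai hgt.ai
  have h00 : ∀ i, s₀.x i ≠ 0 := ne_zero_of_ai h.ai
  have hvar : ∀ i, ev t.x (single (Pi.single i 1) 1 : Lp n r) = t.x i := by
    intro i
    rw [ev_single, mono_single]
    simp
  -- expansions of the initial variables at t
  have hlau : ∀ i, ∃ L : Lp n r, ev t.x L = s₀.x i := by
    intro i
    obtain ⟨L, _, hL⟩ := laurent h (Reach.refl (s₀ := s₀)) i t ht
    exact ⟨L, hL⟩
  choose A hA using hlau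
  set τ : Idx n r → ℚ := fun i => if i = Sum.inl k then 1 / 2 else 1 with hτdef
  have hτ : ∀ i, 0 < τ i := by
    intro i
    simp only [hτdef]
    split_ifs <;> norm_num
  have hτ0 : ∀ i, τ i ≠ 0 := fun i => (hτ i).ne'
  have hmemC : ∀ i, s₀.x i ∈ C := by
    intro i
    refine hC.monomials _ ⟨s₀, Reach.refl, Pi.single i 1, ?_⟩
    rw [Finset.prod_eq_single i]
    · simp
    · intro j _ hj
      simp [hj]
    · simp
  have hα : ∀ i, 0 < ev τ (A i) := by
    intro i
    refine ev_pos_of hτ (fun m => pos_of_basis h hC (hmemC i) ht (hA i) m) ?_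
    intro hcon
    have := hA i
    rw [hcon, ev_zero] at this
    exact h00 i this.symm
  refine ⟨fun i => ev τ (A i), hα, ?_, ?_, ?_⟩
  · intro j
    have h1 : A (Sum.inr j) = (single (Pi.single (Sum.inr j) 1) 1 : Lp n r) := by
      apply ev_injective hgt.ai
      rw [hA, hvar, Reach.frozen ht j]
    simp only [h1]
    rw [ev_single, mono_single]
    simp [hτdef]
  · intro L₀ hL₀
    have h1 := transfer hgt.ai A hA h00 τ hτ0 (fun i => (hα i).ne') L₀
      (single (Pi.single (Sum.inl k) 1) 1) (by rw [hL₀, hvar])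
    rw [h1, ev_single, mono_single]
    simp [hτdef]
  · intro c hc hnu L₀ hL₀
    have hcA : c ∈ clusterAlg s₀ := (hC.span c).1 (Submodule.subset_span hc)
    have hcU : Univ s₀ c := univ_of_mem h hcA
    obtain ⟨L, hLfr, hL⟩ := hcU t ht
    have hpos : ∀ m, 0 ≤ L.coeff m := fun m => pos_of_basis h hC hc ht hL m
    have h1 := transfer hgt.ai A hA h00 τ hτ0 (fun i => (hα i).ne') L₀ L (by rw [hL₀, hL])
    rw [h1]
    by_cases hex : ∃ m, L.coeff m ≠ 0 ∧ m (Sum.inl k) ≤ 0
    · obtain ⟨m, hm, hmk⟩ := hex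
      have h2 : 1 ≤ L.coeff m := by
        have := hpos m
        omega
      have h3 : mono τ m = (1 / 2 : ℚ) ^ m (Sum.inl k) := by
        unfold mono
        rw [Finset.prod_eq_single (Sum.inl k)]
        · simp [hτdef]
        · intro j _ hj
          simp [hτdef, hj]
        · simp
      have h4 : (1 : ℚ) ≤ mono τ m := by
        rw [h3]
        obtain ⟨b, hb⟩ := Int.eq_ofNat_of_zero_le (show 0 ≤ -m (Sum.inl k) by omega)
        have h5 : m (Sum.inl k) = -(b : ℤ) := by omega
        rw [h5, zpow_neg, zpow_natCast, ← inv_pow]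
        have : ((1 / 2 : ℚ)⁻¹) = 2 := by norm_num
        rw [this]
        exact one_le_pow₀ (by norm_num)
      have h2' : (1 : ℚ) ≤ L.coeff m := by exact_mod_cast h2
      calc (1 : ℚ) = 1 * 1 := by norm_num
        _ ≤ (L.coeff m : ℚ) * mono τ m := mul_le_mul h2' h4 (by norm_num) (by linarith)
        _ ≤ ev τ L := term_le_ev hτ hpos m
    · exfalso
      push Not at hex
      apply hnu
      -- the quotient
      have hq : ∀ m, (L * (single (-Pi.single (Sum.inl k) 1) 1 : Lp n r)).coeff m ≠ 0 →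
          L.coeff (m + Pi.single (Sum.inl k) 1) ≠ 0 := by
        intro m hm hcon
        apply hm
        have : m = (m + Pi.single (Sum.inl k) 1) + (-Pi.single (Sum.inl k) 1) := by abel
        rw [this]
        rw [AddMonoidAlgebra.coeff_mul_single_add, hcon, zero_mul]
      have hev : ev t.x (L * (single (-Pi.single (Sum.inl k) 1) 1 : Lp n r)) =
          c / t.x (Sum.inl k) := by
        rw [ev_mul h0t, hL, ev_single, mono_neg, mono_single]
        simp [div_eq_mul_inv]
      have hfr' : ∀ m, (L * (single (-Pi.single (Sum.inl k) 1) 1 : Lp n r)).coeff m ≠ 0 →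
          ∀ j : Fin r, 0 ≤ m (Sum.inr j) := by
        intro m hm j
        have := hLfr _ (hq m hm) j
        simpa using this
      have hkk : ∀ m, (L * (single (-Pi.single (Sum.inl k) 1) 1 : Lp n r)).coeff m ≠ 0 →
          0 ≤ m (Sum.inl k) := by
        intro m hm
        have := hex _ (hq m hm)
        simp only [Pi.add_apply, Pi.single_eq_same] at this
        omega
      refine upper h ht ⟨_, hfr', hev⟩ fun k' => ?_
      by_cases hkk' : k' = k
      · subst hkk'
        rw [← hev]
        exact lau_mut_of_nonneg h ht k' _ hfr' hkk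
      · have hy : ∀ i, (t.mut k').x i ≠ 0 :=
          ne_zero_of_ai (Reach.good h (Reach.step k' ht)).ai
        have hx : (t.mut k').x (Sum.inl k) = t.x (Sum.inl k) := by
          simp only [Seed.mut]
          rw [Function.update_of_ne]
          intro hcon
          exact hkk' (Sum.inl.inj hcon).symm
        rw [div_eq_mul_inv, ← hx]
        exact Lau.mul hy (hcU _ (Reach.step k' ht)) (Lau.var_inv _ _)

end Pool.Agent.LibSP
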