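import Pool.Agent.LibSP.LemKA

/-!
Coordinates of homogeneous elements of small degree.
-/

set_option autoImplicit false

namespace Pool.Agent.LibSP

/-- `L` is homogeneous of bidegree `d`. -/
def HomL (L : Lp 4 2) (d : ℤ × ℤ) : Prop := ∀ m, L.coeff m ≠ 0 → deg DD m = d

lemma HomL.k7 {L : Lp 4 2} (hL : InU L) {d : ℤ × ℤ} (hd : HomL L d) (h0 : L ≠ 0) :
    ∃ a p q b f g : ℤ, L.coeff (E (a, p, q, b, f, g)) ≠ 0 ∧ K7 a p q b f g ∧
      2 * a + 2 * p + b + 3 * g = d.1 ∧ a + 2 * q + 2 * b + 3 * f = d.2 := by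
  obtain ⟨a, p, q, b, f, g, h1, h2⟩ := lemmaK hL h0
  have h3 := hd _ h1
  rw [deg_E] at h3
  refine ⟨a, p, q, b, f, g, h1, h2, ?_, ?_⟩
  · rw [← h3]
  · rw [← h3]

/-- The bidegrees of sum at most two which occur. -/
theorem small_deg {L : Lp 4 2} (hL : InU L) {d : ℤ × ℤ} (hd : HomL L d) (h0 : L ≠ 0) :
    0 ≤ d.1 + d.2 ∧ (d.1 + d.2 = 0 → d = (0, 0)) ∧
      (d.1 + d.2 = 1 → d = (3, -2) ∨ d = (-2, 3)) ∧
      (d.1 + d.2 = 2 → d = (6, -4) ∨ d = (-4, 6) ∨ d = (2, 0) ∨ d = (0, 2) ∨ d = (1, 1)) := by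
  obtain ⟨a, p, q, b, f, g, -, ⟨h1, h2, h3, h4, h5, h6, h7⟩, e1, e2⟩ := hd.k7 hL h0
  obtain ⟨d1, d2⟩ := d
  simp only [Prod.mk.injEq] at *
  refine ⟨by omega, fun h => by omega, fun h => ?_, fun h => ?_⟩
  · obtain ⟨s3, hs3⟩ : ∃ s, s = p + f := ⟨_, rfl⟩
    obtain ⟨s5, hs5⟩ : ∃ s, s = a + p + f := ⟨_, rfl⟩
    have c3 : 0 ≤ s3 := by omega
    have c5 : 0 ≤ s5 := by omega
    have b1 : f ≤ 1 := by omega
    have b2 : g ≤ 1 - f := by omega
    have b3 : s3 ≤ 1 - f - g := by omega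
    have b5 : s5 ≤ 1 - f - g - s3 := by omega
    interval_cases f <;> interval_cases g <;> interval_cases s3 <;> interval_cases s5 <;>
      first
      | (exfalso; omega)
      | (left; omega)
      | (right; omega)
  · obtain ⟨s3, hs3⟩ : ∃ s, s = p + f := ⟨_, rfl⟩
    obtain ⟨s5, hs5⟩ : ∃ s, s = a + p + f := ⟨_, rfl⟩
    have c3 : 0 ≤ s3 := by omega
    have c5 : 0 ≤ s5 := by omega
    have b1 : f ≤ 2 := by omega
    have b2 : g ≤ 2 - f := by omega
    have b3 : s3 ≤ 2 - f - g := by omega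
    have b5 : s5 ≤ 2 - f - g - s3 := by omega
    interval_cases f <;> interval_cases g <;> interval_cases s3 <;> interval_cases s5 <;>
      first
      | (exfalso; omega)
      | (left; omega)
      | (right; left; omega)
      | (right; right; left; omega)
      | (right; right; right; left; omega)
      | (right; right; right; right; omega)

lemma homL_lp (l : List Term) (d : ℤ × ℤ)
    (h : (l.all fun t => decide ((2 * t.2.1 + 2 * t.2.2.1 + t.2.2.2.2.1 + 3 * t.2.2.2.2.2.2,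
      t.2.1 + 2 * t.2.2.2.1 + 2 * t.2.2.2.2.1 + 3 * t.2.2.2.2.2.1) = d)) = true) :
    HomL (lp l) d := by
  intro m hm
  obtain ⟨e, rfl⟩ := exists_E m
  rw [coeff_lp] at hm
  have h1 : ∃ t ∈ l, t.2 = e := by
    by_contra hcon
    push Not at hcon
    apply hm
    unfold cf
    apply List.sum_eq_zero
    intro x hx
    rw [List.mem_map] at hx
    obtain ⟨t, ht, rfl⟩ := hx
    rw [if_neg (hcon t ht)]
  obtain ⟨t, ht, rfl⟩ := h1
  rw [List.all_eq_true] at h
  have h2 := of_decide_eq_true (h t ht)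
  obtain ⟨c, a, p, q, b, f, g⟩ := t
  rw [deg_E]
  exact h2

lemma HomL.sub {L M : Lp 4 2} {d : ℤ × ℤ} (hL : HomL L d) (hM : HomL M d) : HomL (L - M) d := by
  intro m hm
  by_cases h : L.coeff m = 0
  · apply hM
    intro h'
    apply hm
    rw [AddMonoidAlgebra.coeff_sub, Finsupp.sub_apply, h, h', sub_zero]
  · exact hL m h

lemma HomL.add {L M : Lp 4 2} {d : ℤ × ℤ} (hL : HomL L d) (hM : HomL M d) : HomL (L + M) d := by
  intro m hm
  by_cases h : L.coeff m = 0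
  · apply hM
    intro h'
    apply hm
    rw [AddMonoidAlgebra.coeff_add, Finsupp.add_apply, h, h', add_zero]
  · exact hL m h

lemma HomL.smul {L : Lp 4 2} {d : ℤ × ℤ} (hL : HomL L d) (c : ℤ) : HomL (c • L) d := by
  intro m hm
  apply hL
  intro h'
  apply hm
  rw [AddMonoidAlgebra.coeff_smul, Finsupp.smul_apply, h', smul_zero]

lemma coeff_comb1 (L : Lp 4 2) (c : ℤ) (l : List Term) (e : ℤ × ℤ × ℤ × ℤ × ℤ × ℤ) :
    (L - c • lp l).coeff (E e) = L.coeff (E e) - c * cf l e := by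
  rw [AddMonoidAlgebra.coeff_sub, Finsupp.sub_apply, AddMonoidAlgebra.coeff_smul,
    Finsupp.smul_apply, coeff_lp, smul_eq_mul]

lemma coeff_smul_lp (c : ℤ) (l : List Term) (e : ℤ × ℤ × ℤ × ℤ × ℤ × ℤ) :
    (c • lp l).coeff (E e) = c * cf l e := by
  rw [AddMonoidAlgebra.coeff_smul, Finsupp.smul_apply, coeff_lp, smul_eq_mul]

lemma eq_zero_of_cand {L : Lp 4 2} (hL : InU L) {d : ℤ × ℤ} (hd : HomL L d)
    (h : ∀ a p q b f g : ℤ, K7 a p q b f g → 2 * a + 2 * p + b + 3 * g = d.1 →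
      a + 2 * q + 2 * b + 3 * f = d.2 → L.coeff (E (a, p, q, b, f, g)) = 0) : L = 0 := by
  by_contra h0
  obtain ⟨a, p, q, b, f, g, h1, h2, h3, h4⟩ := hd.k7 hL h0
  exact h1 (h a p q b f g h2 h3 h4)

lemma inU_lp (l : List Term) (h : l ∈ [lA, lP, lQ, lB, la, lb, la2, lb2, leta, letap, lz1, lz3, lX,
    lz2, lz4, lY, lal, lka, lga, lbe, lde, lPQ]) : InU (lp l) := inU_all l h

lemma inU_one : InU (1 : Lp 4 2) := by
  intro s _
  rw [ev_one]
  have := Lau.int s.x 1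
  simpa using this

lemma lp_nil_one : lp [(1, (0, 0, 0, 0, 0, 0))] = (1 : Lp 4 2) := by
  have : E (0, 0, 0, 0, 0, 0) = 0 := by
    funext i
    rcases i with i | i
    · fin_cases i <;> rfl
    · fin_cases i <;> rfl
  simp [lp, this, AddMonoidAlgebra.one_def]

theorem coord_one_gen {L : Lp 4 2} (hL : InU L) {d : ℤ × ℤ} (hd : HomL L d) (l : List Term)
    (hl : InU (lp l)) (hld : HomL (lp l) d) (e : ℤ × ℤ × ℤ × ℤ × ℤ × ℤ) (hc : cf l e = 1)
    (h : ∀ a p q b f g : ℤ, K7 a p q b f g → 2 * a + 2 * p + b + 3 * g = d.1 →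
      a + 2 * q + 2 * b + 3 * f = d.2 → (a, p, q, b, f, g) = e) : ∃ c : ℤ, L = c • lp l := by
  refine ⟨L.coeff (E e), ?_⟩
  rw [← sub_eq_zero]
  apply eq_zero_of_cand (hL.sub (hl.smul _)) (hd.sub (hld.smul _))
  intro a p q b f g h1 h2 h3
  rw [h a p q b f g h1 h2 h3, coeff_comb1, hc, mul_one, sub_self]

theorem coord_0 {L : Lp 4 2} (hL : InU L) (hd : HomL L (0, 0)) : ∃ c : ℤ, L = c • 1 := by
  rw [← lp_nil_one]
  refine coord_one_gen hL hd _ (by rw [lp_nil_one]; exact inU_one) (homL_lp _ _ (by decide))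
    (0, 0, 0, 0, 0, 0) (by decide) ?_
  rintro a p q b f g ⟨h1, h2, h3, h4, h5, h6, h7⟩ e1 e2
  simp only [Prod.mk.injEq] at *
  omega

theorem coord_a {L : Lp 4 2} (hL : InU L) (hd : HomL L (3, -2)) : ∃ c : ℤ, L = c • lp la := by
  refine coord_one_gen hL hd _ (inU_lp _ (by simp)) (homL_lp _ _ (by decide))
    (0, 0, -1, 0, 0, 1) (by decide) ?_
  rintro a p q b f g ⟨h1, h2, h3, h4, h5, h6, h7⟩ e1 e2
  simp only [Prod.mk.injEq] at *
  obtain ⟨s3, hs3⟩ : ∃ s, s = p + f := ⟨_, rfl⟩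
  obtain ⟨s5, hs5⟩ : ∃ s, s = a + p + f := ⟨_, rfl⟩
  have c3 : 0 ≤ s3 := by omega
  have c5 : 0 ≤ s5 := by omega
  have b1 : f ≤ 1 := by omega
  have b2 : g ≤ 1 - f := by omega
  have b3 : s3 ≤ 1 - f - g := by omega
  have b5 : s5 ≤ 1 - f - g - s3 := by omega
  interval_cases f <;> interval_cases g <;> interval_cases s3 <;> interval_cases s5 <;>
    first
    | (exfalso; omega)
    | (omega)

theorem coord_b {L : Lp 4 2} (hL : InU L) (hd : HomL L (-2, 3)) : ∃ c : ℤ, L = c • lp lb := by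
  refine coord_one_gen hL hd _ (inU_lp _ (by simp)) (homL_lp _ _ (by decide))
    (0, -1, 0, 0, 1, 0) (by decide) ?_
  rintro a p q b f g ⟨h1, h2, h3, h4, h5, h6, h7⟩ e1 e2
  simp only [Prod.mk.injEq] at *
  obtain ⟨s3, hs3⟩ : ∃ s, s = p + f := ⟨_, rfl⟩
  obtain ⟨s5, hs5⟩ : ∃ s, s = a + p + f := ⟨_, rfl⟩
  have c3 : 0 ≤ s3 := by omega
  have c5 : 0 ≤ s5 := by omega
  have b1 : f ≤ 1 := by omega
  have b2 : g ≤ 1 - f := by omega
  have b3 : s3 ≤ 1 - f - g := by omega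
  have b5 : s5 ≤ 1 - f - g - s3 := by omega
  interval_cases f <;> interval_cases g <;> interval_cases s3 <;> interval_cases s5 <;>
    first
    | (exfalso; omega)
    | (omega)

theorem coord_a2 {L : Lp 4 2} (hL : InU L) (hd : HomL L (6, -4)) : ∃ c : ℤ, L = c • lp la2 := by
  refine coord_one_gen hL hd _ (inU_lp _ (by simp)) (homL_lp _ _ (by decide))
    (0, 0, -2, 0, 0, 2) (by decide) ?_
  rintro a p q b f g ⟨h1, h2, h3, h4, h5, h6, h7⟩ e1 e2
  simp only [Prod.mk.injEq] at *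
  obtain ⟨s3, hs3⟩ : ∃ s, s = p + f := ⟨_, rfl⟩
  obtain ⟨s5, hs5⟩ : ∃ s, s = a + p + f := ⟨_, rfl⟩
  have c3 : 0 ≤ s3 := by omega
  have c5 : 0 ≤ s5 := by omega
  have b1 : f ≤ 2 := by omega
  have b2 : g ≤ 2 - f := by omega
  have b3 : s3 ≤ 2 - f - g := by omega
  have b5 : s5 ≤ 2 - f - g - s3 := by omega
  interval_cases f <;> interval_cases g <;> interval_cases s3 <;> interval_cases s5 <;>
    first
    | (exfalso; omega)
    | (omega)

theorem coord_b2 {L : Lp 4 2} (hL : InU L) (hd : HomL L (-4, 6)) : ∃ c : ℤ, L = c • lp lb2 := by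
  refine coord_one_gen hL hd _ (inU_lp _ (by simp)) (homL_lp _ _ (by decide))
    (0, -2, 0, 0, 2, 0) (by decide) ?_
  rintro a p q b f g ⟨h1, h2, h3, h4, h5, h6, h7⟩ e1 e2
  simp only [Prod.mk.injEq] at *
  obtain ⟨s3, hs3⟩ : ∃ s, s = p + f := ⟨_, rfl⟩
  obtain ⟨s5, hs5⟩ : ∃ s, s = a + p + f := ⟨_, rfl⟩
  have c3 : 0 ≤ s3 := by omega
  have c5 : 0 ≤ s5 := by omega
  have b1 : f ≤ 2 := by omega
  have b2 : g ≤ 2 - f := by omega
  have b3 : s3 ≤ 2 - f - g := by omega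
  have b5 : s5 ≤ 2 - f - g - s3 := by omega
  interval_cases f <;> interval_cases g <;> interval_cases s3 <;> interval_cases s5 <;>
    first
    | (exfalso; omega)
    | (omega)

theorem coord_P {L : Lp 4 2} (hL : InU L) (hd : HomL L (2, 0)) : ∃ c : ℤ, L = c • lp lP := by
  refine coord_one_gen hL hd _ (inU_lp _ (by simp)) (homL_lp _ _ (by decide))
    (0, 1, 0, 0, 0, 0) (by decide) ?_
  rintro a p q b f g ⟨h1, h2, h3, h4, h5, h6, h7⟩ e1 e2
  simp only [Prod.mk.injEq] at *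
  obtain ⟨s3, hs3⟩ : ∃ s, s = p + f := ⟨_, rfl⟩
  obtain ⟨s5, hs5⟩ : ∃ s, s = a + p + f := ⟨_, rfl⟩
  have c3 : 0 ≤ s3 := by omega
  have c5 : 0 ≤ s5 := by omega
  have b1 : f ≤ 2 := by omega
  have b2 : g ≤ 2 - f := by omega
  have b3 : s3 ≤ 2 - f - g := by omega
  have b5 : s5 ≤ 2 - f - g - s3 := by omega
  interval_cases f <;> interval_cases g <;> interval_cases s3 <;> interval_cases s5 <;>
    first
    | (exfalso; omega)
    | (omega)

theorem coord_Q {L : Lp 4 2} (hL : InU L) (hd : HomL L (0, 2)) : ∃ c : ℤ, L = c • lp lQ := by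
  refine coord_one_gen hL hd _ (inU_lp _ (by simp)) (homL_lp _ _ (by decide))
    (0, 0, 1, 0, 0, 0) (by decide) ?_
  rintro a p q b f g ⟨h1, h2, h3, h4, h5, h6, h7⟩ e1 e2
  simp only [Prod.mk.injEq] at *
  obtain ⟨s3, hs3⟩ : ∃ s, s = p + f := ⟨_, rfl⟩
  obtain ⟨s5, hs5⟩ : ∃ s, s = a + p + f := ⟨_, rfl⟩
  have c3 : 0 ≤ s3 := by omega
  have c5 : 0 ≤ s5 := by omega
  have b1 : f ≤ 2 := by omega
  have b2 : g ≤ 2 - f := by omega
  have b3 : s3 ≤ 2 - f - g := by omega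
  have b5 : s5 ≤ 2 - f - g - s3 := by omega
  interval_cases f <;> interval_cases g <;> interval_cases s3 <;> interval_cases s5 <;>
    first
    | (exfalso; omega)
    | (omega)

theorem coord_11 {L : Lp 4 2} (hL : InU L) (hd : HomL L (1, 1)) :
    L = L.coeff (E (0, -1, -1, 0, 1, 1)) • lp leta + L.coeff (E (1, 0, 1, -1, 0, 0)) • lp letap := by
  have i1 : InU (lp leta) := inU_lp _ (by simp)
  have i2 : InU (lp letap) := inU_lp _ (by simp)
  have d1 : HomL (lp leta) (1, 1) := homL_lp _ _ (by decide)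
  have d2 : HomL (lp letap) (1, 1) := homL_lp _ _ (by decide)
  rw [← sub_eq_zero]
  apply eq_zero_of_cand (hL.sub ((i1.smul _).add (i2.smul _)))
    (hd.sub ((d1.smul _).add (d2.smul _)))
  rintro a p q b f g ⟨h1, h2, h3, h4, h5, h6, h7⟩ e1 e2
  have hc : (a, p, q, b, f, g) = (0, -1, -1, 0, 1, 1) ∨
      (a, p, q, b, f, g) = (1, 0, 1, -1, 0, 0) := by
    simp only [Prod.mk.injEq] at *
    obtain ⟨s3, hs3⟩ : ∃ s, s = p + f := ⟨_, rfl⟩
    obtain ⟨s5, hs5⟩ : ∃ s, s = a + p + f := ⟨_, rfl⟩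
    have c3 : 0 ≤ s3 := by omega
    have c5 : 0 ≤ s5 := by omega
    have b1 : f ≤ 2 := by omega
    have b2 : g ≤ 2 - f := by omega
    have b3 : s3 ≤ 2 - f - g := by omega
    have b5 : s5 ≤ 2 - f - g - s3 := by omega
    interval_cases f <;> interval_cases g <;> interval_cases s3 <;> interval_cases s5 <;>
      first
      | (exfalso; omega)
      | (left; omega)
      | (right; omega)
  rcases hc with hc | hc
  · rw [hc]
    simp only [AddMonoidAlgebra.coeff_sub, AddMonoidAlgebra.coeff_add, Finsupp.sub_apply,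
      Finsupp.add_apply, coeff_smul_lp]
    have c1 : cf leta (0, -1, -1, 0, 1, 1) = 1 := by decide
    have c2 : cf letap (0, -1, -1, 0, 1, 1) = 0 := by decide
    rw [c1, c2]; ring
  · rw [hc]
    simp only [AddMonoidAlgebra.coeff_sub, AddMonoidAlgebra.coeff_add, Finsupp.sub_apply,
      Finsupp.add_apply, coeff_smul_lp]
    have c1 : cf leta (1, 0, 1, -1, 0, 0) = 0 := by decide
    have c2 : cf letap (1, 0, 1, -1, 0, 0) = 1 := by decide
    rw [c1, c2]; ring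

theorem coord_three_gen {L : Lp 4 2} (hL : InU L) {d : ℤ × ℤ} (hd : HomL L d)
    (l₁ l₂ l₃ : List Term)
    (i₁ : InU (lp l₁)) (i₂ : InU (lp l₂)) (i₃ : InU (lp l₃))
    (d₁ : HomL (lp l₁) d) (d₂ : HomL (lp l₂) d) (d₃ : HomL (lp l₃) d)
    (k₁ k₂ k₃ : ℤ × ℤ × ℤ × ℤ × ℤ × ℤ)
    (c11 : cf l₁ k₁ = 1) (c12 : cf l₁ k₂ = 0) (c13 : cf l₁ k₃ = 0)
    (c21 : cf l₂ k₁ = 0) (c22 : cf l₂ k₂ = 1) (c23 : cf l₂ k₃ = 0)
    (c31 : cf l₃ k₁ = 0) (c32 : cf l₃ k₂ = 0) (c33 : cf l₃ k₃ = 1)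
    (h : ∀ a p q b f g : ℤ, K7 a p q b f g → 2 * a + 2 * p + b + 3 * g = d.1 →
      a + 2 * q + 2 * b + 3 * f = d.2 →
      (a, p, q, b, f, g) = k₁ ∨ (a, p, q, b, f, g) = k₂ ∨ (a, p, q, b, f, g) = k₃) :
    L = L.coeff (E k₁) • lp l₁ + L.coeff (E k₂) • lp l₂ + L.coeff (E k₃) • lp l₃ := by
  rw [← sub_eq_zero]
  apply eq_zero_of_cand (hL.sub (((i₁.smul _).add (i₂.smul _)).add (i₃.smul _)))
    (hd.sub (((d₁.smul _).add (d₂.smul _)).add (d₃.smul _)))
  intro a p q b f g h1 h2 h3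
  rcases h a p q b f g h1 h2 h3 with hc | hc | hc
  · rw [hc]
    simp only [AddMonoidAlgebra.coeff_sub, AddMonoidAlgebra.coeff_add, Finsupp.sub_apply,
      Finsupp.add_apply, coeff_smul_lp, c11, c21, c31]
    ring
  · rw [hc]
    simp only [AddMonoidAlgebra.coeff_sub, AddMonoidAlgebra.coeff_add, Finsupp.sub_apply,
      Finsupp.add_apply, coeff_smul_lp, c12, c22, c32]
    ring
  · rw [hc]
    simp only [AddMonoidAlgebra.coeff_sub, AddMonoidAlgebra.coeff_add, Finsupp.sub_apply,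
      Finsupp.add_apply, coeff_smul_lp, c13, c23, c33]
    ring

theorem coord_41 {L : Lp 4 2} (hL : InU L) (hd : HomL L (4, -1)) :
    L = L.coeff (E (0, -1, -2, 0, 1, 2)) • lp lz1 + L.coeff (E (1, 0, 0, -1, 0, 1)) • lp lX +
      L.coeff (E (3, 0, 0, -2, 0, 0)) • lp lz3 := by
  apply coord_three_gen hL hd lz1 lX lz3 (inU_lp _ (by simp)) (inU_lp _ (by simp))
    (inU_lp _ (by simp)) (homL_lp _ _ (by decide)) (homL_lp _ _ (by decide))
    (homL_lp _ _ (by decide)) _ _ _ (by decide) (by decide) (by decide) (by decide) (by decide)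
    (by decide) (by decide) (by decide) (by decide)
  rintro a p q b f g ⟨h1, h2, h3, h4, h5, h6, h7⟩ e1 e2
  simp only [Prod.mk.injEq] at *
  obtain ⟨s3, hs3⟩ : ∃ s, s = p + f := ⟨_, rfl⟩
  obtain ⟨s5, hs5⟩ : ∃ s, s = a + p + f := ⟨_, rfl⟩
  have c3 : 0 ≤ s3 := by omega
  have c5 : 0 ≤ s5 := by omega
  have b1 : f ≤ 3 := by omega
  have b2 : g ≤ 3 - f := by omega
  have b3 : s3 ≤ 3 - f - g := by omega
  have b5 : s5 ≤ 3 - f - g - s3 := by omega
  interval_cases f <;> interval_cases g <;> interval_cases s3 <;> interval_cases s5 <;>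
    first
    | (exfalso; omega)
    | (left; omega)
    | (right; left; omega)
    | (right; right; omega)

theorem coord_14 {L : Lp 4 2} (hL : InU L) (hd : HomL L (-1, 4)) :
    L = L.coeff (E (0, -2, -1, 0, 2, 1)) • lp lz2 + L.coeff (E (1, -1, 1, -1, 1, 0)) • lp lY +
      L.coeff (E (0, 0, 3, -1, 0, 0)) • lp lz4 := by
  apply coord_three_gen hL hd lz2 lY lz4 (inU_lp _ (by simp)) (inU_lp _ (by simp))
    (inU_lp _ (by simp)) (homL_lp _ _ (by decide)) (homL_lp _ _ (by decide))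
    (homL_lp _ _ (by decide)) _ _ _ (by decide) (by decide) (by decide) (by decide) (by decide)
    (by decide) (by decide) (by decide) (by decide)
  rintro a p q b f g ⟨h1, h2, h3, h4, h5, h6, h7⟩ e1 e2
  simp only [Prod.mk.injEq] at *
  obtain ⟨s3, hs3⟩ : ∃ s, s = p + f := ⟨_, rfl⟩
  obtain ⟨s5, hs5⟩ : ∃ s, s = a + p + f := ⟨_, rfl⟩
  have c3 : 0 ≤ s3 := by omega
  have c5 : 0 ≤ s5 := by omega
  have b1 : f ≤ 3 := by omega
  have b2 : g ≤ 3 - f := by omega
  have b3 : s3 ≤ 3 - f - g := by omega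
  have b5 : s5 ≤ 3 - f - g - s3 := by omega
  interval_cases f <;> interval_cases g <;> interval_cases s3 <;> interval_cases s5 <;>
    first
    | (exfalso; omega)
    | (left; omega)
    | (right; left; omega)
    | (right; right; omega)

/-- The six candidate exponents of bidegree `(2, 2)`. -/
lemma cand22 (a p q b f g : ℤ) (h : K7 a p q b f g) (e1 : 2 * a + 2 * p + b + 3 * g = 2)
    (e2 : a + 2 * q + 2 * b + 3 * f = 2) :
    (a, p, q, b, f, g) = (0, -2, -2, 0, 2, 2) ∨ (a, p, q, b, f, g) = (1, -1, 0, -1, 1, 1) ∨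
    (a, p, q, b, f, g) = (3, -1, 0, -2, 1, 0) ∨ (a, p, q, b, f, g) = (0, 0, 2, -1, 0, 1) ∨
    (a, p, q, b, f, g) = (2, 0, 2, -2, 0, 0) ∨ (a, p, q, b, f, g) = (0, 1, 1, 0, 0, 0) := by
  obtain ⟨h1, h2, h3, h4, h5, h6, h7⟩ := h
  simp only [Prod.mk.injEq]
  obtain ⟨s3, hs3⟩ : ∃ s, s = p + f := ⟨_, rfl⟩
  obtain ⟨s5, hs5⟩ : ∃ s, s = a + p + f := ⟨_, rfl⟩
  have c3 : 0 ≤ s3 := by omega
  have c5 : 0 ≤ s5 := by omega
  have b1 : f ≤ 4 := by omega
  have b2 : g ≤ 4 - f := by omega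
  have b3 : s3 ≤ 4 - f - g := by omega
  have b5 : s5 ≤ 4 - f - g - s3 := by omega
  interval_cases f <;> interval_cases g <;> interval_cases s3 <;> interval_cases s5 <;>
    first
    | (exfalso; omega)
    | (left; omega)
    | (right; left; omega)
    | (right; right; left; omega)
    | (right; right; right; left; omega)
    | (right; right; right; right; left; omega)
    | (right; right; right; right; right; omega)

theorem coord_22 {L : Lp 4 2} (hL : InU L) (hd : HomL L (2, 2)) :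
    L = L.coeff (E (0, -2, -2, 0, 2, 2)) • lp lal + L.coeff (E (1, -1, 0, -1, 1, 1)) • lp lka +
      L.coeff (E (3, -1, 0, -2, 1, 0)) • lp lga + L.coeff (E (0, 0, 2, -1, 0, 1)) • lp lbe +
      L.coeff (E (2, 0, 2, -2, 0, 0)) • lp lde + L.coeff (E (0, 1, 1, 0, 0, 0)) • lp lPQ := by
  have i1 : InU (lp lal) := inU_lp _ (by simp)
  have i2 : InU (lp lka) := inU_lp _ (by simp)
  have i3 : InU (lp lga) := inU_lp _ (by simp)
  have i4 : InU (lp lbe) := inU_lp _ (by simp)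
  have i5 : InU (lp lde) := inU_lp _ (by simp)
  have i6 : InU (lp lPQ) := inU_lp _ (by simp)
  have d1 : HomL (lp lal) (2, 2) := homL_lp _ _ (by decide)
  have d2 : HomL (lp lka) (2, 2) := homL_lp _ _ (by decide)
  have d3 : HomL (lp lga) (2, 2) := homL_lp _ _ (by decide)
  have d4 : HomL (lp lbe) (2, 2) := homL_lp _ _ (by decide)
  have d5 : HomL (lp lde) (2, 2) := homL_lp _ _ (by decide)
  have d6 : HomL (lp lPQ) (2, 2) := homL_lp _ _ (by decide)
  rw [← sub_eq_zero]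
  apply eq_zero_of_cand (hL.sub ((((((i1.smul _).add (i2.smul _)).add (i3.smul _)).add
    (i4.smul _)).add (i5.smul _)).add (i6.smul _)))
    (hd.sub ((((((d1.smul _).add (d2.smul _)).add (d3.smul _)).add
    (d4.smul _)).add (d5.smul _)).add (d6.smul _)))
  intro a p q b f g h e1 e2
  rcases cand22 a p q b f g h e1 e2 with hc | hc | hc | hc | hc | hc
  · rw [hc]
    simp only [AddMonoidAlgebra.coeff_sub, AddMonoidAlgebra.coeff_add, Finsupp.sub_apply,
      Finsupp.add_apply, coeff_smul_lp,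
      show cf lal (0, -2, -2, 0, 2, 2) = 1 from by decide,
      show cf lka (0, -2, -2, 0, 2, 2) = 0 from by decide,
      show cf lga (0, -2, -2, 0, 2, 2) = 0 from by decide,
      show cf lbe (0, -2, -2, 0, 2, 2) = 0 from by decide,
      show cf lde (0, -2, -2, 0, 2, 2) = 0 from by decide,
      show cf lPQ (0, -2, -2, 0, 2, 2) = 0 from by decide]
    ring
  · rw [hc]
    simp only [AddMonoidAlgebra.coeff_sub, AddMonoidAlgebra.coeff_add, Finsupp.sub_apply,
      Finsupp.add_apply, coeff_smul_lp,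
      show cf lal (1, -1, 0, -1, 1, 1) = 0 from by decide,
      show cf lka (1, -1, 0, -1, 1, 1) = 1 from by decide,
      show cf lga (1, -1, 0, -1, 1, 1) = 0 from by decide,
      show cf lbe (1, -1, 0, -1, 1, 1) = 0 from by decide,
      show cf lde (1, -1, 0, -1, 1, 1) = 0 from by decide,
      show cf lPQ (1, -1, 0, -1, 1, 1) = 0 from by decide]
    ring
  · rw [hc]
    simp only [AddMonoidAlgebra.coeff_sub, AddMonoidAlgebra.coeff_add, Finsupp.sub_apply,
      Finsupp.add_apply, coeff_smul_lp,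
      show cf lal (3, -1, 0, -2, 1, 0) = 0 from by decide,
      show cf lka (3, -1, 0, -2, 1, 0) = 0 from by decide,
      show cf lga (3, -1, 0, -2, 1, 0) = 1 from by decide,
      show cf lbe (3, -1, 0, -2, 1, 0) = 0 from by decide,
      show cf lde (3, -1, 0, -2, 1, 0) = 0 from by decide,
      show cf lPQ (3, -1, 0, -2, 1, 0) = 0 from by decide]
    ring
  · rw [hc]
    simp only [AddMonoidAlgebra.coeff_sub, AddMonoidAlgebra.coeff_add, Finsupp.sub_apply,
      Finsupp.add_apply, coeff_smul_lp,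
      show cf lal (0, 0, 2, -1, 0, 1) = 0 from by decide,
      show cf lka (0, 0, 2, -1, 0, 1) = 0 from by decide,
      show cf lga (0, 0, 2, -1, 0, 1) = 0 from by decide,
      show cf lbe (0, 0, 2, -1, 0, 1) = 1 from by decide,
      show cf lde (0, 0, 2, -1, 0, 1) = 0 from by decide,
      show cf lPQ (0, 0, 2, -1, 0, 1) = 0 from by decide]
    ring
  · rw [hc]
    simp only [AddMonoidAlgebra.coeff_sub, AddMonoidAlgebra.coeff_add, Finsupp.sub_apply,
      Finsupp.add_apply, coeff_smul_lp,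
      show cf lal (2, 0, 2, -2, 0, 0) = 0 from by decide,
      show cf lka (2, 0, 2, -2, 0, 0) = 0 from by decide,
      show cf lga (2, 0, 2, -2, 0, 0) = 0 from by decide,
      show cf lbe (2, 0, 2, -2, 0, 0) = 0 from by decide,
      show cf lde (2, 0, 2, -2, 0, 0) = 1 from by decide,
      show cf lPQ (2, 0, 2, -2, 0, 0) = 0 from by decide]
    ring
  · rw [hc]
    simp only [AddMonoidAlgebra.coeff_sub, AddMonoidAlgebra.coeff_add, Finsupp.sub_apply,
      Finsupp.add_apply, coeff_smul_lp,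
      show cf lal (0, 1, 1, 0, 0, 0) = 0 from by decide,
      show cf lka (0, 1, 1, 0, 0, 0) = 0 from by decide,
      show cf lga (0, 1, 1, 0, 0, 0) = 0 from by decide,
      show cf lbe (0, 1, 1, 0, 0, 0) = 0 from by decide,
      show cf lde (0, 1, 1, 0, 0, 0) = 0 from by decide,
      show cf lPQ (0, 1, 1, 0, 0, 0) = 1 from by decide]
    ring

end Pool.Agent.LibSP
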