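import Mathlib

/-!
Cluster algebras of geometric type with noninverted coefficient variables.
-/

set_option autoImplicit false

namespace Pool.Agent.LibSP

/-- Index set of an extended cluster: `n` cluster variables and `r` coefficient variables
(so `m = n + r`). -/
abbrev Idx (n r : ℕ) := Fin n ⊕ Fin r

/-- Extended exchange matrices: `(n + r) × n` integer matrices. -/
abbrev EMat (n r : ℕ) := Matrix (Idx n r) (Fin n) ℤ

/-- The top `n × n` part is skew-symmetrizable. -/
def SkewSymmetrizable {n r : ℕ} (B : EMat n r) : Prop :=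
  ∃ d : Fin n → ℤ, (∀ i, 0 < d i) ∧
    ∀ i j, d i * B (Sum.inl i) j = -(d j * B (Sum.inl j) i)

/-- Matrix mutation in direction `k`. -/
def mutMat {n r : ℕ} (B : EMat n r) (k : Fin n) : EMat n r := fun i j =>
  if i = Sum.inl k ∨ j = k then -B i j
  else B i j + (|B i k| * B (Sum.inl k) j + B i k * |B (Sum.inl k) j|) / 2

/-- A seed in a field `K`: an extended cluster and an extended exchange matrix. -/
structure Seed (K : Type) (n r : ℕ) where
  /-- the extended cluster -/
  x : Idx n r → K
  /-- the extended exchange matrix -/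
  B : EMat n r

section

variable {K : Type} [Field K] {n r : ℕ}

/-- The new cluster variable
`(∏ x_i ^ [b_ik]_+ + ∏ x_i ^ [-b_ik]_+) / x_k`. -/
noncomputable def exch (x : Idx n r → K) (B : EMat n r) (k : Fin n) : K :=
  ((∏ i, x i ^ (B i k).toNat) + ∏ i, x i ^ (-(B i k)).toNat) / x (Sum.inl k)

/-- Seed mutation in direction `k`. -/
noncomputable def Seed.mut (s : Seed K n r) (k : Fin n) : Seed K n r :=
  ⟨Function.update s.x (Sum.inl k) (exch s.x s.B k), mutMat s.B k⟩

/-- The seeds reachable from `s₀` by iterated mutation. -/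
inductive Reach (s₀ : Seed K n r) : Seed K n r → Prop
  | refl : Reach s₀ s₀
  | step {s : Seed K n r} (k : Fin n) : Reach s₀ s → Reach s₀ (s.mut k)

/-- The cluster algebra: the subring generated by the cluster variables of all reachable seeds and
the coefficient variables. -/
def clusterAlg (s₀ : Seed K n r) : Subring K :=
  Subring.closure {y | ∃ s, Reach s₀ s ∧ ∃ i, y = s.x i}

/-- Cluster monomials: products of nonnegative powers of the elements of one extended cluster. -/
def IsClusterMonomial (s₀ : Seed K n r) (y : K) : Prop :=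
  ∃ s, Reach s₀ s ∧ ∃ e : Idx n r → ℕ, y = ∏ i, s.x i ^ e i

/-- `C` is a basis of the `ℤ`-module `clusterAlg s₀`, contains all cluster monomials, and has
nonnegative structure constants. -/
structure StronglyPositiveBasis (s₀ : Seed K n r) (C : Set K) : Prop where
  /-- `C` is linearly independent over `ℤ` -/
  indep : LinearIndependent ℤ (Subtype.val : C → K)
  /-- `C` spans the cluster algebra -/
  span : ∀ y, y ∈ Submodule.span ℤ C ↔ y ∈ clusterAlg s₀
  /-- `C` contains every cluster monomial -/
  monomials : ∀ y, IsClusterMonomial s₀ y → y ∈ C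
  /-- products of elements of `C` are combinations of elements of `C` with nonnegative integer
  coefficients -/
  pos : ∀ b ∈ C, ∀ b' ∈ C, ∃ γ : C →₀ ℕ, b * b' = γ.sum fun c a => a • (c : K)

end

/-- The initial seed in the field `ℚ(x_1, …, x_m)` of rational functions. -/
noncomputable def initialSeed {n r : ℕ} (B : EMat n r) :
    Seed (FractionRing (MvPolynomial (Idx n r) ℚ)) n r :=
  ⟨fun i => algebraMap (MvPolynomial (Idx n r) ℚ) _ (MvPolynomial.X i), B⟩

/-- The `6 × 4` exchange matrix of the example. -/
def exB : EMat 4 2 :=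
  Sum.elim ![![0, -1, -2, 2], ![1, 0, 0, -2], ![2, 0, 0, -1], ![-2, 2, 1, 0]]
    ![![0, -1, 0, 0], ![0, 0, 1, 0]]

end Pool.Agent.LibSP
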