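import Pool.Agent.LibSP.Pos
import Pool.Agent.LibSP.Hom

/-!
The example: explicit Laurent polynomials.
-/

set_option autoImplicit false

namespace Pool.Agent.LibSP

open AddMonoidAlgebra

/-- A term: coefficient and exponents of `A, P, Q, B, f, g`. -/
abbrev Term := ℤ × (ℤ × ℤ × ℤ × ℤ × ℤ × ℤ)

/-- The exponent vector. -/
def E (t : ℤ × ℤ × ℤ × ℤ × ℤ × ℤ) : Idx 4 2 → ℤ :=
  Sum.elim ![t.1, t.2.1, t.2.2.1, t.2.2.2.1] ![t.2.2.2.2.1, t.2.2.2.2.2]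

/-- The Laurent polynomial with given terms. -/
noncomputable def lp (l : List Term) : Lp 4 2 := (l.map fun t => single (E t.2) t.1).sum

/-- The coefficient read off from the list. -/
def cf (l : List Term) (e : ℤ × ℤ × ℤ × ℤ × ℤ × ℤ) : ℤ :=
  (l.map fun t => if t.2 = e then t.1 else 0).sum

lemma E_injective : Function.Injective E := by
  rintro ⟨a, p, q, b, f, g⟩ ⟨a', p', q', b', f', g'⟩ h
  have h0 := congrFun h (Sum.inl 0)
  have h1 := congrFun h (Sum.inl 1)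
  have h2 := congrFun h (Sum.inl 2)
  have h3 := congrFun h (Sum.inl 3)
  have h4 := congrFun h (Sum.inr 0)
  have h5 := congrFun h (Sum.inr 1)
  simp only [E, Sum.elim_inl, Sum.elim_inr, Matrix.cons_val_zero, Matrix.cons_val_one,
    Matrix.cons_val] at h0 h1 h2 h3 h4 h5
  simp only [Prod.mk.injEq]
  exact ⟨h0, h1, h2, h3, h4, h5⟩

lemma coeff_lp (l : List Term) (e : ℤ × ℤ × ℤ × ℤ × ℤ × ℤ) : (lp l).coeff (E e) = cf l e := by
  induction l with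
  | nil => simp [lp, cf]
  | cons t l ih =>
    have h1 : lp (t :: l) = single (E t.2) t.1 + lp l := by simp [lp]
    have h2 : cf (t :: l) e = (if t.2 = e then t.1 else 0) + cf l e := by simp [cf]
    rw [h1, h2, coeff_add, Finsupp.add_apply, ih, coeff_single, Finsupp.single_apply]
    by_cases h : t.2 = e
    · simp [h]
    · rw [if_neg h, if_neg (fun h' => h (E_injective h'))]

/-- Every exponent vector is of the form `E e`. -/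
lemma exists_E (m : Idx 4 2 → ℤ) : ∃ e, m = E e := by
  refine ⟨(m (Sum.inl 0), m (Sum.inl 1), m (Sum.inl 2), m (Sum.inl 3), m (Sum.inr 0),
    m (Sum.inr 1)), ?_⟩
  funext i
  rcases i with i | i
  · fin_cases i <;> rfl
  · fin_cases i <;> rfl

lemma ev_lp {K : Type} [Field K] (x : Idx 4 2 → K) (l : List Term) :
    ev x (lp l) = (l.map fun t => (t.1 : K) * (x (Sum.inl 0) ^ t.2.1 * x (Sum.inl 1) ^ t.2.2.1 *
      x (Sum.inl 2) ^ t.2.2.2.1 * x (Sum.inl 3) ^ t.2.2.2.2.1 * x (Sum.inr 0) ^ t.2.2.2.2.2.1 *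
      x (Sum.inr 1) ^ t.2.2.2.2.2.2)).sum := by
  induction l with
  | nil => simp [lp, ev_zero]
  | cons t l ih =>
    have h1 : lp (t :: l) = single (E t.2) t.1 + lp l := by simp [lp]
    have h2 : mono x (E t.2) = x (Sum.inl 0) ^ t.2.1 * x (Sum.inl 1) ^ t.2.2.1 *
      x (Sum.inl 2) ^ t.2.2.2.1 * x (Sum.inl 3) ^ t.2.2.2.2.1 * x (Sum.inr 0) ^ t.2.2.2.2.2.1 *
      x (Sum.inr 1) ^ t.2.2.2.2.2.2 := by
      rw [mono, Fintype.prod_sum_type, Fin.prod_univ_four, Fin.prod_univ_two]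
      simp only [E, Sum.elim_inl, Sum.elim_inr, Matrix.cons_val_zero, Matrix.cons_val_one,
        Matrix.cons_val]
      ring
    rw [h1, ev_add, ih, ev_single, h2, List.map_cons, List.sum_cons]

def lA : List Term := [(1, (1, 0, 0, 0, 0, 0))]
def lP : List Term := [(1, (0, 1, 0, 0, 0, 0))]
def lQ : List Term := [(1, (0, 0, 1, 0, 0, 0))]
def lB : List Term := [(1, (0, 0, 0, 1, 0, 0))]
def la : List Term := [(1, (0, 0, -1, 0, 0, 1)), (1, (0, 2, 0, -1, 0, 0)), (1, (2, 0, -1, -1, 0, 0))]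
def lb : List Term := [(1, (-1, -1, 0, 2, 0, 0)), (1, (-1, 0, 2, 0, 0, 0)), (1, (0, -1, 0, 0, 1, 0))]
def la2 : List Term := [(1, (0, 0, -2, 0, 0, 2)), (2, (0, 2, -1, -1, 0, 1)), (1, (0, 4, 0, -2, 0, 0)), (2, (2, 0, -2, -1, 0, 1)), (2, (2, 2, -1, -2, 0, 0)), (1, (4, 0, -2, -2, 0, 0))]
def lb2 : List Term := [(1, (-2, -2, 0, 4, 0, 0)), (2, (-2, -1, 2, 2, 0, 0)), (1, (-2, 0, 4, 0, 0, 0)), (2, (-1, -2, 0, 2, 1, 0)), (2, (-1, -1, 2, 0, 1, 0)), (1, (0, -2, 0, 0, 2, 0))]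
def leta : List Term := [(1, (-1, -1, -1, 2, 0, 1)), (1, (-1, 0, 1, 0, 0, 1)), (1, (0, -1, -1, 0, 1, 1)), (1, (0, 1, 0, -1, 1, 0)), (1, (1, -1, -1, 1, 0, 0)), (1, (2, -1, -1, -1, 1, 0))]
def letap : List Term := [(1, (-1, 1, 0, 1, 0, 0)), (1, (-1, 2, 2, -1, 0, 0)), (1, (1, 0, 1, -1, 0, 0))]
def lz1 : List Term := [(1, (-1, -1, -2, 2, 0, 2)), (1, (-1, 0, 0, 0, 0, 2)), (1, (0, -1, -2, 0, 1, 2)), (2, (0, 1, -1, -1, 1, 1)), (1, (0, 3, 0, -2, 1, 0)), (2, (1, -1, -2, 1, 0, 1)), (2, (2, -1, -2, -1, 1, 1)), (2, (2, 1, -1, -2, 1, 0)), (1, (3, -1, -2, 0, 0, 0)), (1, (4, -1, -2, -2, 1, 0))]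
def lz3 : List Term := [(1, (-1, 3, 0, 0, 0, 0)), (1, (-1, 4, 2, -2, 0, 0)), (2, (1, 2, 1, -2, 0, 0)), (1, (3, 0, 0, -2, 0, 0))]
def lX : List Term := [(1, (-1, 1, -1, 1, 0, 1)), (1, (-1, 2, 1, -1, 0, 1)), (1, (1, 0, 0, -1, 0, 1)), (1, (1, 1, -1, 0, 0, 0))]
def lz2 : List Term := [(1, (-2, -2, -1, 4, 0, 1)), (2, (-2, -1, 1, 2, 0, 1)), (1, (-2, 0, 3, 0, 0, 1)), (2, (-1, -2, -1, 2, 1, 1)), (2, (-1, -1, 1, 0, 1, 1)), (1, (0, -2, -1, 0, 2, 1)), (1, (0, -2, -1, 3, 0, 0)), (1, (0, 0, 0, -1, 2, 0)), (2, (1, -2, -1, 1, 1, 0)), (1, (2, -2, -1, -1, 2, 0))]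
def lz4 : List Term := [(1, (-2, 0, 0, 3, 0, 0)), (2, (-2, 1, 2, 1, 0, 0)), (1, (-2, 2, 4, -1, 0, 0)), (1, (0, 0, 3, -1, 0, 0))]
def lY : List Term := [(1, (-1, 0, 0, 1, 1, 0)), (1, (-1, 1, 2, -1, 1, 0)), (1, (0, -1, 1, 1, 0, 0)), (1, (1, -1, 1, -1, 1, 0))]
def lal : List Term := [(1, (-2, -2, -2, 4, 0, 2)), (2, (-2, -1, 0, 2, 0, 2)), (1, (-2, 0, 2, 0, 0, 2)), (2, (-1, -2, -2, 2, 1, 2)), (2, (-1, -1, 0, 0, 1, 2)), (1, (0, -2, -2, 0, 2, 2)), (2, (0, -2, -2, 3, 0, 1)), (2, (0, 0, -1, -1, 2, 1)), (1, (0, 2, 0, -2, 2, 0)), (4, (1, -2, -2, 1, 1, 1)), (2, (2, -2, -2, -1, 2, 1)), (1, (2, -2, -2, 2, 0, 0)), (2, (2, 0, -1, -2, 2, 0)), (2, (3, -2, -2, 0, 1, 0)), (1, (4, -2, -2, -2, 2, 0))]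
def lka : List Term := [(1, (-1, 0, -1, 1, 1, 1)), (1, (-1, 1, 1, -1, 1, 1)), (1, (0, -1, 0, 1, 0, 1)), (1, (1, -1, 0, -1, 1, 1)), (1, (1, 0, -1, 0, 1, 0))]
def lga : List Term := [(1, (-1, 2, 0, 0, 1, 0)), (1, (-1, 3, 2, -2, 1, 0)), (2, (1, 1, 1, -2, 1, 0)), (1, (2, -1, 0, 0, 0, 0)), (1, (3, -1, 0, -2, 1, 0))]
def lbe : List Term := [(1, (-2, 0, -1, 3, 0, 1)), (2, (-2, 1, 1, 1, 0, 1)), (1, (-2, 2, 3, -1, 0, 1)), (1, (0, 0, -1, 2, 0, 0)), (1, (0, 0, 2, -1, 0, 1))]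
def lde : List Term := [(1, (-2, 2, 0, 2, 0, 0)), (2, (-2, 3, 2, 0, 0, 0)), (1, (-2, 4, 4, -2, 0, 0)), (2, (0, 2, 3, -2, 0, 0)), (1, (2, 0, 2, -2, 0, 0))]
def lPQ : List Term := [(1, (0, 1, 1, 0, 0, 0))]

/-- The field of rational functions in six variables. -/
abbrev K₀ := FractionRing (MvPolynomial (Idx 4 2) ℚ)

/-- The initial seed of the example. -/
noncomputable def S₀ : Seed K₀ 4 2 := initialSeed exB

lemma exB_skew : SkewSymm exB := by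
  intro i j
  fin_cases i <;> fin_cases j <;> simp [exB]

lemma exB_indep : ColIndep exB := by
  intro c hc
  have h0 := hc (Sum.inl 0)
  have h1 := hc (Sum.inl 1)
  have h2 := hc (Sum.inl 2)
  have h3 := hc (Sum.inl 3)
  have h4 := hc (Sum.inr 0)
  have h5 := hc (Sum.inr 1)
  simp only [exB, Fin.sum_univ_four, Sum.elim_inl, Sum.elim_inr, Matrix.cons_val_zero,
    Matrix.cons_val_one, Matrix.cons_val] at h0 h1 h2 h3 h4 h5
  funext i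
  fin_cases i
  · show c 0 = 0
    omega
  · show c 1 = 0
    omega
  · show c 2 = 0
    omega
  · show c 3 = 0
    omega

theorem good_S₀ : Good S₀ := good_initialSeed exB_skew exB_indep

/-- The bidegrees. -/
def DD : Idx 4 2 → ℤ × ℤ := Sum.elim ![(2, 1), (2, 0), (0, 2), (1, 2)] ![(0, 3), (3, 0)]

lemma DD_balanced (k : Fin 4) : ∑ i, exB i k • DD i = 0 := by
  rw [Fintype.sum_sum_type, Fin.sum_univ_four, Fin.sum_univ_two]
  fin_cases k <;> simp [exB, DD]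

lemma deg_E (a p q b f g : ℤ) :
    deg DD (E (a, p, q, b, f, g)) = (2 * a + 2 * p + b + 3 * g, a + 2 * q + 2 * b + 3 * f) := by
  rw [deg, Fintype.sum_sum_type, Fin.sum_univ_four, Fin.sum_univ_two]
  simp only [E, DD, Sum.elim_inl, Sum.elim_inr, Matrix.cons_val_zero, Matrix.cons_val_one,
    Matrix.cons_val, Prod.smul_mk, Prod.mk_add_mk, smul_eq_mul, Prod.mk.injEq]
  constructor <;> ring

/-- `y` is a cluster variable. -/
def IsClusterVar (y : K₀) : Prop := ∃ s, Reach S₀ s ∧ ∃ k : Fin 4, y = s.x (Sum.inl k)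

end Pool.Agent.LibSP
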