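import Pool.Agent.LibSP.ExA

/-!
Six explicit cluster variables.
-/

set_option autoImplicit false

namespace Pool.Agent.LibSP

open AddMonoidAlgebra

/-! ### The mutated exchange matrices -/

def MQ : EMat 4 2 := Sum.elim ![![0, -1, 2, 0], ![1, 0, 0, -2], ![-2, 0, 0, 1], ![0, 2, -1, 0]] ![![0, -1, 0, 0], ![2, 0, -1, 0]]

def MP : EMat 4 2 := Sum.elim ![![0, 1, -2, 0], ![-1, 0, 0, 2], ![2, 0, 0, -1], ![0, -2, 1, 0]] ![![0, 1, 0, -2], ![0, 0, 1, 0]]

def MB : EMat 4 2 := Sum.elim ![![0, 3, 0, -2], ![-3, 0, 0, 2], ![0, 0, 0, 1], ![2, -2, -1, 0]] ![![0, -1, 0, 0], ![0, 0, 1, 0]]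

def MA : EMat 4 2 := Sum.elim ![![0, 1, 2, -2], ![-1, 0, 0, 0], ![-2, 0, 0, 3], ![2, 0, -3, 0]] ![![0, -1, 0, 0], ![0, 0, 1, 0]]

def MQA : EMat 4 2 := Sum.elim ![![0, 1, -2, 0], ![-1, 0, 2, -2], ![2, -2, 0, 1], ![0, 2, -1, 0]] ![![0, -1, 0, 0], ![-2, 0, 3, 0]]

def MQAB : EMat 4 2 := Sum.elim ![![0, 1, -2, 0], ![-1, 0, 0, 2], ![2, 0, 0, -1], ![0, -2, 1, 0]] ![![0, -1, 0, 0], ![-2, 0, 3, 0]]

def MPB : EMat 4 2 := Sum.elim ![![0, 1, -2, 0], ![-1, 0, 2, -2], ![2, -2, 0, 1], ![0, 2, -1, 0]] ![![0, -3, 0, 2], ![0, 0, 1, 0]]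

def MPBA : EMat 4 2 := Sum.elim ![![0, -1, 2, 0], ![1, 0, 0, -2], ![-2, 0, 0, 1], ![0, 2, -1, 0]] ![![0, -3, 0, 2], ![0, 0, 1, 0]]

lemma mm_Q : mutMat exB 2 = MQ := by
  funext i j
  rcases i with i | i <;> fin_cases i <;> fin_cases j <;> rfl

lemma mm_P : mutMat exB 1 = MP := by
  funext i j
  rcases i with i | i <;> fin_cases i <;> fin_cases j <;> rfl

lemma mm_B : mutMat exB 3 = MB := by
  funext i j
  rcases i with i | i <;> fin_cases i <;> fin_cases j <;> rfl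

lemma mm_A : mutMat exB 0 = MA := by
  funext i j
  rcases i with i | i <;> fin_cases i <;> fin_cases j <;> rfl

lemma mm_QA : mutMat MQ 0 = MQA := by
  funext i j
  rcases i with i | i <;> fin_cases i <;> fin_cases j <;> rfl

lemma mm_QAB : mutMat MQA 3 = MQAB := by
  funext i j
  rcases i with i | i <;> fin_cases i <;> fin_cases j <;> rfl

lemma mm_PB : mutMat MP 3 = MPB := by
  funext i j
  rcases i with i | i <;> fin_cases i <;> fin_cases j <;> rfl

lemma mm_PBA : mutMat MPB 0 = MPBA := by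
  funext i j
  rcases i with i | i <;> fin_cases i <;> fin_cases j <;> rfl

/-! ### Explicit seeds -/

/-- The seed with given cluster and matrix. -/
def sd (A P Q B f g : K₀) (M : EMat 4 2) : Seed K₀ 4 2 := ⟨Sum.elim ![A, P, Q, B] ![f, g], M⟩

lemma mut_sd0 (A P Q B f g : K₀) (M : EMat 4 2) :
    (sd A P Q B f g M).mut 0 = sd (exch (Sum.elim ![A, P, Q, B] ![f, g]) M 0) P Q B f g
      (mutMat M 0) := by
  simp only [Seed.mut, sd, Seed.mk.injEq, and_true]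
  funext i
  rcases i with i | i
  · fin_cases i <;> simp [Function.update]
  · fin_cases i <;> simp [Function.update]

lemma mut_sd1 (A P Q B f g : K₀) (M : EMat 4 2) :
    (sd A P Q B f g M).mut 1 = sd A (exch (Sum.elim ![A, P, Q, B] ![f, g]) M 1) Q B f g
      (mutMat M 1) := by
  simp only [Seed.mut, sd, Seed.mk.injEq, and_true]
  funext i
  rcases i with i | i
  · fin_cases i <;> simp [Function.update]
  · fin_cases i <;> simp [Function.update]

lemma mut_sd2 (A P Q B f g : K₀) (M : EMat 4 2) :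
    (sd A P Q B f g M).mut 2 = sd A P (exch (Sum.elim ![A, P, Q, B] ![f, g]) M 2) B f g
      (mutMat M 2) := by
  simp only [Seed.mut, sd, Seed.mk.injEq, and_true]
  funext i
  rcases i with i | i
  · fin_cases i <;> simp [Function.update]
  · fin_cases i <;> simp [Function.update]

lemma mut_sd3 (A P Q B f g : K₀) (M : EMat 4 2) :
    (sd A P Q B f g M).mut 3 = sd A P Q (exch (Sum.elim ![A, P, Q, B] ![f, g]) M 3) f g
      (mutMat M 3) := by
  simp only [Seed.mut, sd, Seed.mk.injEq, and_true]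
  funext i
  rcases i with i | i
  · fin_cases i <;> simp [Function.update]
  · fin_cases i <;> simp [Function.update]

lemma S₀_eq : S₀ = sd (S₀.x (Sum.inl 0)) (S₀.x (Sum.inl 1)) (S₀.x (Sum.inl 2)) (S₀.x (Sum.inl 3))
    (S₀.x (Sum.inr 0)) (S₀.x (Sum.inr 1)) exB := by
  have h : S₀.x = Sum.elim ![S₀.x (Sum.inl 0), S₀.x (Sum.inl 1), S₀.x (Sum.inl 2),
      S₀.x (Sum.inl 3)] ![S₀.x (Sum.inr 0), S₀.x (Sum.inr 1)] := by
    funext i
    rcases i with i | i
    · fin_cases i <;> rfl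
    · fin_cases i <;> rfl
  rw [sd, ← h]
  rfl

theorem cv_a : IsClusterVar (ev S₀.x (lp la)) := by
  refine ⟨(S₀.mut 2).mut 3, (Reach.refl.step 2).step 3, 3, ?_⟩
  have hA := ne_zero_of_ai good_S₀.ai (Sum.inl 0)
  have hP := ne_zero_of_ai good_S₀.ai (Sum.inl 1)
  have hQ := ne_zero_of_ai good_S₀.ai (Sum.inl 2)
  have hB := ne_zero_of_ai good_S₀.ai (Sum.inl 3)
  rw [ev_lp]
  have h := S₀_eq
  generalize S₀.x (Sum.inl 0) = A at *
  generalize S₀.x (Sum.inl 1) = P at *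
  generalize S₀.x (Sum.inl 2) = Q at *
  generalize S₀.x (Sum.inl 3) = B at *
  generalize S₀.x (Sum.inr 0) = f at *
  generalize S₀.x (Sum.inr 1) = g at *
  rw [h, mut_sd2, mm_Q, mut_sd3]
  simp [sd, la, exch, exB, MQ, Fintype.prod_sum_type, Fin.prod_univ_four, Fin.prod_univ_two]
  field_simp
  ring

theorem cv_b : IsClusterVar (ev S₀.x (lp lb)) := by
  refine ⟨(S₀.mut 1).mut 0, (Reach.refl.step 1).step 0, 0, ?_⟩
  have hA := ne_zero_of_ai good_S₀.ai (Sum.inl 0)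
  have hP := ne_zero_of_ai good_S₀.ai (Sum.inl 1)
  have hQ := ne_zero_of_ai good_S₀.ai (Sum.inl 2)
  have hB := ne_zero_of_ai good_S₀.ai (Sum.inl 3)
  rw [ev_lp]
  have h := S₀_eq
  generalize S₀.x (Sum.inl 0) = A at *
  generalize S₀.x (Sum.inl 1) = P at *
  generalize S₀.x (Sum.inl 2) = Q at *
  generalize S₀.x (Sum.inl 3) = B at *
  generalize S₀.x (Sum.inr 0) = f at *
  generalize S₀.x (Sum.inr 1) = g at *
  rw [h, mut_sd1, mm_P, mut_sd0]
  simp [sd, lb, exch, exB, MP, Fintype.prod_sum_type, Fin.prod_univ_four, Fin.prod_univ_two]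
  field_simp
  ring

theorem cv_z3 : IsClusterVar (ev S₀.x (lp lz3)) := by
  refine ⟨(S₀.mut 3).mut 0, (Reach.refl.step 3).step 0, 0, ?_⟩
  have hA := ne_zero_of_ai good_S₀.ai (Sum.inl 0)
  have hP := ne_zero_of_ai good_S₀.ai (Sum.inl 1)
  have hQ := ne_zero_of_ai good_S₀.ai (Sum.inl 2)
  have hB := ne_zero_of_ai good_S₀.ai (Sum.inl 3)
  rw [ev_lp]
  have h := S₀_eq
  generalize S₀.x (Sum.inl 0) = A at *
  generalize S₀.x (Sum.inl 1) = P at *
  generalize S₀.x (Sum.inl 2) = Q at *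
  generalize S₀.x (Sum.inl 3) = B at *
  generalize S₀.x (Sum.inr 0) = f at *
  generalize S₀.x (Sum.inr 1) = g at *
  rw [h, mut_sd3, mm_B, mut_sd0]
  simp [sd, lz3, exch, exB, MB, Fintype.prod_sum_type, Fin.prod_univ_four, Fin.prod_univ_two]
  field_simp
  ring

theorem cv_z4 : IsClusterVar (ev S₀.x (lp lz4)) := by
  refine ⟨(S₀.mut 0).mut 3, (Reach.refl.step 0).step 3, 3, ?_⟩
  have hA := ne_zero_of_ai good_S₀.ai (Sum.inl 0)
  have hP := ne_zero_of_ai good_S₀.ai (Sum.inl 1)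
  have hQ := ne_zero_of_ai good_S₀.ai (Sum.inl 2)
  have hB := ne_zero_of_ai good_S₀.ai (Sum.inl 3)
  rw [ev_lp]
  have h := S₀_eq
  generalize S₀.x (Sum.inl 0) = A at *
  generalize S₀.x (Sum.inl 1) = P at *
  generalize S₀.x (Sum.inl 2) = Q at *
  generalize S₀.x (Sum.inl 3) = B at *
  generalize S₀.x (Sum.inr 0) = f at *
  generalize S₀.x (Sum.inr 1) = g at *
  rw [h, mut_sd0, mm_A, mut_sd3]
  simp [sd, lz4, exch, exB, MA, Fintype.prod_sum_type, Fin.prod_univ_four, Fin.prod_univ_two]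
  field_simp
  ring

theorem cv_z1 : IsClusterVar (ev S₀.x (lp lz1)) := by
  refine ⟨(((S₀.mut 2).mut 0).mut 3).mut 1, (((Reach.refl.step 2).step 0).step 3).step 1, 1, ?_⟩
  have hA := ne_zero_of_ai good_S₀.ai (Sum.inl 0)
  have hP := ne_zero_of_ai good_S₀.ai (Sum.inl 1)
  have hQ := ne_zero_of_ai good_S₀.ai (Sum.inl 2)
  have hB := ne_zero_of_ai good_S₀.ai (Sum.inl 3)
  rw [ev_lp]
  have h := S₀_eq
  generalize S₀.x (Sum.inl 0) = A at *
  generalize S₀.x (Sum.inl 1) = P at *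
  generalize S₀.x (Sum.inl 2) = Q at *
  generalize S₀.x (Sum.inl 3) = B at *
  generalize S₀.x (Sum.inr 0) = f at *
  generalize S₀.x (Sum.inr 1) = g at *
  rw [h, mut_sd2, mm_Q, mut_sd0, mm_QA, mut_sd3, mm_QAB, mut_sd1]
  simp [sd, lz1, exch, exB, MQ, MQA, MQAB, Fintype.prod_sum_type, Fin.prod_univ_four, Fin.prod_univ_two]
  field_simp
  ring

theorem cv_z2 : IsClusterVar (ev S₀.x (lp lz2)) := by
  refine ⟨(((S₀.mut 1).mut 3).mut 0).mut 2, (((Reach.refl.step 1).step 3).step 0).step 2, 2, ?_⟩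
  have hA := ne_zero_of_ai good_S₀.ai (Sum.inl 0)
  have hP := ne_zero_of_ai good_S₀.ai (Sum.inl 1)
  have hQ := ne_zero_of_ai good_S₀.ai (Sum.inl 2)
  have hB := ne_zero_of_ai good_S₀.ai (Sum.inl 3)
  rw [ev_lp]
  have h := S₀_eq
  generalize S₀.x (Sum.inl 0) = A at *
  generalize S₀.x (Sum.inl 1) = P at *
  generalize S₀.x (Sum.inl 2) = Q at *
  generalize S₀.x (Sum.inl 3) = B at *
  generalize S₀.x (Sum.inr 0) = f at *
  generalize S₀.x (Sum.inr 1) = g at *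
  rw [h, mut_sd1, mm_P, mut_sd3, mm_PB, mut_sd0, mm_PBA, mut_sd2]
  simp [sd, lz2, exch, exB, MP, MPB, MPBA, Fintype.prod_sum_type, Fin.prod_univ_four, Fin.prod_univ_two]
  field_simp
  ring

end Pool.Agent.LibSP
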