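import Pool.Agent.LibSP.ExA

/-!
Identities between the explicit Laurent polynomials.
-/

set_option autoImplicit false
set_option linter.unusedSimpArgs false

namespace Pool.Agent.LibSP

open AddMonoidAlgebra


/-- Evaluation of a list at generic values, with names for the six variables. -/
theorem ev_lp' (l : List Term) : ev S₀.x (lp l) = (l.map fun t => (t.1 : K₀) *
    (S₀.x (Sum.inl 0) ^ t.2.1 * S₀.x (Sum.inl 1) ^ t.2.2.1 *
      S₀.x (Sum.inl 2) ^ t.2.2.2.1 * S₀.x (Sum.inl 3) ^ t.2.2.2.2.1 * S₀.x (Sum.inr 0) ^ t.2.2.2.2.2.1 *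
      S₀.x (Sum.inr 1) ^ t.2.2.2.2.2.2)).sum := ev_lp _ _

theorem nz (i : Idx 4 2) : S₀.x i ≠ 0 := ne_zero_of_ai good_S₀.ai i

theorem ev_nsmul (x : Idx 4 2 → K₀) (k : ℕ) (L : Lp 4 2) : ev x (k • L) = (k : K₀) * ev x L := by
  have := ev_smul x (k : ℤ) L
  rw [natCast_zsmul] at this
  rw [this]
  push_cast
  rfl

/-! ### Identities between the explicit Laurent polynomials -/

theorem id_p1 : lp la * lp lz2 = lp lal + lp lbe + 2 • lp lka := by
  apply ev_injective good_S₀.ai
  simp only [ev_mul nz, ev_add, ev_nsmul, ev_lp', la, lz2, lal, lbe, lka, List.map_cons, List.map_nil, List.sum_cons,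
    List.sum_nil]
  have h0 := nz (Sum.inl 0)
  have h1 := nz (Sum.inl 1)
  have h2 := nz (Sum.inl 2)
  have h3 := nz (Sum.inl 3)
  have h4 := nz (Sum.inr 0)
  have h5 := nz (Sum.inr 1)
  generalize S₀.x (Sum.inl 0) = A at *
  generalize S₀.x (Sum.inl 1) = P at *
  generalize S₀.x (Sum.inl 2) = Q at *
  generalize S₀.x (Sum.inl 3) = B at *
  generalize S₀.x (Sum.inr 0) = f at *
  generalize S₀.x (Sum.inr 1) = g at *
  push_cast
  field_simp
  ring

theorem id_p2 : lp lb * lp lz1 = lp lal + lp lga + 2 • lp lka := by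
  apply ev_injective good_S₀.ai
  simp only [ev_mul nz, ev_add, ev_nsmul, ev_lp', lb, lz1, lal, lga, lka, List.map_cons, List.map_nil, List.sum_cons,
    List.sum_nil]
  have h0 := nz (Sum.inl 0)
  have h1 := nz (Sum.inl 1)
  have h2 := nz (Sum.inl 2)
  have h3 := nz (Sum.inl 3)
  have h4 := nz (Sum.inr 0)
  have h5 := nz (Sum.inr 1)
  generalize S₀.x (Sum.inl 0) = A at *
  generalize S₀.x (Sum.inl 1) = P at *
  generalize S₀.x (Sum.inl 2) = Q at *
  generalize S₀.x (Sum.inl 3) = B at *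
  generalize S₀.x (Sum.inr 0) = f at *
  generalize S₀.x (Sum.inr 1) = g at *
  push_cast
  field_simp
  ring

theorem id_p3 : lp la * lp lz4 = lp lbe + lp lde + 2 • lp lPQ := by
  apply ev_injective good_S₀.ai
  simp only [ev_mul nz, ev_add, ev_nsmul, ev_lp', la, lz4, lbe, lde, lPQ, List.map_cons, List.map_nil, List.sum_cons,
    List.sum_nil]
  have h0 := nz (Sum.inl 0)
  have h1 := nz (Sum.inl 1)
  have h2 := nz (Sum.inl 2)
  have h3 := nz (Sum.inl 3)
  have h4 := nz (Sum.inr 0)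
  have h5 := nz (Sum.inr 1)
  generalize S₀.x (Sum.inl 0) = A at *
  generalize S₀.x (Sum.inl 1) = P at *
  generalize S₀.x (Sum.inl 2) = Q at *
  generalize S₀.x (Sum.inl 3) = B at *
  generalize S₀.x (Sum.inr 0) = f at *
  generalize S₀.x (Sum.inr 1) = g at *
  push_cast
  field_simp
  ring

theorem id_p4 : lp lb * lp lz3 = lp lga + lp lde + 2 • lp lPQ := by
  apply ev_injective good_S₀.ai
  simp only [ev_mul nz, ev_add, ev_nsmul, ev_lp', lb, lz3, lga, lde, lPQ, List.map_cons, List.map_nil, List.sum_cons,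
    List.sum_nil]
  have h0 := nz (Sum.inl 0)
  have h1 := nz (Sum.inl 1)
  have h2 := nz (Sum.inl 2)
  have h3 := nz (Sum.inl 3)
  have h4 := nz (Sum.inr 0)
  have h5 := nz (Sum.inr 1)
  generalize S₀.x (Sum.inl 0) = A at *
  generalize S₀.x (Sum.inl 1) = P at *
  generalize S₀.x (Sum.inl 2) = Q at *
  generalize S₀.x (Sum.inl 3) = B at *
  generalize S₀.x (Sum.inr 0) = f at *
  generalize S₀.x (Sum.inr 1) = g at *
  push_cast
  field_simp
  ring

theorem id_ab : lp la * lp lb = lp leta + lp letap := by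
  apply ev_injective good_S₀.ai
  simp only [ev_mul nz, ev_add, ev_nsmul, ev_lp', la, lb, leta, letap, List.map_cons, List.map_nil, List.sum_cons,
    List.sum_nil]
  have h0 := nz (Sum.inl 0)
  have h1 := nz (Sum.inl 1)
  have h2 := nz (Sum.inl 2)
  have h3 := nz (Sum.inl 3)
  have h4 := nz (Sum.inr 0)
  have h5 := nz (Sum.inr 1)
  generalize S₀.x (Sum.inl 0) = A at *
  generalize S₀.x (Sum.inl 1) = P at *
  generalize S₀.x (Sum.inl 2) = Q at *
  generalize S₀.x (Sum.inl 3) = B at *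
  generalize S₀.x (Sum.inr 0) = f at *
  generalize S₀.x (Sum.inr 1) = g at *
  push_cast
  field_simp
  ring

theorem id_a2 : lp la * lp la = lp la2 := by
  apply ev_injective good_S₀.ai
  simp only [ev_mul nz, ev_add, ev_nsmul, ev_lp', la, la2, List.map_cons, List.map_nil, List.sum_cons,
    List.sum_nil]
  have h0 := nz (Sum.inl 0)
  have h1 := nz (Sum.inl 1)
  have h2 := nz (Sum.inl 2)
  have h3 := nz (Sum.inl 3)
  have h4 := nz (Sum.inr 0)
  have h5 := nz (Sum.inr 1)
  generalize S₀.x (Sum.inl 0) = A at *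
  generalize S₀.x (Sum.inl 1) = P at *
  generalize S₀.x (Sum.inl 2) = Q at *
  generalize S₀.x (Sum.inl 3) = B at *
  generalize S₀.x (Sum.inr 0) = f at *
  generalize S₀.x (Sum.inr 1) = g at *
  push_cast
  field_simp
  ring

theorem id_b2 : lp lb * lp lb = lp lb2 := by
  apply ev_injective good_S₀.ai
  simp only [ev_mul nz, ev_add, ev_nsmul, ev_lp', lb, lb2, List.map_cons, List.map_nil, List.sum_cons,
    List.sum_nil]
  have h0 := nz (Sum.inl 0)
  have h1 := nz (Sum.inl 1)
  have h2 := nz (Sum.inl 2)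
  have h3 := nz (Sum.inl 3)
  have h4 := nz (Sum.inr 0)
  have h5 := nz (Sum.inr 1)
  generalize S₀.x (Sum.inl 0) = A at *
  generalize S₀.x (Sum.inl 1) = P at *
  generalize S₀.x (Sum.inl 2) = Q at *
  generalize S₀.x (Sum.inl 3) = B at *
  generalize S₀.x (Sum.inr 0) = f at *
  generalize S₀.x (Sum.inr 1) = g at *
  push_cast
  field_simp
  ring

theorem id_PQ : lp lP * lp lQ = lp lPQ := by
  apply ev_injective good_S₀.ai
  simp only [ev_mul nz, ev_add, ev_nsmul, ev_lp', lP, lQ, lPQ, List.map_cons, List.map_nil, List.sum_cons,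
    List.sum_nil]
  have h0 := nz (Sum.inl 0)
  have h1 := nz (Sum.inl 1)
  have h2 := nz (Sum.inl 2)
  have h3 := nz (Sum.inl 3)
  have h4 := nz (Sum.inr 0)
  have h5 := nz (Sum.inr 1)
  generalize S₀.x (Sum.inl 0) = A at *
  generalize S₀.x (Sum.inl 1) = P at *
  generalize S₀.x (Sum.inl 2) = Q at *
  generalize S₀.x (Sum.inl 3) = B at *
  generalize S₀.x (Sum.inr 0) = f at *
  generalize S₀.x (Sum.inr 1) = g at *
  push_cast
  field_simp
  ring

theorem id_a2b : lp la2 * lp lb = lp lz1 + lp lz3 + 2 • lp lX := by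
  apply ev_injective good_S₀.ai
  simp only [ev_mul nz, ev_add, ev_nsmul, ev_lp', la2, lb, lz1, lz3, lX, List.map_cons, List.map_nil, List.sum_cons,
    List.sum_nil]
  have h0 := nz (Sum.inl 0)
  have h1 := nz (Sum.inl 1)
  have h2 := nz (Sum.inl 2)
  have h3 := nz (Sum.inl 3)
  have h4 := nz (Sum.inr 0)
  have h5 := nz (Sum.inr 1)
  generalize S₀.x (Sum.inl 0) = A at *
  generalize S₀.x (Sum.inl 1) = P at *
  generalize S₀.x (Sum.inl 2) = Q at *
  generalize S₀.x (Sum.inl 3) = B at *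
  generalize S₀.x (Sum.inr 0) = f at *
  generalize S₀.x (Sum.inr 1) = g at *
  push_cast
  field_simp
  ring

theorem id_ab2 : lp la * lp lb2 = lp lz2 + lp lz4 + 2 • lp lY := by
  apply ev_injective good_S₀.ai
  simp only [ev_mul nz, ev_add, ev_nsmul, ev_lp', la, lb2, lz2, lz4, lY, List.map_cons, List.map_nil, List.sum_cons,
    List.sum_nil]
  have h0 := nz (Sum.inl 0)
  have h1 := nz (Sum.inl 1)
  have h2 := nz (Sum.inl 2)
  have h3 := nz (Sum.inl 3)
  have h4 := nz (Sum.inr 0)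
  have h5 := nz (Sum.inr 1)
  generalize S₀.x (Sum.inl 0) = A at *
  generalize S₀.x (Sum.inl 1) = P at *
  generalize S₀.x (Sum.inl 2) = Q at *
  generalize S₀.x (Sum.inl 3) = B at *
  generalize S₀.x (Sum.inr 0) = f at *
  generalize S₀.x (Sum.inr 1) = g at *
  push_cast
  field_simp
  ring

theorem id_a2b2 : lp la2 * lp lb2 =
    lp lal + 2 • lp lbe + 2 • lp lga + lp lde + 4 • lp lka + 4 • lp lPQ := by
  apply ev_injective good_S₀.ai
  simp only [ev_mul nz, ev_add, ev_nsmul, ev_lp', la2, lb2, lal, lbe, lga, lde, lka, lPQ, List.map_cons, List.map_nil, List.sum_cons,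
    List.sum_nil]
  have h0 := nz (Sum.inl 0)
  have h1 := nz (Sum.inl 1)
  have h2 := nz (Sum.inl 2)
  have h3 := nz (Sum.inl 3)
  have h4 := nz (Sum.inr 0)
  have h5 := nz (Sum.inr 1)
  generalize S₀.x (Sum.inl 0) = A at *
  generalize S₀.x (Sum.inl 1) = P at *
  generalize S₀.x (Sum.inl 2) = Q at *
  generalize S₀.x (Sum.inl 3) = B at *
  generalize S₀.x (Sum.inr 0) = f at *
  generalize S₀.x (Sum.inr 1) = g at *
  push_cast
  field_simp
  ring

/-- `a * Y` -/
theorem id_aY : lp la * lp lY = lp lka + lp lga + lp lPQ := by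
  apply ev_injective good_S₀.ai
  simp only [ev_mul nz, ev_add, ev_nsmul, ev_lp', la, lY, lka, lga, lPQ, List.map_cons, List.map_nil, List.sum_cons,
    List.sum_nil]
  have h0 := nz (Sum.inl 0)
  have h1 := nz (Sum.inl 1)
  have h2 := nz (Sum.inl 2)
  have h3 := nz (Sum.inl 3)
  have h4 := nz (Sum.inr 0)
  have h5 := nz (Sum.inr 1)
  generalize S₀.x (Sum.inl 0) = A at *
  generalize S₀.x (Sum.inl 1) = P at *
  generalize S₀.x (Sum.inl 2) = Q at *
  generalize S₀.x (Sum.inl 3) = B at *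
  generalize S₀.x (Sum.inr 0) = f at *
  generalize S₀.x (Sum.inr 1) = g at *
  push_cast
  field_simp
  ring

/-- `b * X` -/
theorem id_bX : lp lb * lp lX = lp lka + lp lbe + lp lPQ := by
  apply ev_injective good_S₀.ai
  simp only [ev_mul nz, ev_add, ev_nsmul, ev_lp', lb, lX, lka, lbe, lPQ, List.map_cons, List.map_nil, List.sum_cons,
    List.sum_nil]
  have h0 := nz (Sum.inl 0)
  have h1 := nz (Sum.inl 1)
  have h2 := nz (Sum.inl 2)
  have h3 := nz (Sum.inl 3)
  have h4 := nz (Sum.inr 0)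
  have h5 := nz (Sum.inr 1)
  generalize S₀.x (Sum.inl 0) = A at *
  generalize S₀.x (Sum.inl 1) = P at *
  generalize S₀.x (Sum.inl 2) = Q at *
  generalize S₀.x (Sum.inl 3) = B at *
  generalize S₀.x (Sum.inr 0) = f at *
  generalize S₀.x (Sum.inr 1) = g at *
  push_cast
  field_simp
  ring

theorem id_etap2 : lp letap * lp letap = lp lde + 2 • lp lPQ := by
  apply ev_injective good_S₀.ai
  simp only [ev_mul nz, ev_add, ev_nsmul, ev_lp', letap, lde, lPQ, List.map_cons, List.map_nil, List.sum_cons,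
    List.sum_nil]
  have h0 := nz (Sum.inl 0)
  have h1 := nz (Sum.inl 1)
  have h2 := nz (Sum.inl 2)
  have h3 := nz (Sum.inl 3)
  have h4 := nz (Sum.inr 0)
  have h5 := nz (Sum.inr 1)
  generalize S₀.x (Sum.inl 0) = A at *
  generalize S₀.x (Sum.inl 1) = P at *
  generalize S₀.x (Sum.inl 2) = Q at *
  generalize S₀.x (Sum.inl 3) = B at *
  generalize S₀.x (Sum.inr 0) = f at *
  generalize S₀.x (Sum.inr 1) = g at *
  push_cast
  field_simp
  ring

theorem id_eta2 : lp leta * lp leta = lp lal + 2 • lp lka := by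
  apply ev_injective good_S₀.ai
  simp only [ev_mul nz, ev_add, ev_nsmul, ev_lp', leta, lal, lka, List.map_cons, List.map_nil, List.sum_cons,
    List.sum_nil]
  have h0 := nz (Sum.inl 0)
  have h1 := nz (Sum.inl 1)
  have h2 := nz (Sum.inl 2)
  have h3 := nz (Sum.inl 3)
  have h4 := nz (Sum.inr 0)
  have h5 := nz (Sum.inr 1)
  generalize S₀.x (Sum.inl 0) = A at *
  generalize S₀.x (Sum.inl 1) = P at *
  generalize S₀.x (Sum.inl 2) = Q at *
  generalize S₀.x (Sum.inl 3) = B at *
  generalize S₀.x (Sum.inr 0) = f at *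
  generalize S₀.x (Sum.inr 1) = g at *
  push_cast
  field_simp
  ring

theorem id_aeta : lp la * lp leta = lp lz1 + lp lX := by
  apply ev_injective good_S₀.ai
  simp only [ev_mul nz, ev_add, ev_nsmul, ev_lp', la, leta, lz1, lX, List.map_cons, List.map_nil, List.sum_cons,
    List.sum_nil]
  have h0 := nz (Sum.inl 0)
  have h1 := nz (Sum.inl 1)
  have h2 := nz (Sum.inl 2)
  have h3 := nz (Sum.inl 3)
  have h4 := nz (Sum.inr 0)
  have h5 := nz (Sum.inr 1)
  generalize S₀.x (Sum.inl 0) = A at *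
  generalize S₀.x (Sum.inl 1) = P at *
  generalize S₀.x (Sum.inl 2) = Q at *
  generalize S₀.x (Sum.inl 3) = B at *
  generalize S₀.x (Sum.inr 0) = f at *
  generalize S₀.x (Sum.inr 1) = g at *
  push_cast
  field_simp
  ring

theorem id_beta : lp lb * lp leta = lp lz2 + lp lY := by
  apply ev_injective good_S₀.ai
  simp only [ev_mul nz, ev_add, ev_nsmul, ev_lp', lb, leta, lz2, lY, List.map_cons, List.map_nil, List.sum_cons,
    List.sum_nil]
  have h0 := nz (Sum.inl 0)
  have h1 := nz (Sum.inl 1)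
  have h2 := nz (Sum.inl 2)
  have h3 := nz (Sum.inl 3)
  have h4 := nz (Sum.inr 0)
  have h5 := nz (Sum.inr 1)
  generalize S₀.x (Sum.inl 0) = A at *
  generalize S₀.x (Sum.inl 1) = P at *
  generalize S₀.x (Sum.inl 2) = Q at *
  generalize S₀.x (Sum.inl 3) = B at *
  generalize S₀.x (Sum.inr 0) = f at *
  generalize S₀.x (Sum.inr 1) = g at *
  push_cast
  field_simp
  ring

end Pool.Agent.LibSP
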