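import Pool.Agent.LibSP.ExB
import Pool.Agent.LibSP.ExC

/-!
Membership in the upper cluster algebra.
-/

set_option autoImplicit false

namespace Pool.Agent.LibSP

open AddMonoidAlgebra

/-! ### Membership in the upper cluster algebra -/

/-- The Laurent polynomial `L` defines an element which is Laurent at all seeds. -/
def InU (L : Lp 4 2) : Prop := Univ S₀ (ev S₀.x L)

section aux

variable {K : Type} [Field K]

lemma exD_exch0 (x : Idx 4 2 → K) : exch x exB 0 =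
    (x (Sum.inl 1) * x (Sum.inl 2) ^ 2 + x (Sum.inl 3) ^ 2) / x (Sum.inl 0) := by
  simp [exch, exB, Fin.prod_univ_four]

lemma exD_exch1 (x : Idx 4 2 → K) : exch x exB 1 =
    (x (Sum.inl 3) ^ 2 + x (Sum.inl 0) * x (Sum.inr 0)) / x (Sum.inl 1) := by
  simp [exch, exB, Fin.prod_univ_four]

lemma exD_exch2 (x : Idx 4 2 → K) : exch x exB 2 =
    (x (Sum.inl 3) * x (Sum.inr 1) + x (Sum.inl 0) ^ 2) / x (Sum.inl 2) := by
  simp [exch, exB, Fin.prod_univ_four]

lemma exD_exch3 (x : Idx 4 2 → K) : exch x exB 3 =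
    (x (Sum.inl 0) ^ 2 + x (Sum.inl 1) ^ 2 * x (Sum.inl 2)) / x (Sum.inl 3) := by
  simp [exch, exB, Fin.prod_univ_four]

lemma exD_etap (x : Idx 4 2 → K) : ev x (lp letap) =
    x (Sum.inl 1) * x (Sum.inl 3) * (x (Sum.inl 0))⁻¹ +
    x (Sum.inl 1) ^ 2 * x (Sum.inl 2) ^ 2 * (x (Sum.inl 0))⁻¹ * (x (Sum.inl 3))⁻¹ +
    x (Sum.inl 0) * x (Sum.inl 2) * (x (Sum.inl 3))⁻¹ := by
  rw [ev_lp]
  simp [letap]
  ring

/-- a variable of a neighbouring seed. -/
lemma exD_var {s : Seed K 4 2} (k : Fin 4) (i : Idx 4 2) (h : i ≠ Sum.inl k) :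
    (s.mut k).x i = s.x i := by
  simp [Seed.mut, Function.update_of_ne h]

lemma exD_new {s : Seed K 4 2} (k : Fin 4) :
    (s.mut k).x (Sum.inl k) = exch s.x s.B k := by
  simp [Seed.mut]

lemma Lau.exD_pow {x : Idx 4 2 → K} (hx : ∀ i, x i ≠ 0) {u : K} (hu : Lau x u) (k : ℕ) :
    Lau x (u ^ k) := by
  induction k with
  | zero =>
    have := Lau.int x 1
    simpa using this
  | succ k ih => rw [pow_succ]; exact Lau.mul hx ih hu

end aux

theorem inU_etap : InU (lp letap) := by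
  have hx : ∀ i, S₀.x i ≠ 0 := fun i => ne_zero_of_ai good_S₀.ai i
  have hB : S₀.B = exB := rfl
  refine upper good_S₀ Reach.refl ⟨lp letap, ?_, rfl⟩ ?_
  · intro m hm j
    obtain ⟨e, rfl⟩ := exists_E m
    rw [coeff_lp] at hm
    by_contra hneg
    apply hm
    obtain ⟨e1, e2, e3, e4, e5, e6⟩ := e
    have h56 : ¬ (e5 = 0 ∧ e6 = 0) := by
      rintro ⟨rfl, rfl⟩
      apply hneg
      fin_cases j <;> simp [E]
    simp only [cf, letap, List.map_cons, List.map_nil, List.sum_cons, List.sum_nil, Prod.mk.injEq]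
    rw [if_neg, if_neg, if_neg]
    · simp
    · rintro ⟨-, -, -, -, h5, h6⟩; exact h56 ⟨h5.symm, h6.symm⟩
    · rintro ⟨-, -, -, -, h5, h6⟩; exact h56 ⟨h5.symm, h6.symm⟩
    · rintro ⟨-, -, -, -, h5, h6⟩; exact h56 ⟨h5.symm, h6.symm⟩
  · intro k
    have hy : ∀ i, (S₀.mut k).x i ≠ 0 := fun i => ne_zero_of_ai (good_S₀.mut k).ai i
    have hv : ∀ i, i ≠ Sum.inl k → Lau (S₀.mut k).x (S₀.x i) := fun i hi => by
      rw [← exD_var k i hi]; exact Lau.var _ _
    have hi : ∀ j : Fin 4, j ≠ k → Lau (S₀.mut k).x (S₀.x (Sum.inl j))⁻¹ := fun j hj => by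
      rw [← exD_var k (Sum.inl j) (by simpa using hj)]; exact Lau.var_inv _ _
    have hn : Lau (S₀.mut k).x (exch S₀.x exB k) := by
      rw [← hB, ← exD_new]; exact Lau.var _ _
    have hni : Lau (S₀.mut k).x (exch S₀.x exB k)⁻¹ := by
      rw [← hB, ← exD_new]; exact Lau.var_inv _ _
    have hne : exch S₀.x exB k ≠ 0 := by
      rw [← hB, ← exD_new]; exact hy _
    have h0 := hx (Sum.inl 0)
    have h1 := hx (Sum.inl 1)
    have h2 := hx (Sum.inl 2)
    have h3 := hx (Sum.inl 3)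
    rw [exD_etap]
    fin_cases k
    · -- `A`
      have hA := hv
      simp only [Fin.zero_eta] at *
      have hP := hv (Sum.inl 1) (by simp)
      have hQ := hv (Sum.inl 2) (by simp)
      have hBv := hv (Sum.inl 3) (by simp)
      have hBi := hi 3 (by decide)
      rw [exD_exch0] at hn hni hne
      have key : S₀.x (Sum.inl 1) * S₀.x (Sum.inl 3) * (S₀.x (Sum.inl 0))⁻¹ +
          S₀.x (Sum.inl 1) ^ 2 * S₀.x (Sum.inl 2) ^ 2 * (S₀.x (Sum.inl 0))⁻¹ *
            (S₀.x (Sum.inl 3))⁻¹ +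
          S₀.x (Sum.inl 0) * S₀.x (Sum.inl 2) * (S₀.x (Sum.inl 3))⁻¹ =
          S₀.x (Sum.inl 1) * ((S₀.x (Sum.inl 1) * S₀.x (Sum.inl 2) ^ 2 + S₀.x (Sum.inl 3) ^ 2) /
            S₀.x (Sum.inl 0)) * (S₀.x (Sum.inl 3))⁻¹ +
          (S₀.x (Sum.inl 1) * S₀.x (Sum.inl 2) ^ 2 + S₀.x (Sum.inl 3) ^ 2) *
            ((S₀.x (Sum.inl 1) * S₀.x (Sum.inl 2) ^ 2 + S₀.x (Sum.inl 3) ^ 2) /
            S₀.x (Sum.inl 0))⁻¹ * S₀.x (Sum.inl 2) * (S₀.x (Sum.inl 3))⁻¹ := by
        have hne' : (S₀.x (Sum.inl 1) * S₀.x (Sum.inl 2) ^ 2 + S₀.x (Sum.inl 3) ^ 2) ≠ 0 := by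
          intro h; apply hne; rw [h, zero_div]
        rw [inv_div, mul_div_cancel₀ _ hne']
        field_simp
        ring
      rw [key]
      refine Lau.add (Lau.mul hy (Lau.mul hy hP hn) hBi) ?_
      refine Lau.mul hy (Lau.mul hy (Lau.mul hy ?_ hni) hQ) hBi
      exact Lau.add (Lau.mul hy hP (Lau.exD_pow hy hQ 2)) (Lau.exD_pow hy hBv 2)
    · -- `P`
      simp only [Fin.mk_one] at *
      have hA := hv (Sum.inl 0) (by simp)
      have hQ := hv (Sum.inl 2) (by simp)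
      have hBv := hv (Sum.inl 3) (by simp)
      have hf := hv (Sum.inr 0) (by simp)
      have hBi := hi 3 (by decide)
      have hAi := hi 0 (by decide)
      rw [exD_exch1] at hn hni hne
      have hP : Lau (S₀.mut 1).x (S₀.x (Sum.inl 1)) := by
        have hne' : (S₀.x (Sum.inl 3) ^ 2 + S₀.x (Sum.inl 0) * S₀.x (Sum.inr 0)) ≠ 0 := by
          intro h; apply hne; rw [h, zero_div]
        have key : S₀.x (Sum.inl 1) = (S₀.x (Sum.inl 3) ^ 2 + S₀.x (Sum.inl 0) * S₀.x (Sum.inr 0)) *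
            ((S₀.x (Sum.inl 3) ^ 2 + S₀.x (Sum.inl 0) * S₀.x (Sum.inr 0)) / S₀.x (Sum.inl 1))⁻¹ := by
          rw [inv_div, mul_div_cancel₀ _ hne']
        rw [key]
        exact Lau.mul hy (Lau.add (Lau.exD_pow hy hBv 2) (Lau.mul hy hA hf)) hni
      refine Lau.add (Lau.add ?_ ?_) ?_
      · exact Lau.mul hy (Lau.mul hy hP hBv) hAi
      · exact Lau.mul hy (Lau.mul hy (Lau.mul hy (Lau.exD_pow hy hP 2) (Lau.exD_pow hy hQ 2)) hAi) hBi
      · exact Lau.mul hy (Lau.mul hy hA hQ) hBi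
    · -- `Q`
      simp only [Fin.reduceFinMk] at *
      have hA := hv (Sum.inl 0) (by simp)
      have hP := hv (Sum.inl 1) (by simp)
      have hBv := hv (Sum.inl 3) (by simp)
      have hg := hv (Sum.inr 1) (by simp)
      have hBi := hi 3 (by decide)
      have hAi := hi 0 (by decide)
      rw [exD_exch2] at hn hni hne
      have hQ : Lau (S₀.mut 2).x (S₀.x (Sum.inl 2)) := by
        have hne' : (S₀.x (Sum.inl 3) * S₀.x (Sum.inr 1) + S₀.x (Sum.inl 0) ^ 2) ≠ 0 := by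
          intro h; apply hne; rw [h, zero_div]
        have key : S₀.x (Sum.inl 2) = (S₀.x (Sum.inl 3) * S₀.x (Sum.inr 1) + S₀.x (Sum.inl 0) ^ 2) *
            ((S₀.x (Sum.inl 3) * S₀.x (Sum.inr 1) + S₀.x (Sum.inl 0) ^ 2) / S₀.x (Sum.inl 2))⁻¹ := by
          rw [inv_div, mul_div_cancel₀ _ hne']
        rw [key]
        exact Lau.mul hy (Lau.add (Lau.mul hy hBv hg) (Lau.exD_pow hy hA 2)) hni
      refine Lau.add (Lau.add ?_ ?_) ?_
      · exact Lau.mul hy (Lau.mul hy hP hBv) hAi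
      · exact Lau.mul hy (Lau.mul hy (Lau.mul hy (Lau.exD_pow hy hP 2) (Lau.exD_pow hy hQ 2)) hAi) hBi
      · exact Lau.mul hy (Lau.mul hy hA hQ) hBi
    · -- `B`
      simp only [Fin.reduceFinMk] at *
      have hA := hv (Sum.inl 0) (by simp)
      have hP := hv (Sum.inl 1) (by simp)
      have hQ := hv (Sum.inl 2) (by simp)
      have hAi := hi 0 (by decide)
      rw [exD_exch3] at hn hni hne
      have hne' : (S₀.x (Sum.inl 0) ^ 2 + S₀.x (Sum.inl 1) ^ 2 * S₀.x (Sum.inl 2)) ≠ 0 := by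
        intro h; apply hne; rw [h, zero_div]
      have hBv : Lau (S₀.mut 3).x (S₀.x (Sum.inl 3)) := by
        have key : S₀.x (Sum.inl 3) =
            (S₀.x (Sum.inl 0) ^ 2 + S₀.x (Sum.inl 1) ^ 2 * S₀.x (Sum.inl 2)) *
            ((S₀.x (Sum.inl 0) ^ 2 + S₀.x (Sum.inl 1) ^ 2 * S₀.x (Sum.inl 2)) /
              S₀.x (Sum.inl 3))⁻¹ := by
          rw [inv_div, mul_div_cancel₀ _ hne']
        rw [key]
        exact Lau.mul hy (Lau.add (Lau.exD_pow hy hA 2) (Lau.mul hy (Lau.exD_pow hy hP 2) hQ)) hni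
      have key : S₀.x (Sum.inl 1) * S₀.x (Sum.inl 3) * (S₀.x (Sum.inl 0))⁻¹ +
          S₀.x (Sum.inl 1) ^ 2 * S₀.x (Sum.inl 2) ^ 2 * (S₀.x (Sum.inl 0))⁻¹ *
            (S₀.x (Sum.inl 3))⁻¹ +
          S₀.x (Sum.inl 0) * S₀.x (Sum.inl 2) * (S₀.x (Sum.inl 3))⁻¹ =
          S₀.x (Sum.inl 1) * S₀.x (Sum.inl 3) * (S₀.x (Sum.inl 0))⁻¹ +
          S₀.x (Sum.inl 2) * ((S₀.x (Sum.inl 0) ^ 2 + S₀.x (Sum.inl 1) ^ 2 * S₀.x (Sum.inl 2)) /
              S₀.x (Sum.inl 3)) * (S₀.x (Sum.inl 0))⁻¹ := by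
        field_simp
        ring
      rw [key]
      exact Lau.add (Lau.mul hy (Lau.mul hy hP hBv) hAi) (Lau.mul hy (Lau.mul hy hQ hn) hAi)

theorem InU.add {L M : Lp 4 2} (hL : InU L) (hM : InU M) : InU (L + M) := by
  unfold InU at *
  rw [ev_add]
  exact hL.add hM

theorem InU.sub {L M : Lp 4 2} (hL : InU L) (hM : InU M) : InU (L - M) := by
  unfold InU at *
  rw [ev_sub, sub_eq_add_neg]
  exact hL.add hM.neg

theorem InU.mul {L M : Lp 4 2} (hL : InU L) (hM : InU M) : InU (L * M) := by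
  unfold InU at *
  rw [ev_mul (fun i => ne_zero_of_ai good_S₀.ai i)]
  exact Univ.mul good_S₀ hL hM

theorem InU.smul (a : ℤ) {L : Lp 4 2} (hL : InU L) : InU (a • L) := by
  unfold InU at *
  rw [ev_smul]
  exact Univ.mul good_S₀ (fun s _ => Lau.int s.x a) hL

lemma inU_of_clusterVar {L : Lp 4 2} (h : IsClusterVar (ev S₀.x L)) : InU L := by
  obtain ⟨s, hs, k, hk⟩ := h
  unfold InU
  rw [hk]
  exact laurent good_S₀ hs _

theorem inU_all : ∀ l ∈ [lA, lP, lQ, lB, la, lb, la2, lb2, leta, letap, lz1, lz3, lX, lz2, lz4, lY,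
    lal, lka, lga, lbe, lde, lPQ], InU (lp l) := by
  have hA : InU (lp lA) := by
    unfold InU
    have : ev S₀.x (lp lA) = S₀.x (Sum.inl 0) := by rw [ev_lp]; simp [lA]
    rw [this]; exact laurent good_S₀ Reach.refl _
  have hP : InU (lp lP) := by
    unfold InU
    have : ev S₀.x (lp lP) = S₀.x (Sum.inl 1) := by rw [ev_lp]; simp [lP]
    rw [this]; exact laurent good_S₀ Reach.refl _
  have hQ : InU (lp lQ) := by
    unfold InU
    have : ev S₀.x (lp lQ) = S₀.x (Sum.inl 2) := by rw [ev_lp]; simp [lQ]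
    rw [this]; exact laurent good_S₀ Reach.refl _
  have hB : InU (lp lB) := by
    unfold InU
    have : ev S₀.x (lp lB) = S₀.x (Sum.inl 3) := by rw [ev_lp]; simp [lB]
    rw [this]; exact laurent good_S₀ Reach.refl _
  have ha := inU_of_clusterVar cv_a
  have hb := inU_of_clusterVar cv_b
  have hz1 := inU_of_clusterVar cv_z1
  have hz2 := inU_of_clusterVar cv_z2
  have hz3 := inU_of_clusterVar cv_z3
  have hz4 := inU_of_clusterVar cv_z4
  have ha2 : InU (lp la2) := by rw [← id_a2]; exact ha.mul ha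
  have hb2 : InU (lp lb2) := by rw [← id_b2]; exact hb.mul hb
  have hetap := inU_etap
  have heta : InU (lp leta) := by
    have : lp leta = lp la * lp lb - lp letap := by rw [id_ab]; abel
    rw [this]; exact (ha.mul hb).sub hetap
  have hX : InU (lp lX) := by
    have : lp lX = lp la * lp leta - lp lz1 := by rw [id_aeta]; abel
    rw [this]; exact (ha.mul heta).sub hz1
  have hY : InU (lp lY) := by
    have : lp lY = lp lb * lp leta - lp lz2 := by rw [id_beta]; abel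
    rw [this]; exact (hb.mul heta).sub hz2
  have hPQ : InU (lp lPQ) := by rw [← id_PQ]; exact hP.mul hQ
  have hga : InU (lp lga) := by
    have : lp lga = lp lb * lp lz1 - lp leta * lp leta := by rw [id_p2, id_eta2]; abel
    rw [this]; exact (hb.mul hz1).sub (heta.mul heta)
  have hbe : InU (lp lbe) := by
    have : lp lbe = lp la * lp lz2 - lp leta * lp leta := by rw [id_p1, id_eta2]; abel
    rw [this]; exact (ha.mul hz2).sub (heta.mul heta)
  have hka : InU (lp lka) := by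
    have : lp lka = lp la * lp lY - lp lga - lp lPQ := by rw [id_aY]; abel
    rw [this]; exact ((ha.mul hY).sub hga).sub hPQ
  have hal : InU (lp lal) := by
    have : lp lal = lp leta * lp leta - (2 : ℤ) • lp lka := by rw [id_eta2]; abel
    rw [this]; exact (heta.mul heta).sub (hka.smul 2)
  have hde : InU (lp lde) := by
    have : lp lde = lp letap * lp letap - (2 : ℤ) • lp lPQ := by rw [id_etap2]; abel
    rw [this]; exact (hetap.mul hetap).sub (hPQ.smul 2)
  intro l hl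
  simp only [List.mem_cons, List.not_mem_nil, or_false] at hl
  rcases hl with rfl | rfl | rfl | rfl | rfl | rfl | rfl | rfl | rfl | rfl | rfl | rfl | rfl | rfl |
    rfl | rfl | rfl | rfl | rfl | rfl | rfl | rfl <;> assumption

end Pool.Agent.LibSP
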