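import Pool.Agent.LibSP.LemKB

/-!
Cluster variables of small degree, parity, and the contradiction.
-/

set_option autoImplicit false

namespace Pool.Agent.LibSP

/-! ### Generalities -/

lemma S0_ne (i : Idx 4 2) : S₀.x i ≠ 0 := ne_zero_of_ai good_S₀.ai i

lemma homL_lp2 {l : List Term} {d : ℤ × ℤ} (h : ∀ t ∈ l, deg DD (E t.2) = d) :
    HomL (lp l) d := by
  intro m hm
  obtain ⟨e, rfl⟩ := exists_E m
  rw [coeff_lp] at hm
  by_contra hne
  apply hm
  unfold cf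
  apply List.sum_eq_zero
  intro x hx
  rw [List.mem_map] at hx
  obtain ⟨t, ht, rfl⟩ := hx
  rw [if_neg]
  rintro rfl
  exact hne (h t ht)

lemma homL_P : HomL (lp lP) (2, 0) := by
  apply homL_lp2
  intro t ht
  simp only [lP, List.mem_singleton] at ht
  subst ht
  rw [deg_E]
  norm_num

lemma homL_Q : HomL (lp lQ) (0, 2) := by
  apply homL_lp2
  intro t ht
  simp only [lQ, List.mem_singleton] at ht
  subst ht
  rw [deg_E]
  norm_num

lemma homL_a : HomL (lp la) (3, -2) := by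
  apply homL_lp2
  intro t ht
  simp only [la, List.mem_cons, List.not_mem_nil, or_false] at ht
  rcases ht with rfl | rfl | rfl <;> rw [deg_E] <;> norm_num

lemma homL_b : HomL (lp lb) (-2, 3) := by
  apply homL_lp2
  intro t ht
  simp only [lb, List.mem_cons, List.not_mem_nil, or_false] at ht
  rcases ht with rfl | rfl | rfl <;> rw [deg_E] <;> norm_num

lemma ev_P : ev S₀.x (lp lP) = S₀.x (Sum.inl 1) := by
  rw [ev_lp]
  simp [lP]

lemma ev_Q : ev S₀.x (lp lQ) = S₀.x (Sum.inl 2) := by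
  rw [ev_lp]
  simp [lQ]

lemma cv_P : IsClusterVar (ev S₀.x (lp lP)) := ⟨S₀, Reach.refl, 1, ev_P⟩

lemma cv_Q : IsClusterVar (ev S₀.x (lp lQ)) := ⟨S₀, Reach.refl, 2, ev_Q⟩

lemma IsClusterVar.mem {C : Set K₀} (hC : StronglyPositiveBasis S₀ C) {y : K₀}
    (hy : IsClusterVar y) : y ∈ C := by
  obtain ⟨s, hs, k, rfl⟩ := hy
  refine hC.monomials _ ⟨s, hs, Pi.single (Sum.inl k) 1, ?_⟩
  rw [Finset.prod_eq_single (Sum.inl k)]
  · simp
  · intro j _ hj
    simp [hj]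
  · simp

lemma IsClusterVar.ne_zero {y : K₀} (hy : IsClusterVar y) : y ≠ 0 := by
  obtain ⟨s, hs, k, rfl⟩ := hy
  exact ne_zero_of_ai (hs.good good_S₀).ai _

/-- A quotient of homogeneous elements of small degree is not universally Laurent. -/
lemma not_univ {L M : Lp 4 2} {d e : ℤ × ℤ} (hL : HomL L d) (hM : HomL M e)
    (hL0 : ev S₀.x L ≠ 0) (hM0 : ev S₀.x M ≠ 0) (h1 : e.1 + e.2 ≤ d.1 + d.2) (h2 : e ≠ d) :
    ¬ Univ S₀ (ev S₀.x M / ev S₀.x L) := by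
  intro hU
  obtain ⟨θ, hθ⟩ := exists_theta exB DD
  have hθ' : ∀ i, Hg θ (S₀.x i) (DD i) := hθ
  obtain ⟨N, -, hN⟩ := hU S₀ Reach.refl
  have hg := (hg_of_deg DD hθ' hM).div (hg_of_deg DD hθ' hL)
  rw [← hN] at hg
  have hH : HomL N (e - d) := deg_of_hg good_S₀.ai DD hθ' hg
  have hN0 : N ≠ 0 := by
    rintro rfl
    rw [ev_zero] at hN
    exact div_ne_zero hM0 hL0 hN.symm
  have hInU : InU N := by
    unfold InU
    rw [hN]
    exact hU
  obtain ⟨h3, h4, -, -⟩ := small_deg hInU hH hN0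
  have h5 : (e - d).1 + (e - d).2 = 0 := by
    simp only [Prod.fst_sub, Prod.snd_sub] at h3 ⊢
    omega
  have h6 := h4 h5
  apply h2
  have h7 : e - d = 0 := h6
  exact sub_eq_zero.1 h7

lemma tv_nonneg {α : Idx 4 2 → ℚ} (hα : ∀ i, 0 < α i) (t : Term) (ht : 0 ≤ t.1) :
    0 ≤ (t.1 : ℚ) * (α (Sum.inl 0) ^ t.2.1 * α (Sum.inl 1) ^ t.2.2.1 *
      α (Sum.inl 2) ^ t.2.2.2.1 * α (Sum.inl 3) ^ t.2.2.2.2.1 * α (Sum.inr 0) ^ t.2.2.2.2.2.1 *
      α (Sum.inr 1) ^ t.2.2.2.2.2.2) := by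
  have h : (0 : ℚ) ≤ t.1 := by exact_mod_cast ht
  have h0 := hα (Sum.inl 0)
  have h1 := hα (Sum.inl 1)
  have h2 := hα (Sum.inl 2)
  have h3 := hα (Sum.inl 3)
  have h4 := hα (Sum.inr 0)
  have h5 := hα (Sum.inr 1)
  positivity

lemma ev_lp_nonneg {α : Idx 4 2 → ℚ} (hα : ∀ i, 0 < α i) (l : List Term)
    (hl : ∀ t ∈ l, 0 ≤ t.1) : 0 ≤ ev α (lp l) := by
  rw [ev_lp]
  apply List.sum_nonneg
  intro x hx
  rw [List.mem_map] at hx
  obtain ⟨t, ht, rfl⟩ := hx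
  exact tv_nonneg hα t (hl t ht)

lemma term_le {α : Idx 4 2 → ℚ} (hα : ∀ i, 0 < α i) (l : List Term)
    (hl : ∀ t ∈ l, 0 ≤ t.1) (t : Term) (ht : t ∈ l) :
    (t.1 : ℚ) * (α (Sum.inl 0) ^ t.2.1 * α (Sum.inl 1) ^ t.2.2.1 *
      α (Sum.inl 2) ^ t.2.2.2.1 * α (Sum.inl 3) ^ t.2.2.2.2.1 * α (Sum.inr 0) ^ t.2.2.2.2.2.1 *
      α (Sum.inr 1) ^ t.2.2.2.2.2.2) ≤ ev α (lp l) := by
  rw [ev_lp]
  refine List.single_le_sum ?_ _ ?_
  · intro x hx
    rw [List.mem_map] at hx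
    obtain ⟨t, ht, rfl⟩ := hx
    exact tv_nonneg hα t (hl t ht)
  · rw [List.mem_map]
    exact ⟨t, ht, rfl⟩

lemma prod2 {x y : ℚ} (_hx : 0 ≤ x) (hy : 0 ≤ y) (h1 : x ≤ 1 / 2) (h2 : y ≤ 1 / 2) :
    x * y ≤ 1 / 4 := by
  calc x * y ≤ 1 / 2 * (1 / 2) := mul_le_mul h1 h2 hy (by norm_num)
    _ = 1 / 4 := by norm_num

lemma prod3 {x y z : ℚ} (hx : 0 ≤ x) (hy : 0 ≤ y) (hz : 0 ≤ z) (h1 : x ≤ 1 / 2)
    (h2 : y ≤ 1 / 2) (h3 : z ≤ 1 / 2) : x * y * z ≤ 1 / 8 := by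
  calc x * y * z ≤ 1 / 4 * (1 / 2) :=
        mul_le_mul (prod2 hx hy h1 h2) h3 hz (by norm_num)
    _ = 1 / 8 := by norm_num

lemma cmul_nonneg {c : ℤ} {v : ℚ} (hc : 0 ≤ c) (hv : 0 ≤ v) : 0 ≤ (c : ℚ) * v :=
  mul_nonneg (by exact_mod_cast hc) hv

/-- A nonnegative integer combination with value at most one half. -/
lemma coeff_le {c : ℤ} {v : ℚ} (hc : 0 ≤ c) (hc0 : c ≠ 0) (hv : 0 ≤ v)
    (h : (c : ℚ) * v ≤ 1 / 2) : v ≤ 1 / 2 := by
  have h1 : (1 : ℚ) ≤ c := by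
    have : (1 : ℤ) ≤ c := by omega
    exact_mod_cast this
  nlinarith

section

variable {C : Set K₀} (hC : StronglyPositiveBasis S₀ C)

include hC

/-- The special point for a homogeneous cluster variable. -/
lemma point {L : Lp 4 2} (hL : IsClusterVar (ev S₀.x L)) {d : ℤ × ℤ} (hd : HomL L d) :
    ∃ α : Idx 4 2 → ℚ, (∀ i, 0 < α i) ∧ (∀ j : Fin 2, α (Sum.inr j) = 1) ∧ ev α L = 1 / 2 ∧
      (2 ≤ d.1 + d.2 → d ≠ (2, 0) → 1 ≤ α (Sum.inl 1)) ∧
      (2 ≤ d.1 + d.2 → d ≠ (0, 2) → 1 ≤ α (Sum.inl 2)) ∧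
      (1 ≤ d.1 + d.2 → d ≠ (3, -2) → 1 ≤ ev α (lp la)) ∧
      (1 ≤ d.1 + d.2 → d ≠ (-2, 3) → 1 ≤ ev α (lp lb)) ∧
      (∀ m, 0 ≤ L.coeff m) := by
  have hLC := hL.mem hC
  have hL0 := hL.ne_zero
  obtain ⟨t, ht, k, hk⟩ := id hL
  obtain ⟨α, h1, h2, h3, h4⟩ := exists_point good_S₀ hC ht k
  have key : ∀ M : Lp 4 2, IsClusterVar (ev S₀.x M) → ∀ e : ℤ × ℤ, HomL M e →
      e.1 + e.2 ≤ d.1 + d.2 → d ≠ e → 1 ≤ ev α M := by
    intro M hM e he hde hne
    refine h4 _ (hM.mem hC) ?_ M rfl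
    rw [← hk]
    exact not_univ hd he hL0 hM.ne_zero hde hne.symm
  refine ⟨α, h1, h2, h3 L hk, ?_, ?_, ?_, ?_, ?_⟩
  · intro h5 h6
    have := key _ cv_P _ homL_P (by simpa using h5) h6
    rw [ev_lp] at this
    simpa [lP] using this
  · intro h5 h6
    have := key _ cv_Q _ homL_Q (by simpa using h5) h6
    rw [ev_lp] at this
    simpa [lQ] using this
  · intro h5 h6
    exact key _ cv_a _ homL_a (by norm_num; exact h5) h6
  · intro h5 h6
    exact key _ cv_b _ homL_b (by norm_num; exact h5) h6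
  · intro m
    exact pos_of_basis good_S₀ hC hLC Reach.refl rfl m

omit hC in
lemma inU_of_cv {L : Lp 4 2} (hL : IsClusterVar (ev S₀.x L)) : InU L := by
  obtain ⟨t, ht, k, hk⟩ := hL
  unfold InU
  rw [hk]
  exact laurent good_S₀ ht _

/-- No cluster variable has bidegree `(1, 1)`. -/
theorem n1 {L : Lp 4 2} (hL : IsClusterVar (ev S₀.x L)) : ¬ HomL L (1, 1) := by
  intro hd
  obtain ⟨α, hα, h1, hv, hP, hQ, -, -, hc⟩ := point hC hL hd
  have hP := hP (by norm_num) (by decide)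
  have hQ := hQ (by norm_num) (by decide)
  have hLe := coord_11 (inU_of_cv hL) hd
  rw [hLe, ev_add, ev_smul, ev_smul] at hv
  have c1 := hc (E (0, -1, -1, 0, 1, 1))
  have c2 := hc (E (1, 0, 1, -1, 0, 0))
  generalize L.coeff (E (0, -1, -1, 0, 1, 1)) = u at *
  generalize L.coeff (E (1, 0, 1, -1, 0, 0)) = v at *
  have p1 := ev_lp_nonneg hα leta (by decide)
  have p2 := ev_lp_nonneg hα letap (by decide)
  have u' : (0 : ℚ) ≤ u := by exact_mod_cast c1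
  have v' : (0 : ℚ) ≤ v := by exact_mod_cast c2
  have q1 := mul_nonneg u' p1
  have q2 := mul_nonneg v' p2
  have A := hα (Sum.inl 0)
  have P := hα (Sum.inl 1)
  have Q := hα (Sum.inl 2)
  have B := hα (Sum.inl 3)
  have f := h1 0
  have g := h1 1
  by_cases hu : u = 0
  · by_cases hv0 : v = 0
    · rw [hu, hv0] at hv
      norm_num at hv
    · have h := coeff_le c2 hv0 p2 (by linarith)
      have t1 := (term_le hα letap (by decide) (1, (-1, 1, 0, 1, 0, 0)) (by decide)).trans h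
      have t2 := (term_le hα letap (by decide) (1, (1, 0, 1, -1, 0, 0)) (by decide)).trans h
      have n1 := tv_nonneg hα (1, (-1, 1, 0, 1, 0, 0)) (by decide)
      have n2 := tv_nonneg hα (1, (1, 0, 1, -1, 0, 0)) (by decide)
      have h3 := prod2 n1 n2 t1 t2
      simp only [f, g, zpow_neg, zpow_one, zpow_zero, one_mul, mul_one, Int.cast_one] at h3
      have h4 : (α (Sum.inl 0))⁻¹ * α (Sum.inl 1) * α (Sum.inl 3) *
          (α (Sum.inl 0) * α (Sum.inl 2) * (α (Sum.inl 3))⁻¹) =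
          α (Sum.inl 1) * α (Sum.inl 2) := by
        field_simp
      rw [h4] at h3
      nlinarith
  · have h := coeff_le c1 hu p1 (by linarith)
    have t1 := (term_le hα leta (by decide) (1, (-1, 0, 1, 0, 0, 1)) (by decide)).trans h
    have t2 := (term_le hα leta (by decide) (1, (0, 1, 0, -1, 1, 0)) (by decide)).trans h
    have t3 := (term_le hα leta (by decide) (1, (1, -1, -1, 1, 0, 0)) (by decide)).trans h
    have n1 := tv_nonneg hα (1, (-1, 0, 1, 0, 0, 1)) (by decide)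
    have n2 := tv_nonneg hα (1, (0, 1, 0, -1, 1, 0)) (by decide)
    have n3 := tv_nonneg hα (1, (1, -1, -1, 1, 0, 0)) (by decide)
    have h3 := prod3 n1 n2 n3 t1 t2 t3
    simp only [f, g, zpow_neg, zpow_one, zpow_zero, one_mul, mul_one, Int.cast_one] at h3
    have h4 : (α (Sum.inl 0))⁻¹ * α (Sum.inl 2) * (α (Sum.inl 1) * (α (Sum.inl 3))⁻¹) *
          (α (Sum.inl 0) * (α (Sum.inl 1))⁻¹ * (α (Sum.inl 2))⁻¹ * α (Sum.inl 3)) = 1 := by
      field_simp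
    rw [h4] at h3
    norm_num at h3

theorem n2 {L : Lp 4 2} (hL : IsClusterVar (ev S₀.x L)) (hd : HomL L (-1, 4)) :
    L.coeff (E (1, -1, 1, -1, 1, 0)) = 0 := by
  by_contra hu
  obtain ⟨α, hα, h1, hv, hP, hQ, -, hb, hc⟩ := point hC hL hd
  have hQ := hQ (by norm_num) (by decide)
  have hb := hb (by norm_num) (by decide)
  have hLe := coord_14 (inU_of_cv hL) hd
  rw [hLe, ev_add, ev_add, ev_smul, ev_smul, ev_smul] at hv
  have c1 := hc (E (0, -2, -1, 0, 2, 1))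
  have c2 := hc (E (1, -1, 1, -1, 1, 0))
  have c3 := hc (E (0, 0, 3, -1, 0, 0))
  generalize L.coeff (E (0, -2, -1, 0, 2, 1)) = w at *
  generalize L.coeff (E (1, -1, 1, -1, 1, 0)) = u at *
  generalize L.coeff (E (0, 0, 3, -1, 0, 0)) = v at *
  have q1 := cmul_nonneg (c1) (ev_lp_nonneg hα lz2 (by decide))
  have p2 := ev_lp_nonneg hα lY (by decide)
  have q3 := cmul_nonneg (c3) (ev_lp_nonneg hα lz4 (by decide))
  have f := h1 0
  have g := h1 1
  have h := coeff_le c2 hu p2 (by linarith)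
  have t1 := (term_le hα lY (by decide) (1, (-1, 0, 0, 1, 1, 0)) (by decide)).trans h
  have t2 := (term_le hα lY (by decide) (1, (-1, 1, 2, -1, 1, 0)) (by decide)).trans h
  have t3 := (term_le hα lY (by decide) (1, (0, -1, 1, 1, 0, 0)) (by decide)).trans h
  have t4 := (term_le hα lY (by decide) (1, (1, -1, 1, -1, 1, 0)) (by decide)).trans h
  have n1 := tv_nonneg hα (1, (-1, 0, 0, 1, 1, 0)) (by decide)
  have n2 := tv_nonneg hα (1, (-1, 1, 2, -1, 1, 0)) (by decide)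
  have n3 := tv_nonneg hα (1, (0, -1, 1, 1, 0, 0)) (by decide)
  have n4 := tv_nonneg hα (1, (1, -1, 1, -1, 1, 0)) (by decide)
  have m1 := prod2 n1 n3 t1 t3
  have m2 := prod2 n2 n3 t2 t3
  have m3 := prod2 n1 n4 t1 t4
  rw [ev_lp] at hb
  simp only [lb, List.map_cons, List.map_nil, List.sum_cons, List.sum_nil, f, g, zpow_neg,
    pow_one, pow_zero, one_pow, one_mul, mul_one, Int.cast_one, add_zero, zpow_ofNat] at hb m1 m2 m3
  have A := hα (Sum.inl 0)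
  have P := hα (Sum.inl 1)
  have Q := hα (Sum.inl 2)
  have B := hα (Sum.inl 3)
  generalize α (Sum.inl 0) = a at *
  generalize α (Sum.inl 1) = p at *
  generalize α (Sum.inl 2) = q at *
  generalize α (Sum.inl 3) = b at *
  have e1 : a⁻¹ * b * (p⁻¹ * q * b) = a⁻¹ * p⁻¹ * b ^ 2 * q := by field_simp
  have e2 : a⁻¹ * p * q ^ 2 * b⁻¹ * (p⁻¹ * q * b) = a⁻¹ * q ^ 2 * q := by field_simp
  have e3 : a⁻¹ * b * (a * p⁻¹ * q * b⁻¹) = p⁻¹ * q := by field_simp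
  rw [e1] at m1
  rw [e2] at m2
  rw [e3] at m3
  have r1 : a⁻¹ * p⁻¹ * b ^ 2 ≤ a⁻¹ * p⁻¹ * b ^ 2 * q :=
    le_mul_of_one_le_right (by positivity) hQ
  have r2 : a⁻¹ * q ^ 2 ≤ a⁻¹ * q ^ 2 * q := le_mul_of_one_le_right (by positivity) hQ
  have r3 : p⁻¹ ≤ p⁻¹ * q := le_mul_of_one_le_right (by positivity) hQ
  linarith

theorem n3 {L : Lp 4 2} (hL : IsClusterVar (ev S₀.x L)) (hd : HomL L (4, -1)) :
    L.coeff (E (1, 0, 0, -1, 0, 1)) = 0 := by
  by_contra hu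
  obtain ⟨α, hα, h1, hv, hP, hQ, ha, hb, hc⟩ := point hC hL hd
  have hP := hP (by norm_num) (by decide)
  have ha := ha (by norm_num) (by decide)
  have hLe := coord_41 (inU_of_cv hL) hd
  rw [hLe, ev_add, ev_add, ev_smul, ev_smul, ev_smul] at hv
  have c1 := hc (E (0, -1, -2, 0, 1, 2))
  have c2 := hc (E (1, 0, 0, -1, 0, 1))
  have c3 := hc (E (3, 0, 0, -2, 0, 0))
  generalize L.coeff (E (0, -1, -2, 0, 1, 2)) = w at *
  generalize L.coeff (E (1, 0, 0, -1, 0, 1)) = u at *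
  generalize L.coeff (E (3, 0, 0, -2, 0, 0)) = v at *
  have q1 := cmul_nonneg (c1) (ev_lp_nonneg hα lz1 (by decide))
  have p2 := ev_lp_nonneg hα lX (by decide)
  have q3 := cmul_nonneg (c3) (ev_lp_nonneg hα lz3 (by decide))
  have f := h1 0
  have g := h1 1
  have h := coeff_le c2 hu p2 (by linarith)
  have t1 := (term_le hα lX (by decide) (1, (1, 0, 0, -1, 0, 1)) (by decide)).trans h
  have t2 := (term_le hα lX (by decide) (1, (-1, 2, 1, -1, 0, 1)) (by decide)).trans h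
  have t3 := (term_le hα lX (by decide) (1, (1, 1, -1, 0, 0, 0)) (by decide)).trans h
  have t4 := (term_le hα lX (by decide) (1, (-1, 1, -1, 1, 0, 1)) (by decide)).trans h
  have n1 := tv_nonneg hα (1, (1, 0, 0, -1, 0, 1)) (by decide)
  have n2 := tv_nonneg hα (1, (-1, 2, 1, -1, 0, 1)) (by decide)
  have n3 := tv_nonneg hα (1, (1, 1, -1, 0, 0, 0)) (by decide)
  have n4 := tv_nonneg hα (1, (-1, 1, -1, 1, 0, 1)) (by decide)
  have m1 := prod2 n1 n3 t1 t3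
  have m2 := prod2 n2 n3 t2 t3
  have m3 := prod2 n1 n4 t1 t4
  rw [ev_lp] at ha
  simp only [la, List.map_cons, List.map_nil, List.sum_cons, List.sum_nil, f, g, zpow_neg,
    pow_one, pow_zero, one_pow, one_mul, mul_one, Int.cast_one, add_zero, zpow_ofNat] at ha m1 m2 m3
  have A := hα (Sum.inl 0)
  have P := hα (Sum.inl 1)
  have Q := hα (Sum.inl 2)
  have B := hα (Sum.inl 3)
  generalize α (Sum.inl 0) = a at *
  generalize α (Sum.inl 1) = p at *
  generalize α (Sum.inl 2) = q at *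
  generalize α (Sum.inl 3) = b at *
  have e1 : a * b⁻¹ * (a * p * q⁻¹) = a ^ 2 * q⁻¹ * b⁻¹ * p := by field_simp
  have e2 : a⁻¹ * p ^ 2 * q * b⁻¹ * (a * p * q⁻¹) = p ^ 2 * b⁻¹ * p := by field_simp
  have e3 : a * b⁻¹ * (a⁻¹ * p * q⁻¹ * b) = q⁻¹ * p := by field_simp
  rw [e1] at m1
  rw [e2] at m2
  rw [e3] at m3
  have r1 : a ^ 2 * q⁻¹ * b⁻¹ ≤ a ^ 2 * q⁻¹ * b⁻¹ * p :=
    le_mul_of_one_le_right (by positivity) hP
  have r2 : p ^ 2 * b⁻¹ ≤ p ^ 2 * b⁻¹ * p := le_mul_of_one_le_right (by positivity) hP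
  have r3 : q⁻¹ ≤ q⁻¹ * p := le_mul_of_one_le_right (by positivity) hP
  linarith

theorem n4 {L : Lp 4 2} (hL : IsClusterVar (ev S₀.x L)) (hd : HomL L (2, 2)) :
    L.coeff (E (0, -2, -2, 0, 2, 2)) = 0 ∧ L.coeff (E (3, -1, 0, -2, 1, 0)) = 0 ∧
      L.coeff (E (0, 0, 2, -1, 0, 1)) = 0 ∧ L.coeff (E (2, 0, 2, -2, 0, 0)) = 0 := by
  obtain ⟨α, hα, h1, hv, hP, hQ, ha, hb, hc⟩ := point hC hL hd
  have hP := hP (by norm_num) (by decide)
  have hQ := hQ (by norm_num) (by decide)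
  have hLe := coord_22 (inU_of_cv hL) hd
  rw [hLe, ev_add, ev_add, ev_add, ev_add, ev_add, ev_smul, ev_smul, ev_smul, ev_smul, ev_smul,
    ev_smul] at hv
  have c1 := hc (E (0, -2, -2, 0, 2, 2))
  have c2 := hc (E (1, -1, 0, -1, 1, 1))
  have c3 := hc (E (3, -1, 0, -2, 1, 0))
  have c4 := hc (E (0, 0, 2, -1, 0, 1))
  have c5 := hc (E (2, 0, 2, -2, 0, 0))
  have c6 := hc (E (0, 1, 1, 0, 0, 0))
  generalize L.coeff (E (0, -2, -2, 0, 2, 2)) = u1 at *
  generalize L.coeff (E (1, -1, 0, -1, 1, 1)) = u2 at *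
  generalize L.coeff (E (3, -1, 0, -2, 1, 0)) = u3 at *
  generalize L.coeff (E (0, 0, 2, -1, 0, 1)) = u4 at *
  generalize L.coeff (E (2, 0, 2, -2, 0, 0)) = u5 at *
  generalize L.coeff (E (0, 1, 1, 0, 0, 0)) = u6 at *
  have p1 := ev_lp_nonneg hα lal (by decide)
  have p2 := ev_lp_nonneg hα lka (by decide)
  have p3 := ev_lp_nonneg hα lga (by decide)
  have p4 := ev_lp_nonneg hα lbe (by decide)
  have p5 := ev_lp_nonneg hα lde (by decide)
  have p6 := ev_lp_nonneg hα lPQ (by decide)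
  have q1 := cmul_nonneg (c1) p1
  have q2 := cmul_nonneg (c2) p2
  have q3 := cmul_nonneg (c3) p3
  have q4 := cmul_nonneg (c4) p4
  have q5 := cmul_nonneg (c5) p5
  have q6 := cmul_nonneg (c6) p6
  have A := hα (Sum.inl 0)
  have P := hα (Sum.inl 1)
  have Q := hα (Sum.inl 2)
  have B := hα (Sum.inl 3)
  have f := h1 0
  have g := h1 1
  refine ⟨?_, ?_, ?_, ?_⟩
  · by_contra hu
    have h := coeff_le c1 hu p1 (by linarith)
    have t1 := (term_le hα lal (by decide) (1, (-2, 0, 2, 0, 0, 2)) (by decide)).trans h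
    have t2 := (term_le hα lal (by decide) (1, (0, 2, 0, -2, 2, 0)) (by decide)).trans h
    have t3 := (term_le hα lal (by decide) (1, (2, -2, -2, 2, 0, 0)) (by decide)).trans h
    have n1 := tv_nonneg hα (1, (-2, 0, 2, 0, 0, 2)) (by decide)
    have n2 := tv_nonneg hα (1, (0, 2, 0, -2, 2, 0)) (by decide)
    have n3 := tv_nonneg hα (1, (2, -2, -2, 2, 0, 0)) (by decide)
    have h3 := prod3 n1 n2 n3 t1 t2 t3
    simp only [f, g, zpow_neg, pow_one, pow_zero, one_mul, mul_one, Int.cast_one,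
      zpow_ofNat, one_pow] at h3
    generalize α (Sum.inl 0) = a at *
    generalize α (Sum.inl 1) = p at *
    generalize α (Sum.inl 2) = q at *
    generalize α (Sum.inl 3) = b at *
    have h4 : (a ^ 2)⁻¹ * q ^ 2 * (p ^ 2 * (b ^ 2)⁻¹) *
        (a ^ 2 * (p ^ 2)⁻¹ * (q ^ 2)⁻¹ * b ^ 2) = 1 := by
      field_simp
    rw [h4] at h3
    norm_num at h3
  · by_contra hu
    have h := coeff_le c3 hu p3 (by linarith)
    have t1 := (term_le hα lga (by decide) (1, (-1, 2, 0, 0, 1, 0)) (by decide)).trans h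
    have t2 := (term_le hα lga (by decide) (1, (2, -1, 0, 0, 0, 0)) (by decide)).trans h
    have n1 := tv_nonneg hα (1, (-1, 2, 0, 0, 1, 0)) (by decide)
    have n2 := tv_nonneg hα (1, (2, -1, 0, 0, 0, 0)) (by decide)
    have h3 := prod3 n1 n1 n2 t1 t1 t2
    simp only [f, g, zpow_neg, pow_one, pow_zero, one_mul, mul_one, Int.cast_one,
      zpow_ofNat, one_pow] at h3
    generalize α (Sum.inl 0) = a at *
    generalize α (Sum.inl 1) = p at *
    have h4 : a⁻¹ * p ^ 2 * (a⁻¹ * p ^ 2) * (a ^ 2 * p⁻¹) = p ^ 3 := by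
      field_simp
    rw [h4] at h3
    have h5 : (1 : ℚ) ≤ p ^ 3 := one_le_pow₀ hP
    linarith
  · by_contra hu
    have h := coeff_le c4 hu p4 (by linarith)
    have t1 := (term_le hα lbe (by decide) (1, (0, 0, 2, -1, 0, 1)) (by decide)).trans h
    have t2 := (term_le hα lbe (by decide) (1, (0, 0, -1, 2, 0, 0)) (by decide)).trans h
    have n1 := tv_nonneg hα (1, (0, 0, 2, -1, 0, 1)) (by decide)
    have n2 := tv_nonneg hα (1, (0, 0, -1, 2, 0, 0)) (by decide)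
    have h3 := prod3 n1 n1 n2 t1 t1 t2
    simp only [f, g, zpow_neg, pow_one, pow_zero, one_mul, mul_one, Int.cast_one,
      zpow_ofNat, one_pow] at h3
    generalize α (Sum.inl 2) = q at *
    generalize α (Sum.inl 3) = b at *
    have h4 : q ^ 2 * b⁻¹ * (q ^ 2 * b⁻¹) * (q⁻¹ * b ^ 2) = q ^ 3 := by
      field_simp
    rw [h4] at h3
    have h5 : (1 : ℚ) ≤ q ^ 3 := one_le_pow₀ hQ
    linarith
  · by_contra hu
    have h := coeff_le c5 hu p5 (by linarith)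
    have t1 := (term_le hα lde (by decide) (1, (-2, 2, 0, 2, 0, 0)) (by decide)).trans h
    have t2 := (term_le hα lde (by decide) (1, (2, 0, 2, -2, 0, 0)) (by decide)).trans h
    have n1 := tv_nonneg hα (1, (-2, 2, 0, 2, 0, 0)) (by decide)
    have n2 := tv_nonneg hα (1, (2, 0, 2, -2, 0, 0)) (by decide)
    have h3 := prod2 n1 n2 t1 t2
    simp only [f, g, zpow_neg, pow_one, pow_zero, one_mul, mul_one, Int.cast_one,
      zpow_ofNat, one_pow] at h3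
    generalize α (Sum.inl 0) = a at *
    generalize α (Sum.inl 1) = p at *
    generalize α (Sum.inl 2) = q at *
    generalize α (Sum.inl 3) = b at *
    have h4 : (a ^ 2)⁻¹ * p ^ 2 * b ^ 2 * (a ^ 2 * q ^ 2 * (b ^ 2)⁻¹) = p ^ 2 * q ^ 2 := by
      field_simp
    rw [h4] at h3
    have h5 : (1 : ℚ) ≤ p ^ 2 := one_le_pow₀ hP
    have h6 : (1 : ℚ) ≤ q ^ 2 := one_le_pow₀ hQ
    nlinarith

end

end Pool.Agent.LibSP
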