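import Pool.Agent.LibSP.FinB

/-!
The contradiction.
-/

set_option autoImplicit false

namespace Pool.Agent.LibSP

open AddMonoidAlgebra

lemma mem_of_clusterVar {C : Set K₀} (hC : StronglyPositiveBasis S₀ C) {y : K₀}
    (hy : IsClusterVar y) : y ∈ C := by
  obtain ⟨s, hs, k, rfl⟩ := hy
  refine hC.monomials _ ⟨s, hs, Pi.single (Sum.inl k) 1, ?_⟩
  rw [Finset.prod_eq_single (Sum.inl k)]
  · simp
  · intro j _ hj
    simp [hj]
  · simp

/-- The element with given coordinates. -/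
noncomputable def vl {C : Set K₀} (γ : C →₀ ℕ) : K₀ := γ.sum fun c a => a • (c : K₀)

lemma vl_add {C : Set K₀} (γ δ : C →₀ ℕ) : vl (γ + δ) = vl γ + vl δ := by
  rw [vl, Finsupp.sum_add_index']
  · rfl
  · intro c; simp
  · intro c a b; rw [add_smul]

lemma vl_mem {C : Set K₀} (hC : StronglyPositiveBasis S₀ C) (γ : C →₀ ℕ) :
    vl γ ∈ clusterAlg S₀ := by
  rw [← hC.span, vl, Finsupp.sum]
  refine Submodule.sum_mem _ fun c _ => ?_
  rw [← natCast_zsmul]
  exact Submodule.smul_mem _ _ (Submodule.subset_span c.2)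

lemma vl_exists {C : Set K₀} (hC : StronglyPositiveBasis S₀ C) (γ : C →₀ ℕ) :
    ∃ L : Lp 4 2, ev S₀.x L = vl γ ∧ (∀ m, 0 ≤ L.coeff m) ∧ InU L := by
  have hU : ∀ y ∈ clusterAlg S₀, Univ S₀ y := fun y hy => univ_of_mem good_S₀ hy
  have hc : ∀ c : C, ∃ L : Lp 4 2, ev S₀.x L = c ∧ ∀ m, 0 ≤ L.coeff m := by
    intro c
    obtain ⟨L, _, hL⟩ := hU c ((hC.span _).1 (Submodule.subset_span c.2)) S₀ Reach.refl
    exact ⟨L, hL, fun m => pos_of_basis good_S₀ hC c.2 Reach.refl hL m⟩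
  choose F hF hF' using hc
  refine ⟨∑ c ∈ γ.support, (γ c : ℤ) • F c, ?_, ?_, ?_⟩
  · rw [ev_sum, vl, Finsupp.sum]
    refine Finset.sum_congr rfl fun c _ => ?_
    rw [ev_smul, hF, nsmul_eq_mul]
    push_cast
    rfl
  · intro m
    rw [coeff_sum, Finsupp.finsetSum_apply]
    refine Finset.sum_nonneg fun c _ => ?_
    rw [coeff_smul_apply, smul_eq_mul]
    exact mul_nonneg (by positivity) (hF' c m)
  · have h1 : ev S₀.x (∑ c ∈ γ.support, (γ c : ℤ) • F c) = vl γ := by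
      rw [ev_sum, vl, Finsupp.sum]
      refine Finset.sum_congr rfl fun c _ => ?_
      rw [ev_smul, hF, nsmul_eq_mul]
      push_cast
      rfl
    rw [InU, h1]
    exact hU _ (vl_mem hC γ)

lemma vl_injective {C : Set K₀} (hC : StronglyPositiveBasis S₀ C) {γ δ : C →₀ ℕ}
    (h : vl γ = vl δ) : γ = δ := by
  have hl := hC.indep
  have h1 := (linearIndependent_iff'.1 hl) (γ.support ∪ δ.support)
    (fun c => (γ c : ℤ) - δ c) (by
      have e1 : vl γ = ∑ c ∈ γ.support ∪ δ.support, (γ c : ℤ) • (c : K₀) := by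
        rw [vl, Finsupp.sum]
        refine (Finset.sum_subset Finset.subset_union_left ?_).trans
          (Finset.sum_congr rfl fun c _ => (natCast_zsmul _ _).symm)
        intro c _ hc
        rw [Finsupp.notMem_support_iff.1 hc, zero_smul]
      have e2 : vl δ = ∑ c ∈ γ.support ∪ δ.support, (δ c : ℤ) • (c : K₀) := by
        rw [vl, Finsupp.sum]
        refine (Finset.sum_subset Finset.subset_union_right ?_).trans
          (Finset.sum_congr rfl fun c _ => (natCast_zsmul _ _).symm)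
        intro c _ hc
        rw [Finsupp.notMem_support_iff.1 hc, zero_smul]
      simp only [sub_smul, Finset.sum_sub_distrib]
      rw [← e1, ← e2, h, sub_self])
  ext c
  by_cases hc : c ∈ γ.support ∪ δ.support
  · have := h1 c hc
    omega
  · rw [Finset.mem_union, not_or, Finsupp.notMem_support_iff, Finsupp.notMem_support_iff] at hc
    rw [hc.1, hc.2]

theorem no_basis : ¬ ∃ C, StronglyPositiveBasis S₀ C := by
  rintro ⟨C, hC⟩
  have inj := ev_injective good_S₀.ai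
  obtain ⟨g1, e1⟩ := hC.pos _ (mem_of_clusterVar hC cv_a) _ (mem_of_clusterVar hC cv_z2)
  obtain ⟨g2, e2⟩ := hC.pos _ (mem_of_clusterVar hC cv_b) _ (mem_of_clusterVar hC cv_z1)
  obtain ⟨g3, e3⟩ := hC.pos _ (mem_of_clusterVar hC cv_a) _ (mem_of_clusterVar hC cv_z4)
  obtain ⟨g4, e4⟩ := hC.pos _ (mem_of_clusterVar hC cv_b) _ (mem_of_clusterVar hC cv_z3)
  have hx := ne_zero_of_ai good_S₀.ai
  rw [← ev_mul hx, id_p1] at e1
  rw [← ev_mul hx, id_p2] at e2
  rw [← ev_mul hx, id_p3] at e3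
  rw [← ev_mul hx, id_p4] at e4
  have hsum : g1 + g4 = g2 + g3 := by
    apply vl_injective hC
    rw [vl_add, vl_add, vl, vl, vl, vl, ← e1, ← e2, ← e3, ← e4, ← ev_add, ← ev_add]
    congr 1
    abel
  -- refinement
  have hb : g1 - g1 ⊓ g2 ≤ g3 := by
    intro c
    have := DFunLike.congr_fun hsum c
    simp only [Finsupp.add_apply] at this
    simp only [Finsupp.tsub_apply, Finsupp.inf_apply]
    omega
  have d1 : g1 ⊓ g2 + (g1 - g1 ⊓ g2) = g1 := add_tsub_cancel_of_le inf_le_left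
  have d2 : g1 ⊓ g2 + (g2 - g1 ⊓ g2) = g2 := add_tsub_cancel_of_le inf_le_right
  have d3 : (g1 - g1 ⊓ g2) + (g3 - (g1 - g1 ⊓ g2)) = g3 := add_tsub_cancel_of_le hb
  obtain ⟨LA, hA, hA', -⟩ := vl_exists hC (g1 ⊓ g2)
  obtain ⟨LB, hB, hB', hBU⟩ := vl_exists hC (g1 - g1 ⊓ g2)
  obtain ⟨LC, hLC, hC', -⟩ := vl_exists hC (g2 - g1 ⊓ g2)
  obtain ⟨LD, hD, hD', -⟩ := vl_exists hC (g3 - (g1 - g1 ⊓ g2))
  have s1 : LA + LB = lp lal + lp lbe + 2 • lp lka := by
    apply inj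
    rw [e1, ev_add, hA, hB, ← vl_add, d1]
    rfl
  have s2 : LA + LC = lp lal + lp lga + 2 • lp lka := by
    apply inj
    rw [e2, ev_add, hA, hLC, ← vl_add, d2]
    rfl
  have s3 : LB + LD = lp lbe + lp lde + 2 • lp lPQ := by
    apply inj
    rw [e3, ev_add, hB, hD, ← vl_add, d3]
    rfl
  -- coefficients
  have c1 : ∀ e, LA.coeff (E e) + LB.coeff (E e) = cf lal e + cf lbe e + 2 * cf lka e := by
    intro e
    have := congrArg (fun L : Lp 4 2 => L.coeff (E e)) s1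
    simpa [coeff_lp, two_mul, two_nsmul] using this
  have c2 : ∀ e, LA.coeff (E e) + LC.coeff (E e) = cf lal e + cf lga e + 2 * cf lka e := by
    intro e
    have := congrArg (fun L : Lp 4 2 => L.coeff (E e)) s2
    simpa [coeff_lp, two_mul, two_nsmul] using this
  have c3 : ∀ e, LB.coeff (E e) + LD.coeff (E e) = cf lbe e + cf lde e + 2 * cf lPQ e := by
    intro e
    have := congrArg (fun L : Lp 4 2 => L.coeff (E e)) s3
    simpa [coeff_lp, two_mul, two_nsmul] using this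
  have b1 : LB.coeff (E (0, -2, -2, 0, 2, 2)) = 0 := by
    have h1 := c3 (0, -2, -2, 0, 2, 2)
    have h2 := hB' (E (0, -2, -2, 0, 2, 2))
    have h3 := hD' (E (0, -2, -2, 0, 2, 2))
    have h4 : cf lbe (0, -2, -2, 0, 2, 2) + cf lde (0, -2, -2, 0, 2, 2) +
      2 * cf lPQ (0, -2, -2, 0, 2, 2) = 0 := by decide
    omega
  have b3 : LB.coeff (E (3, -1, 0, -2, 1, 0)) = 0 := by
    have h1 := c3 (3, -1, 0, -2, 1, 0)
    have h2 := hB' (E (3, -1, 0, -2, 1, 0))
    have h3 := hD' (E (3, -1, 0, -2, 1, 0))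
    have h4 : cf lbe (3, -1, 0, -2, 1, 0) + cf lde (3, -1, 0, -2, 1, 0) +
      2 * cf lPQ (3, -1, 0, -2, 1, 0) = 0 := by decide
    omega
  have b5 : LB.coeff (E (2, 0, 2, -2, 0, 0)) = 0 := by
    have h1 := c1 (2, 0, 2, -2, 0, 0)
    have h2 := hB' (E (2, 0, 2, -2, 0, 0))
    have h3 := hA' (E (2, 0, 2, -2, 0, 0))
    have h4 : cf lal (2, 0, 2, -2, 0, 0) + cf lbe (2, 0, 2, -2, 0, 0) +
      2 * cf lka (2, 0, 2, -2, 0, 0) = 0 := by decide
    omega
  have b4 : LB.coeff (E (0, 0, 2, -1, 0, 1)) = 0 := by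
    have h1 := c1 (0, 0, 2, -1, 0, 1)
    have h2 := hB' (E (0, 0, 2, -1, 0, 1))
    have h3 := hA' (E (0, 0, 2, -1, 0, 1))
    have h4 : cf lal (0, 0, 2, -1, 0, 1) + cf lbe (0, 0, 2, -1, 0, 1) +
      2 * cf lka (0, 0, 2, -1, 0, 1) = 1 := by decide
    have h5 : Even (eps LB) := eps_even hC (by rw [hB]; exact vl_mem hC _)
    rw [eps, b1, b3, b5] at h5
    obtain ⟨y, hy⟩ := h5
    omega
  -- then `LB = 0` and `LA` is the whole of the first product
  have h1 := c1 (0, 0, 2, -1, 0, 1)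
  have h2 := c2 (0, 0, 2, -1, 0, 1)
  have h3 := hC' (E (0, 0, 2, -1, 0, 1))
  have h4 : cf lal (0, 0, 2, -1, 0, 1) + cf lbe (0, 0, 2, -1, 0, 1) +
      2 * cf lka (0, 0, 2, -1, 0, 1) = 1 := by decide
  have h5 : cf lal (0, 0, 2, -1, 0, 1) + cf lga (0, 0, 2, -1, 0, 1) +
      2 * cf lka (0, 0, 2, -1, 0, 1) = 0 := by decide
  omega

end Pool.Agent.LibSP
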