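import Pool.Agent.LibSP.Defs

/-!
Laurent polynomials with integer coefficients and their evaluation.
-/

set_option autoImplicit false

namespace Pool.Agent.LibSP

open AddMonoidAlgebra

/-- Laurent polynomials with integer coefficients in the variables indexed by `Idx n r`. -/
abbrev Lp (n r : ℕ) := AddMonoidAlgebra ℤ (Idx n r → ℤ)

variable {K : Type} [Field K] {n r : ℕ}

/-- The Laurent monomial with exponent `m` at the point `x`. -/
noncomputable def mono (x : Idx n r → K) (m : Idx n r → ℤ) : K := ∏ i, x i ^ m i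

/-- The value of a Laurent polynomial at the point `x`. -/
noncomputable def ev (x : Idx n r → K) (L : Lp n r) : K :=
  L.coeff.sum fun m c => (c : K) * mono x m

lemma mono_zero (x : Idx n r → K) : mono x 0 = 1 := by simp [mono]

lemma mono_add {x : Idx n r → K} (hx : ∀ i, x i ≠ 0) (m m' : Idx n r → ℤ) :
    mono x (m + m') = mono x m * mono x m' := by
  simp only [mono, Pi.add_apply, ← Finset.prod_mul_distrib]
  exact Finset.prod_congr rfl fun i _ => zpow_add₀ (hx i) _ _

lemma mono_neg {x : Idx n r → K} (m : Idx n r → ℤ) :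
    mono x (-m) = (mono x m)⁻¹ := by
  simp only [mono, Pi.neg_apply, zpow_neg, Finset.prod_inv_distrib]

lemma mono_sub {x : Idx n r → K} (hx : ∀ i, x i ≠ 0) (m m' : Idx n r → ℤ) :
    mono x (m - m') = mono x m / mono x m' := by
  rw [sub_eq_add_neg, mono_add hx, mono_neg, div_eq_mul_inv]

lemma mono_ne_zero {x : Idx n r → K} (hx : ∀ i, x i ≠ 0) (m : Idx n r → ℤ) : mono x m ≠ 0 :=
  Finset.prod_ne_zero_iff.2 fun i _ => zpow_ne_zero _ (hx i)

lemma mono_single (x : Idx n r → K) (i : Idx n r) (a : ℤ) :
    mono x (Pi.single i a) = x i ^ a := by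
  rw [mono, Finset.prod_eq_single i]
  · simp
  · intro j _ hj
    simp [hj]
  · simp

/-- Evaluation as a ring homomorphism. -/
noncomputable def evH (x : Idx n r → K) (hx : ∀ i, x i ≠ 0) : Lp n r →+* K :=
  AddMonoidAlgebra.liftNCRingHom (Int.castRingHom K)
    { toFun := fun m => mono x (Multiplicative.toAdd m)
      map_one' := mono_zero x
      map_mul' := fun _ _ => mono_add hx _ _ } (fun _ _ => Commute.all _ _)

lemma evH_single (x : Idx n r → K) (hx : ∀ i, x i ≠ 0) (m : Idx n r → ℤ) (c : ℤ) :
    evH x hx (single m c) = c * mono x m := by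
  simp [evH, AddMonoidAlgebra.liftNCRingHom]

lemma ev_zero (x : Idx n r → K) : ev x 0 = 0 := by simp [ev]

lemma ev_add (x : Idx n r → K) (L L' : Lp n r) : ev x (L + L') = ev x L + ev x L' := by
  rw [ev, coeff_add, Finsupp.sum_add_index']
  · rfl
  · intro m; simp
  · intro m a b; push_cast; ring

lemma ev_single (x : Idx n r → K) (m : Idx n r → ℤ) (c : ℤ) :
    ev x (single m c) = c * mono x m := by
  simp [ev]

lemma evH_apply (x : Idx n r → K) (hx : ∀ i, x i ≠ 0) (L : Lp n r) : evH x hx L = ev x L := by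
  induction L using AddMonoidAlgebra.induction_linear with
  | zero => rw [map_zero, ev_zero]
  | add f g hf hg => rw [map_add, ev_add, hf, hg]
  | single m c => rw [evH_single, ev_single]

lemma ev_mul {x : Idx n r → K} (hx : ∀ i, x i ≠ 0) (L L' : Lp n r) :
    ev x (L * L') = ev x L * ev x L' := by
  rw [← evH_apply x hx, map_mul, evH_apply, evH_apply]

lemma ev_one (x : Idx n r → K) : ev x 1 = 1 := by
  rw [one_def, ev_single]; simp [mono_zero]

lemma ev_pow {x : Idx n r → K} (hx : ∀ i, x i ≠ 0) (L : Lp n r) (k : ℕ) :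
    ev x (L ^ k) = ev x L ^ k := by
  rw [← evH_apply x hx, map_pow, evH_apply]

lemma ev_neg (x : Idx n r → K) (L : Lp n r) : ev x (-L) = -ev x L := by
  have := ev_add x L (-L)
  rw [add_neg_cancel, ev_zero] at this
  linear_combination -this

lemma ev_sub (x : Idx n r → K) (L L' : Lp n r) : ev x (L - L') = ev x L - ev x L' := by
  rw [sub_eq_add_neg, ev_add, ev_neg, sub_eq_add_neg]

lemma ev_smul (x : Idx n r → K) (a : ℤ) (L : Lp n r) : ev x (a • L) = a * ev x L := by
  induction L using AddMonoidAlgebra.induction_linear with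
  | zero => rw [smul_zero, ev_zero, mul_zero]
  | add f g hf hg => rw [smul_add, ev_add, ev_add, hf, hg, mul_add]
  | single m c => rw [smul_single, ev_single, ev_single]; push_cast [smul_eq_mul]; ring

lemma ev_sum {ι : Type*} (x : Idx n r → K) (s : Finset ι) (L : ι → Lp n r) :
    ev x (∑ i ∈ s, L i) = ∑ i ∈ s, ev x (L i) := by
  classical
  induction s using Finset.induction_on with
  | empty => simp [ev_zero]
  | insert i s hi ih => rw [Finset.sum_insert hi, Finset.sum_insert hi, ev_add, ih]

/-- The Laurent polynomial of a polynomial. -/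
noncomputable def ofPoly : MvPolynomial (Idx n r) ℤ →ₐ[ℤ] Lp n r :=
  MvPolynomial.aeval fun i => single (Pi.single i 1) 1

lemma single_prod (e : Idx n r →₀ ℕ) :
    (e.prod fun i k => (single (Pi.single i 1) 1 : Lp n r) ^ k) =
      single (fun i => (e i : ℤ)) 1 := by
  classical
  have h : ∀ i (k : ℕ), (single (Pi.single i (1 : ℤ)) 1 : Lp n r) ^ k =
      single (Pi.single i (k : ℤ)) 1 := by
    intro i k
    rw [single_pow, one_pow]
    congr 1
    funext j
    rcases eq_or_ne j i with rfl | h
    · simp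
    · simp [h]
  rw [Finsupp.prod_fintype _ _ (by simp)]
  simp only [h]
  rw [AddMonoidAlgebra.prod_single]
  simp only [Finset.prod_const_one]
  congr 1
  funext j
  rw [Finset.sum_apply, Finset.sum_eq_single j]
  · simp
  · intro b _ hb
    simp [hb.symm]
  · simp

lemma ofPoly_monomial (e : Idx n r →₀ ℕ) (c : ℤ) :
    (ofPoly (MvPolynomial.monomial e c) : Lp n r) = single (fun i => (e i : ℤ)) c := by
  rw [ofPoly, MvPolynomial.aeval_monomial, single_prod]
  rw [← Algebra.smul_def, smul_single, smul_eq_mul, mul_one]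

lemma ev_ofPoly (x : Idx n r → K) (p : MvPolynomial (Idx n r) ℤ) :
    ev x (ofPoly p) = MvPolynomial.aeval x p := by
  induction p using MvPolynomial.induction_on' with
  | monomial e c =>
    rw [ofPoly_monomial, ev_single, MvPolynomial.aeval_monomial, mono,
      Finsupp.prod_fintype _ _ (by simp)]
    simp
  | add p q hp hq => rw [map_add, ev_add, hp, hq, map_add]

lemma ofPoly_injective : Function.Injective (ofPoly : MvPolynomial (Idx n r) ℤ → Lp n r) := by
  classical
  have hinj : Function.Injective
      (fun e : Idx n r →₀ ℕ => (fun i => (e i : ℤ) : Idx n r → ℤ)) := by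
    intro e e' h
    ext i
    have h' := congrFun h i
    simpa using h'
  have key : ∀ p : MvPolynomial (Idx n r) ℤ, ∀ e : Idx n r →₀ ℕ,
      (ofPoly p : Lp n r).coeff (fun i => (e i : ℤ)) = p.coeff e := by
    intro p
    induction p using MvPolynomial.induction_on' with
    | monomial e' c =>
      intro e
      rw [ofPoly_monomial, MvPolynomial.coeff_monomial, coeff_single, Finsupp.single_apply]
      by_cases h : e' = e
      · simp [h]
      · rw [if_neg h, if_neg]
        intro h'
        exact h (hinj h')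
    | add p q hp hq =>
      intro e
      rw [map_add, coeff_add, Finsupp.add_apply, hp, hq, MvPolynomial.coeff_add]
  intro p q h
  ext e
  rw [← key p e, ← key q e, h]

/-- Multiplying a Laurent polynomial by a high power of all variables gives a polynomial. -/
lemma exists_poly (L : Lp n r) : ∃ N₀ : ℕ, ∀ N : ℕ, N₀ ≤ N →
    ∃ p : MvPolynomial (Idx n r) ℤ, L * single (fun _ => (N : ℤ)) 1 = ofPoly p := by
  induction L using AddMonoidAlgebra.induction_linear with
  | zero => exact ⟨0, fun N _ => ⟨0, by simp⟩⟩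
  | add f g hf hg =>
    obtain ⟨N₁, h₁⟩ := hf
    obtain ⟨N₂, h₂⟩ := hg
    refine ⟨max N₁ N₂, fun N hN => ?_⟩
    obtain ⟨p, hp⟩ := h₁ N (le_trans (le_max_left _ _) hN)
    obtain ⟨q, hq⟩ := h₂ N (le_trans (le_max_right _ _) hN)
    exact ⟨p + q, by rw [add_mul, hp, hq, map_add]⟩
  | single m c =>
    refine ⟨∑ i, (m i).natAbs, fun N hN => ?_⟩
    refine ⟨MvPolynomial.monomial (Finsupp.equivFunOnFinite.symm fun i => (m i + N).toNat) c, ?_⟩
    rw [ofPoly_monomial, single_mul_single, mul_one]
    congr 1
    funext i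
    have h1 : (m i).natAbs ≤ N :=
      le_trans (Finset.single_le_sum (f := fun i => (m i).natAbs) (by simp) (Finset.mem_univ i)) hN
    simp only [Pi.add_apply, Finsupp.equivFunOnFinite_symm_apply_apply]
    omega

lemma ne_zero_of_ai {x : Idx n r → K} (hx : AlgebraicIndependent ℤ x) (i : Idx n r) : x i ≠ 0 :=
  hx.ne_zero i

/-- Evaluation at algebraically independent elements is injective. -/
lemma ev_injective {x : Idx n r → K} (hx : AlgebraicIndependent ℤ x) :
    Function.Injective (ev x : Lp n r → K) := by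
  have h0 : ∀ i, x i ≠ 0 := ne_zero_of_ai hx
  have key : ∀ L : Lp n r, ev x L = 0 → L = 0 := by
    intro L hL
    obtain ⟨N₀, hN⟩ := exists_poly L
    obtain ⟨p, hp⟩ := hN N₀ le_rfl
    have h1 : MvPolynomial.aeval x p = 0 := by
      rw [← ev_ofPoly, ← hp, ev_mul h0, hL, zero_mul]
    have h2 : p = 0 := by
      apply hx
      rw [h1, map_zero]
    rw [h2, map_zero] at hp
    have h3 := congrArg (· * (single (fun _ => -(N₀ : ℤ)) 1 : Lp n r)) hp
    simp only [mul_assoc, single_mul_single, zero_mul] at h3
    have h4 : ((fun _ => (N₀ : ℤ)) + fun _ => -(N₀ : ℤ) : Idx n r → ℤ) = 0 := by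
      funext i; simp
    rw [h4, mul_one] at h3
    have h5 : (single (0 : Idx n r → ℤ) (1 : ℤ) : Lp n r) = 1 := rfl
    rwa [h5, mul_one] at h3
  intro L L' h
  have := key (L - L') (by rw [ev_sub, h, sub_self])
  exact sub_eq_zero.1 this

/-- `u` is a Laurent polynomial in `x` with nonnegative exponents of the coefficient
variables. -/
def Lau (x : Idx n r → K) (u : K) : Prop :=
  ∃ L : Lp n r, (∀ m, L.coeff m ≠ 0 → ∀ j : Fin r, 0 ≤ m (Sum.inr j)) ∧ ev x L = u

end Pool.Agent.LibSP
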