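import Pool.Agent.LibSP.Defs

/-!
Matrix mutation: involution, skew-symmetry, linear independence of the columns.
-/

set_option autoImplicit false

namespace Pool.Agent.LibSP

variable {n r : ℕ}

/-- The top part is skew-symmetric. -/
def SkewSymm (B : EMat n r) : Prop := ∀ i j : Fin n, B (Sum.inl i) j = -B (Sum.inl j) i

/-- The columns are linearly independent. -/
def ColIndep (B : EMat n r) : Prop :=
  ∀ c : Fin n → ℤ, (∀ i, ∑ j, B i j * c j = 0) → c = 0

lemma mutMat_row (B : EMat n r) (k j : Fin n) : mutMat B k (Sum.inl k) j = -B (Sum.inl k) j := by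
  simp [mutMat]

lemma mutMat_col (B : EMat n r) (k : Fin n) (i : Idx n r) : mutMat B k i k = -B i k := by
  simp [mutMat]

lemma mutMat_off_aux (a c : ℤ) : (|a| * c + a * |c|) / 2 = max a 0 * c + a * max (-c) 0 := by
  rcases le_total 0 a with ha | ha <;> rcases le_total 0 c with hc | hc
  · rw [abs_of_nonneg ha, abs_of_nonneg hc, max_eq_left ha, max_eq_right (by omega)]
    rw [show a * c + a * c = 2 * (a * c) by ring]
    simp
  · rw [abs_of_nonneg ha, abs_of_nonpos hc, max_eq_left ha, max_eq_left (by omega)]
    rw [show a * c + a * -c = 0 by ring]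
    simp
  · rw [abs_of_nonpos ha, abs_of_nonneg hc, max_eq_right ha, max_eq_right (by omega)]
    rw [show -a * c + a * c = 0 by ring]
    simp
  · rw [abs_of_nonpos ha, abs_of_nonpos hc, max_eq_right ha, max_eq_left (by omega)]
    rw [show -a * c + a * -c = 2 * (-(a * c)) by ring, Int.mul_ediv_cancel_left _ (by norm_num)]
    ring

lemma mutMat_off (B : EMat n r) (k j : Fin n) (i : Idx n r) (hi : i ≠ Sum.inl k) (hj : j ≠ k) :
    mutMat B k i j = B i j + max (B i k) 0 * B (Sum.inl k) j
      + B i k * max (-B (Sum.inl k) j) 0 := by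
  unfold mutMat
  rw [if_neg (by simp [hi, hj]), mutMat_off_aux]
  ring

lemma max_sub_max_neg (a : ℤ) : max a 0 - max (-a) 0 = a := by
  rcases le_total 0 a with ha | ha
  · rw [max_eq_left ha, max_eq_right (by omega)]; ring
  · rw [max_eq_right ha, max_eq_left (by omega)]; ring

theorem mutMat_mutMat {B : EMat n r} (h : SkewSymm B) (k : Fin n) :
    mutMat (mutMat B k) k = B := by
  funext i j
  by_cases hi : i = Sum.inl k
  · subst hi
    rw [mutMat_row, mutMat_row, neg_neg]
  by_cases hj : j = k
  · subst hj
    rw [mutMat_col, mutMat_col, neg_neg]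
  rw [mutMat_off _ _ _ _ hi hj, mutMat_off _ _ _ _ hi hj, mutMat_col, mutMat_row, neg_neg]
  have h1 := max_sub_max_neg (B i k)
  have h2 := max_sub_max_neg (B (Sum.inl k) j)
  linear_combination (B (Sum.inl k) j) * h1 - (B i k) * h2

theorem SkewSymm.mut {B : EMat n r} (h : SkewSymm B) (k : Fin n) : SkewSymm (mutMat B k) := by
  intro i j
  by_cases hi : i = k
  · subst hi
    rw [mutMat_row, mutMat_col, h i j, neg_neg]
  by_cases hj : j = k
  · subst hj
    rw [mutMat_row, mutMat_col, h i j]
  rw [mutMat_off _ _ _ _ (by simpa using hi) hj, mutMat_off _ _ _ _ (by simpa using hj) hi,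
    h i j, h k j, h k i, neg_neg, neg_neg]
  ring

lemma SkewSymm.diag {B : EMat n r} (h : SkewSymm B) (k : Fin n) : B (Sum.inl k) k = 0 := by
  have := h k k
  omega

theorem ColIndep.mut {B : EMat n r} (hs : SkewSymm B) (h : ColIndep B) (k : Fin n) :
    ColIndep (mutMat B k) := by
  intro c hc
  have hrow : ∑ j, B (Sum.inl k) j * c j = 0 := by
    have := hc (Sum.inl k)
    simp only [mutMat_row, neg_mul, Finset.sum_neg_distrib, neg_eq_zero] at this
    exact this
  have hkk := hs.diag k
  set t : ℤ := ∑ j, max (-B (Sum.inl k) j) 0 * c j with ht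
  have hz : Function.update c k (t - c k) = 0 := by
    apply h
    intro i
    by_cases hi : i = Sum.inl k
    · subst hi
      rw [← hrow]
      apply Finset.sum_congr rfl
      intro j _
      by_cases hj : j = k
      · subst hj
        rw [hkk, zero_mul, zero_mul]
      · rw [Function.update_of_ne hj]
    · have h1 := hc i
      have h2 : ∀ j, mutMat B k i j * c j = B i j * Function.update c k (t - c k) j
          + max (B i k) 0 * (B (Sum.inl k) j * c j)
          + B i k * (max (-B (Sum.inl k) j) 0 * c j)
          - (if j = k then B i k * t else 0) := by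
        intro j
        by_cases hj : j = k
        · subst hj
          rw [mutMat_col, Function.update_self, hkk, if_pos rfl]
          simp
          ring
        · rw [mutMat_off _ _ _ _ hi hj, Function.update_of_ne hj, if_neg hj]
          ring
      simp only [h2, Finset.sum_sub_distrib, Finset.sum_add_distrib, ← Finset.mul_sum, hrow,
        ← ht, Finset.sum_ite_eq', Finset.mem_univ, if_true] at h1
      linarith
  have hne : ∀ j, j ≠ k → c j = 0 := by
    intro j hj
    have := congrFun hz j
    rw [Function.update_of_ne hj] at this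
    exact this
  have ht0 : t = 0 := by
    rw [ht]
    apply Finset.sum_eq_zero
    intro j _
    by_cases hj : j = k
    · subst hj
      rw [hkk]; simp
    · rw [hne j hj, mul_zero]
  funext j
  by_cases hj : j = k
  · subst hj
    have := congrFun hz j
    rw [Function.update_self, ht0] at this
    simpa using this
  · exact hne j hj

lemma ColIndep.ne_zero {B : EMat n r} (h : ColIndep B) (k : Fin n) : ∃ i, B i k ≠ 0 := by
  by_contra hcon
  push Not at hcon
  have := h (Pi.single k 1) (fun i => by simp [Pi.single_apply, hcon])
  have := congrFun this k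
  simp at this

/-- Two different columns are not proportional. -/
lemma ColIndep.two {B : EMat n r} (h : ColIndep B) {j k : Fin n} (hjk : j ≠ k) {a b : ℤ}
    (hab : ∀ i, a * B i j = b * B i k) : a = 0 ∧ b = 0 := by
  have h0 := h (Pi.single j a - Pi.single k b) (fun i => by
    simp only [Pi.sub_apply, mul_sub, Finset.sum_sub_distrib, Pi.single_apply, mul_ite, mul_zero,
      Finset.sum_ite_eq', Finset.mem_univ, if_true]
    linarith [hab i])
  have hj := congrFun h0 j
  have hk := congrFun h0 k
  simp only [Pi.sub_apply, Pi.single_eq_same, Pi.single_eq_of_ne hjk,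
    Pi.single_eq_of_ne hjk.symm, Pi.zero_apply] at hj hk
  constructor <;> linarith

/-- If all degrees balance in every column, this persists under mutation (with the new degree). -/
theorem balanced_mut {M : Type} [AddCommGroup M] {B : EMat n r} (h : SkewSymm B) (k : Fin n)
    (D : Idx n r → M) (hD : ∀ j, ∑ i, B i j • D i = 0) (j : Fin n) :
    ∑ i, mutMat B k i j • Function.update D (Sum.inl k)
      ((∑ i, max (B i k) 0 • D i) - D (Sum.inl k)) i = 0 := by
  have hkk := h.diag k
  set S : M := ∑ i, max (B i k) 0 • D i with hS
  by_cases hj : j = k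
  · subst hj
    rw [← neg_eq_zero, ← Finset.sum_neg_distrib, ← hD j]
    apply Finset.sum_congr rfl
    intro i _
    rw [mutMat_col, neg_smul, neg_neg]
    by_cases hi : i = Sum.inl j
    · subst hi
      rw [hkk, zero_smul, zero_smul]
    · rw [Function.update_of_ne hi]
  · have h2 : ∀ i, mutMat B k i j • Function.update D (Sum.inl k) (S - D (Sum.inl k)) i
        = B i j • D i + B (Sum.inl k) j • (max (B i k) 0 • D i)
          + max (-B (Sum.inl k) j) 0 • (B i k • D i)
          - (if i = Sum.inl k then B (Sum.inl k) j • S else 0) := by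
      intro i
      by_cases hi : i = Sum.inl k
      · subst hi
        rw [mutMat_row, Function.update_self, hkk, if_pos rfl]
        simp only [max_self, zero_smul, smul_zero, add_zero, smul_sub, neg_smul]
        abel
      · rw [mutMat_off _ _ _ _ hi hj, Function.update_of_ne hi, if_neg hi, sub_zero]
        simp only [add_smul, smul_smul]
        rw [mul_comm (max (B i k) 0) (B (Sum.inl k) j), mul_comm (B i k) (max _ 0)]
    simp only [h2, Finset.sum_sub_distrib, Finset.sum_add_distrib, ← Finset.smul_sum, hD,
      ← hS, Finset.sum_ite_eq', Finset.mem_univ, if_true, smul_zero]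
    abel

end Pool.Agent.LibSP
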