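import Pool.Agent.LibSP.Lp

/-!
Laurent expansions before and after a mutation: minimal weight monomials; algebraic independence.
-/

set_option autoImplicit false

namespace Pool.Agent.LibSP

open AddMonoidAlgebra

variable {K : Type} [Field K] {n r : ℕ}

/-- The weight of an exponent vector. -/
def dot (w m : Idx n r → ℤ) : ℤ := ∑ i, w i * m i

/-- The exponent vector after the substitution `x_i ↦ x ^ p / x_i`. -/
def tr (i₀ : Idx n r) (p m : Idx n r → ℤ) : Idx n r → ℤ :=
  Function.update (fun i => m i + m i₀ * p i) i₀ (-m i₀)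

/-- The binomial exchange point: `x_i` is replaced by `(x ^ p + x ^ q) / x_i`. -/
noncomputable def bmut (x : Idx n r → K) (i₀ : Idx n r) (p q : Idx n r → ℤ) : Idx n r → K :=
  Function.update x i₀ ((mono x p + mono x q) / x i₀)

/-! ### Weights -/

lemma dot_add (w m m' : Idx n r → ℤ) : dot w (m + m') = dot w m + dot w m' := by
  simp [dot, mul_add, Finset.sum_add_distrib]

lemma dot_sub (w m m' : Idx n r → ℤ) : dot w (m - m') = dot w m - dot w m' := by
  simp [dot, mul_sub, Finset.sum_sub_distrib]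

lemma dot_smul (w : Idx n r → ℤ) (k : ℤ) (m : Idx n r → ℤ) : dot w (k • m) = k * dot w m := by
  simp only [dot, Pi.smul_apply, smul_eq_mul, Finset.mul_sum]
  exact Finset.sum_congr rfl fun i _ => by ring

/-- splitting off one coordinate -/
lemma dot_split (w m : Idx n r → ℤ) (i₀ : Idx n r) :
    dot w m = w i₀ * m i₀ + ∑ i ∈ Finset.univ.erase i₀, w i * m i := by
  rw [dot, ← Finset.add_sum_erase _ _ (Finset.mem_univ i₀)]

/-- The sign change of the coordinate `i₀`. -/
def flp (i₀ : Idx n r) (m : Idx n r → ℤ) : Idx n r → ℤ := Function.update m i₀ (-m i₀)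

/-- The exponent vector of the lowest monomial of the image of `x ^ m` after multiplication by
`(x ^ p + x ^ q) ^ N`. -/
def psi (i₀ : Idx n r) (p : Idx n r → ℤ) (N : ℕ) (m : Idx n r → ℤ) : Idx n r → ℤ :=
  flp i₀ m + (m i₀ + N) • p

lemma psi_same (i₀ : Idx n r) (p : Idx n r → ℤ) (hp : p i₀ = 0) (N : ℕ) (m : Idx n r → ℤ) :
    psi i₀ p N m i₀ = -m i₀ := by
  simp [psi, flp, hp]

lemma psi_of_ne (i₀ : Idx n r) (p : Idx n r → ℤ) (N : ℕ) (m : Idx n r → ℤ) {i : Idx n r}
    (hi : i ≠ i₀) : psi i₀ p N m i = m i + (m i₀ + N) * p i := by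
  simp [psi, flp, hi]

lemma psi_injective (i₀ : Idx n r) (p : Idx n r → ℤ) (hp : p i₀ = 0) (N : ℕ) :
    Function.Injective (psi i₀ p N) := by
  intro m m' h
  have h0 : m i₀ = m' i₀ := by
    have := congrFun h i₀
    rw [psi_same _ _ hp, psi_same _ _ hp] at this
    omega
  funext i
  by_cases hi : i = i₀
  · rw [hi, h0]
  · have := congrFun h i
    rw [psi_of_ne _ _ _ _ hi, psi_of_ne _ _ _ _ hi, h0] at this
    linarith

lemma dot_flp (i₀ : Idx n r) (w m : Idx n r → ℤ) :
    dot w (flp i₀ m) = dot w m - 2 * (w i₀ * m i₀) := by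
  rw [dot_split w _ i₀, dot_split w m i₀]
  have : ∑ i ∈ Finset.univ.erase i₀, w i * flp i₀ m i = ∑ i ∈ Finset.univ.erase i₀, w i * m i := by
    refine Finset.sum_congr rfl fun i hi => ?_
    rw [flp, Function.update_of_ne (Finset.ne_of_mem_erase hi)]
  rw [this, flp, Function.update_self]
  ring

lemma dot_psi (i₀ : Idx n r) (p w : Idx n r → ℤ) (N : ℕ) (m : Idx n r → ℤ) :
    dot w (psi i₀ p N m) =
      dot (Function.update w i₀ (dot w p - w i₀)) m + N * dot w p := by
  rw [psi, dot_add, dot_smul, dot_flp, dot_split (Function.update w i₀ (dot w p - w i₀)) m i₀,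
    dot_split w m i₀]
  have : ∑ i ∈ Finset.univ.erase i₀, (Function.update w i₀ (dot w p - w i₀)) i * m i =
      ∑ i ∈ Finset.univ.erase i₀, w i * m i := by
    refine Finset.sum_congr rfl fun i hi => ?_
    rw [Function.update_of_ne (Finset.ne_of_mem_erase hi)]
  rw [this, Function.update_self]
  ring

lemma psi_tr (i₀ : Idx n r) (p : Idx n r → ℤ) (hp : p i₀ = 0) (N : ℕ) (m : Idx n r → ℤ) :
    psi i₀ p N (tr i₀ p m) = m + (N : ℤ) • p := by
  funext i
  by_cases hi : i = i₀
  · subst hi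
    rw [psi_same _ _ hp, tr, Function.update_self]
    simp [hp]
  · rw [psi_of_ne _ _ _ _ hi, tr, Function.update_self, Function.update_of_ne hi]
    simp only [Pi.add_apply, Pi.smul_apply, smul_eq_mul]
    ring

lemma dot_tr (i₀ : Idx n r) (p w : Idx n r → ℤ) (hp : p i₀ = 0) (m : Idx n r → ℤ) :
    dot (Function.update w i₀ (dot w p - w i₀)) (tr i₀ p m) = dot w m := by
  have h1 := dot_psi i₀ p w 0 (tr i₀ p m)
  rw [psi_tr _ _ hp] at h1
  simpa using h1.symm

/-! ### The binomial -/

/-- The exchange binomial as a Laurent polynomial. -/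
noncomputable def binom (p q : Idx n r → ℤ) : Lp n r := single p 1 + single q 1

lemma binom_ne_zero {p q : Idx n r → ℤ} (hpq : p ≠ q) : (binom p q : Lp n r) ≠ 0 := by
  intro h
  have h1 := congrArg (fun L : Lp n r => L.coeff p) h
  simp only [binom, coeff_add, coeff_single, Finsupp.add_apply, Finsupp.single_eq_same,
    coeff_zero, Finsupp.coe_zero, Pi.zero_apply] at h1
  rw [Finsupp.single_eq_of_ne hpq] at h1
  norm_num at h1

lemma coeff_mul_binom (G : Lp n r) (p q e : Idx n r → ℤ) :
    (G * binom p q).coeff e = G.coeff (e - p) + G.coeff (e - q) := by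
  rw [binom, mul_add, coeff_add, Finsupp.add_apply, coeff_mul_single_apply,
    coeff_mul_single_apply, mul_one, mul_one, sub_eq_add_neg, sub_eq_add_neg]

lemma coeff_single_mul_pow (w p q : Idx n r → ℤ) (hpq : dot w p < dot w q)
    (f : Idx n r → ℤ) (c : ℤ) (k : ℕ) (e : Idx n r → ℤ) (he : dot w e ≤ dot w f + k * dot w p) :
    ((single f c * binom p q ^ k : Lp n r)).coeff e = if e = f + (k : ℤ) • p then c else 0 := by
  induction k generalizing e with
  | zero =>
    rw [pow_zero, mul_one, coeff_single, Finsupp.single_apply]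
    simp only [Nat.cast_zero, zero_smul, add_zero]
    exact if_congr eq_comm rfl rfl
  | succ k ih =>
    push_cast at he
    rw [pow_succ, ← mul_assoc, coeff_mul_binom, ih (e - p) (by rw [dot_sub]; linarith),
      ih (e - q) (by rw [dot_sub]; linarith)]
    have h1 : ¬ (e - q = f + (k : ℤ) • p) := by
      intro h
      have h2 := congrArg (dot w) h
      rw [dot_sub, dot_add, dot_smul] at h2
      linarith
    rw [if_neg h1, add_zero]
    refine if_congr ?_ rfl rfl
    push_cast
    rw [add_smul, one_smul, ← add_assoc, sub_eq_iff_eq_add]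

lemma eq_sum_single (L : Lp n r) : L = ∑ m ∈ L.coeff.support, single m (L.coeff m) :=
  (sum_coeff_single L).symm

lemma coeff_mul_pow (w p q : Idx n r → ℤ) (hpq : dot w p < dot w q) (L : Lp n r) (k : ℕ)
    (e : Idx n r → ℤ) (he : ∀ m, L.coeff m ≠ 0 → dot w e ≤ dot w m + k * dot w p) :
    (L * binom p q ^ k).coeff e = L.coeff (e - (k : ℤ) • p) := by
  classical
  conv_lhs => rw [eq_sum_single L]
  rw [Finset.sum_mul, coeff_sum, Finset.sum_apply']
  rw [Finset.sum_congr rfl fun m hm => coeff_single_mul_pow w p q hpq m (L.coeff m) k e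
    (he m (Finsupp.mem_support_iff.1 hm))]
  by_cases hm : L.coeff (e - (k : ℤ) • p) = 0
  · rw [hm]
    refine Finset.sum_eq_zero fun m hm' => ?_
    rw [if_neg]
    rintro rfl
    rw [add_sub_cancel_right] at hm
    exact (Finsupp.mem_support_iff.1 hm') hm
  · rw [Finset.sum_eq_single (e - (k : ℤ) • p)]
    · rw [if_pos (sub_add_cancel _ _).symm]
    · intro m _ hne
      rw [if_neg]
      rintro rfl
      exact hne (add_sub_cancel_right _ _).symm
    · intro h
      exact absurd (Finsupp.mem_support_iff.2 hm) h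

/-! ### The transformed polynomial -/

/-- The image of `L'` under the substitution, multiplied by a power of the binomial. -/
noncomputable def img (i₀ : Idx n r) (p q : Idx n r → ℤ) (N : ℕ) (L' : Lp n r) : Lp n r :=
  ∑ m ∈ L'.coeff.support, single (flp i₀ m) (L'.coeff m) * binom p q ^ (m i₀ + N).toNat

lemma coeff_img (i₀ : Idx n r) (w p q : Idx n r → ℤ) (hp : p i₀ = 0)
    (hpq : dot w p < dot w q) (N : ℕ) (L' : Lp n r) (hN : ∀ m, L'.coeff m ≠ 0 → 0 ≤ m i₀ + N)
    (m₀ : Idx n r → ℤ) (h₀ : ∀ m, L'.coeff m ≠ 0 →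
      dot (Function.update w i₀ (dot w p - w i₀)) m₀ ≤
        dot (Function.update w i₀ (dot w p - w i₀)) m) :
    (img i₀ p q N L').coeff (psi i₀ p N m₀) = L'.coeff m₀ := by
  classical
  rw [img, coeff_sum, Finset.sum_apply']
  have key : ∀ m ∈ L'.coeff.support,
      ((single (flp i₀ m) (L'.coeff m) * binom p q ^ (m i₀ + N).toNat : Lp n r)).coeff
        (psi i₀ p N m₀) = if psi i₀ p N m₀ = psi i₀ p N m then L'.coeff m else 0 := by
    intro m hm
    have hm' := Finsupp.mem_support_iff.1 hm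
    have h1 := hN m hm'
    have h2 : (((m i₀ + N).toNat : ℕ) : ℤ) = m i₀ + N := Int.toNat_of_nonneg h1
    have h3 : dot w (psi i₀ p N m) = dot w (flp i₀ m) + (m i₀ + N) * dot w p := by
      rw [psi, dot_add, dot_smul]
    rw [coeff_single_mul_pow w p q hpq, h2]
    · rfl
    · rw [h2, ← h3, dot_psi, dot_psi]
      linarith [h₀ m hm']
  rw [Finset.sum_congr rfl key]
  by_cases hm : L'.coeff m₀ = 0
  · rw [hm]
    refine Finset.sum_eq_zero fun m hm' => ?_
    rw [if_neg]
    intro h
    rw [← psi_injective i₀ p hp N h] at hm'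
    exact (Finsupp.mem_support_iff.1 hm') hm
  · rw [Finset.sum_eq_single m₀]
    · rw [if_pos rfl]
    · intro m _ hne
      rw [if_neg]
      intro h
      exact hne (psi_injective i₀ p hp N h).symm
    · intro h
      exact absurd (Finsupp.mem_support_iff.2 hm) h

lemma mono_bmut (x : Idx n r → K) (i₀ : Idx n r) (p q m : Idx n r → ℤ) :
    mono (bmut x i₀ p q) m = mono x (flp i₀ m) * (mono x p + mono x q) ^ m i₀ := by
  classical
  have h1 : ∀ i, (bmut x i₀ p q) i ^ m i =
      x i ^ (flp i₀ m i) * (if i = i₀ then (mono x p + mono x q) ^ m i₀ else 1) := by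
    intro i
    by_cases hi : i = i₀
    · subst hi
      rw [bmut, Function.update_self, flp, Function.update_self, if_pos rfl, div_zpow, zpow_neg,
        div_eq_mul_inv, mul_comm]
    · rw [bmut, Function.update_of_ne hi, flp, Function.update_of_ne hi, if_neg hi, mul_one]
  rw [mono, Finset.prod_congr rfl fun i _ => h1 i, Finset.prod_mul_distrib, Finset.prod_ite_eq']
  simp [mono]

lemma ev_binom (x : Idx n r → K) (p q : Idx n r → ℤ) :
    ev x (binom p q) = mono x p + mono x q := by
  rw [binom, ev_add, ev_single, ev_single]; simp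

lemma ev_img {x : Idx n r → K} (hx : ∀ i, x i ≠ 0) (i₀ : Idx n r) (p q : Idx n r → ℤ)
    (hD : mono x p + mono x q ≠ 0) (N : ℕ) (L' : Lp n r)
    (hN : ∀ m, L'.coeff m ≠ 0 → 0 ≤ m i₀ + N) :
    ev x (img i₀ p q N L') = ev (bmut x i₀ p q) L' * (mono x p + mono x q) ^ N := by
  rw [img, ev_sum, ev, Finsupp.sum, Finset.sum_mul]
  refine Finset.sum_congr rfl fun m hm => ?_
  have h1 := hN m (Finsupp.mem_support_iff.1 hm)
  rw [ev_mul hx, ev_single, ev_pow hx, ev_binom, mono_bmut, ← zpow_natCast _ (m i₀ + N).toNat,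
    Int.toNat_of_nonneg h1, zpow_add₀ hD, zpow_natCast]
  ring

lemma exists_bound (i₀ : Idx n r) (L' : Lp n r) :
    ∃ N : ℕ, ∀ m, L'.coeff m ≠ 0 → 0 ≤ m i₀ + N := by
  refine ⟨∑ m ∈ L'.coeff.support, (m i₀).natAbs, fun m hm => ?_⟩
  have h1 : (m i₀).natAbs ≤ ∑ m ∈ L'.coeff.support, (m i₀).natAbs :=
    Finset.single_le_sum (f := fun m : Idx n r → ℤ => (m i₀).natAbs) (fun _ _ => Nat.zero_le _)
      (Finsupp.mem_support_iff.2 hm)
  omega

lemma exists_min (w : Idx n r → ℤ) {L' : Lp n r} (h : L' ≠ 0) :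
    ∃ m₀, L'.coeff m₀ ≠ 0 ∧ ∀ m, L'.coeff m ≠ 0 → dot w m₀ ≤ dot w m := by
  have hne : L'.coeff.support.Nonempty := by
    rw [Finset.nonempty_iff_ne_empty]
    intro h0
    apply h
    rw [eq_sum_single L', h0, Finset.sum_empty]
  obtain ⟨m₀, h1, h2⟩ := Finset.exists_min_image _ (dot w) hne
  exact ⟨m₀, Finsupp.mem_support_iff.1 h1, fun m hm => h2 m (Finsupp.mem_support_iff.2 hm)⟩

theorem ai_bmut {x : Idx n r → K} (hx : AlgebraicIndependent ℤ x) (i₀ : Idx n r)
    (p q : Idx n r → ℤ) (hp : p i₀ = 0) (hq : q i₀ = 0) (hpq : p ≠ q) :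
    AlgebraicIndependent ℤ (bmut x i₀ p q) := by
  have h0 := ne_zero_of_ai hx
  have hw : dot (q - p) p < dot (q - p) q := by
    have h1 : dot (q - p) q - dot (q - p) p = ∑ i, (q i - p i) ^ 2 := by
      rw [← dot_sub, dot]
      exact Finset.sum_congr rfl fun i _ => by simp only [Pi.sub_apply]; ring
    have h2 : 0 < ∑ i, (q i - p i) ^ 2 := by
      obtain ⟨i, hi⟩ := Function.ne_iff.1 hpq
      refine Finset.sum_pos' (fun i _ => sq_nonneg _) ⟨i, Finset.mem_univ i, ?_⟩
      have : q i - p i ≠ 0 := sub_ne_zero.2 (Ne.symm hi)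
      positivity
    linarith
  have hD : mono x p + mono x q ≠ 0 := by
    rw [← ev_binom]
    intro h
    rw [← ev_zero x] at h
    exact binom_ne_zero hpq (ev_injective hx h)
  have key : ∀ L' : Lp n r, ev (bmut x i₀ p q) L' = 0 → L' = 0 := by
    intro L' hL'
    by_contra hne
    obtain ⟨N, hN⟩ := exists_bound i₀ L'
    have h1 : img i₀ p q N L' = 0 := by
      apply ev_injective hx
      rw [ev_img h0 i₀ p q hD N L' hN, hL', zero_mul, ev_zero]
    obtain ⟨m₀, hm₀, hmin⟩ := exists_min (Function.update (q - p) i₀ (dot (q - p) p - (q - p) i₀)) hne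
    have h2 := coeff_img i₀ (q - p) p q hp hw N L' hN m₀ hmin
    rw [h1] at h2
    exact hm₀ h2.symm
  intro P P' h
  have h1 : ev (bmut x i₀ p q) (ofPoly P - ofPoly P') = 0 := by
    rw [ev_sub, ev_ofPoly, ev_ofPoly]
    exact sub_eq_zero.2 h
  exact ofPoly_injective (sub_eq_zero.1 (key _ h1))

/-- Minimal weight monomials of the expansion at `x` give minimal weight monomials of the
expansion at the mutated point. -/
theorem lead_bmut {x : Idx n r → K} (hx : AlgebraicIndependent ℤ x) (i₀ : Idx n r)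
    (p q w : Idx n r → ℤ) (hp : p i₀ = 0) (hq : q i₀ = 0) (hpq : dot w p < dot w q)
    (L L' : Lp n r) (h : ev (bmut x i₀ p q) L' = ev x L) (m : Idx n r → ℤ)
    (hm : L.coeff m ≠ 0) (hmin : ∀ m', L.coeff m' ≠ 0 → dot w m ≤ dot w m') :
    L'.coeff (tr i₀ p m) ≠ 0 ∧ ∀ m', L'.coeff m' ≠ 0 →
      dot (Function.update w i₀ (dot w p - w i₀)) (tr i₀ p m) ≤
        dot (Function.update w i₀ (dot w p - w i₀)) m' := by
  have h0 := ne_zero_of_ai hx
  have hpq' : p ≠ q := by
    rintro rfl
    exact lt_irrefl _ hpq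
  have hD : mono x p + mono x q ≠ 0 := by
    rw [← ev_binom]
    intro h
    rw [← ev_zero x] at h
    exact binom_ne_zero hpq' (ev_injective hx h)
  obtain ⟨N, hN⟩ := exists_bound i₀ L'
  have hG : img i₀ p q N L' = L * binom p q ^ N := by
    apply ev_injective hx
    rw [ev_img h0 i₀ p q hD N L' hN, h, ev_mul h0, ev_pow h0, ev_binom]
  have hlow : ∀ m', L'.coeff m' ≠ 0 →
      dot w m ≤ dot (Function.update w i₀ (dot w p - w i₀)) m' := by
    intro m' hm'
    have hne : L' ≠ 0 := by
      rintro rfl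
      exact hm' rfl
    obtain ⟨m₀, hm₀, hmin₀⟩ := exists_min (Function.update w i₀ (dot w p - w i₀)) hne
    refine le_trans ?_ (hmin₀ m' hm')
    by_contra hlt
    push Not at hlt
    have h1 := coeff_img i₀ w p q hp hpq N L' hN m₀ hmin₀
    rw [hG, coeff_mul_pow w p q hpq] at h1
    · have h2 : L.coeff (psi i₀ p N m₀ - (N : ℤ) • p) ≠ 0 := by rwa [h1]
      have h3 := hmin _ h2
      rw [dot_sub, dot_psi, dot_smul] at h3
      linarith
    · intro m'' hm''
      rw [dot_psi]
      linarith [hmin _ hm'']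
  refine ⟨?_, fun m' hm' => ?_⟩
  · have h1 := coeff_img i₀ w p q hp hpq N L' hN (tr i₀ p m)
      (fun m' hm' => by rw [dot_tr _ _ _ hp]; exact hlow m' hm')
    rw [psi_tr _ _ hp, hG, coeff_mul_pow w p q hpq, add_sub_cancel_right] at h1
    · rw [← h1]
      exact hm
    · intro m' hm'
      rw [dot_add, dot_smul]
      linarith [hmin _ hm']
  · rw [dot_tr _ _ _ hp]
    exact hlow m' hm'

end Pool.Agent.LibSP
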