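import Pool.Agent.LibSP.Upper

/-!
Consequences of the existence of a strongly positive basis.
-/

set_option autoImplicit false

namespace Pool.Agent.LibSP

open AddMonoidAlgebra

variable {K : Type} [Field K] {n r : ℕ} {s₀ : Seed K n r}

lemma ofPoly_eq_sum (p : MvPolynomial (Idx n r) ℤ) :
    (ofPoly p : Lp n r) = ∑ e ∈ p.support, single (fun i => (e i : ℤ)) (p.coeff e) := by
  conv_lhs => rw [← p.support_sum_monomial_coeff]
  rw [map_sum]
  exact Finset.sum_congr rfl fun e _ => ofPoly_monomial e _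

lemma ofPoly_coeff_nonneg (p : MvPolynomial (Idx n r) ℤ) (hp : ∀ e, 0 ≤ p.coeff e)
    (v : Idx n r → ℤ) : 0 ≤ (ofPoly p : Lp n r).coeff v := by
  classical
  rw [ofPoly_eq_sum, coeff_sum, Finsupp.finsetSum_apply]
  apply Finset.sum_nonneg
  intro e _
  rw [coeff_single, Finsupp.single_apply]
  split_ifs
  · exact hp e
  · exact le_rfl

lemma coeff_shift (L : Lp n r) (a m : Idx n r → ℤ) :
    (L * single a 1).coeff (m + a) = L.coeff m := by
  rw [AddMonoidAlgebra.coeff_mul_single_add, mul_one]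

/-- monomials at algebraically independent points are distinct -/
lemma prod_inj {x : Idx n r → K} (hx : AlgebraicIndependent ℤ x) (e e' : Idx n r →₀ ℕ)
    (h : ∏ i, x i ^ e i = ∏ i, x i ^ e' i) : e = e' := by
  have h1 : MvPolynomial.aeval x (MvPolynomial.monomial e (1 : ℤ)) =
      MvPolynomial.aeval x (MvPolynomial.monomial e' (1 : ℤ)) := by
    rw [MvPolynomial.aeval_monomial, MvPolynomial.aeval_monomial,
      Finsupp.prod_fintype _ _ (by simp), Finsupp.prod_fintype _ _ (by simp), h]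
  have h2 := hx h1
  have h3 := MvPolynomial.monomial_left_injective (one_ne_zero) h2
  exact h3

/-- The elements of a strongly positive basis have nonnegative Laurent expansions. -/
theorem pos_of_basis (h : Good s₀) {C : Set K} (hC : StronglyPositiveBasis s₀ C) {c : K}
    (hc : c ∈ C) {t : Seed K n r} (ht : Reach s₀ t) {L : Lp n r} (hL : ev t.x L = c)
    (m : Idx n r → ℤ) : 0 ≤ L.coeff m := by
  classical
  have hai := (ht.good h).ai
  have hx0 : ∀ i, t.x i ≠ 0 := ne_zero_of_ai hai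
  obtain ⟨N, hN⟩ := exists_poly L
  obtain ⟨p, hp⟩ := hN N le_rfl
  -- cluster monomials
  have hmem : ∀ e : Idx n r → ℕ, ∏ i, t.x i ^ e i ∈ C := fun e =>
    hC.monomials _ ⟨t, ht, e, rfl⟩
  obtain ⟨γ, hγ⟩ := hC.pos c hc _ (hmem fun _ => N)
  have h1 : c * ∏ i, t.x i ^ N = MvPolynomial.aeval t.x p := by
    rw [← ev_ofPoly, ← hp, ev_mul hx0, hL, ev_single]
    simp [mono]
  let δ : C →₀ ℤ := γ.mapRange (Nat.cast : ℕ → ℤ) Nat.cast_zero
  let ε : C →₀ ℤ := ∑ e ∈ p.support, Finsupp.single (⟨∏ i, t.x i ^ e i, hmem e⟩ : C) (p.coeff e)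
  have hδ : Finsupp.linearCombination ℤ (Subtype.val : C → K) δ = c * ∏ i, t.x i ^ N := by
    rw [hγ, Finsupp.linearCombination_apply, Finsupp.sum_mapRange_index (by simp)]
    apply Finset.sum_congr rfl
    intro b _
    simp
  have hε : Finsupp.linearCombination ℤ (Subtype.val : C → K) ε = c * ∏ i, t.x i ^ N := by
    rw [h1, map_sum, MvPolynomial.aeval_def, MvPolynomial.eval₂_eq']
    apply Finset.sum_congr rfl
    intro e _
    rw [Finsupp.linearCombination_single]
    simp
  have hde : ε = δ := hC.indep (hε.trans hδ.symm)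
  have hp0 : ∀ e, 0 ≤ p.coeff e := by
    intro e
    by_cases he : e ∈ p.support
    · have h2 : ε ⟨∏ i, t.x i ^ e i, hmem e⟩ = p.coeff e := by
        show (∑ e ∈ p.support, Finsupp.single (⟨∏ i, t.x i ^ e i, hmem e⟩ : C) (p.coeff e)) _ = _
        rw [Finsupp.finsetSum_apply, Finset.sum_eq_single e]
        · simp
        · intro e' _ hne
          rw [Finsupp.single_apply, if_neg]
          intro heq
          exact hne (prod_inj hai e' e (congrArg Subtype.val heq))
        · intro hne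
          exact absurd he hne
      rw [← h2, hde]
      show 0 ≤ ((γ _ : ℕ) : ℤ)
      exact Int.natCast_nonneg _
    · rw [MvPolynomial.notMem_support_iff.1 he]
  rw [← coeff_shift L (fun _ => (N : ℤ)) m, hp]
  exact ofPoly_coeff_nonneg p hp0 _

/-- Changing coordinates commutes with specialization. -/
theorem transfer {x y : Idx n r → K} (hy : AlgebraicIndependent ℤ y)
    (A : Idx n r → Lp n r) (hA : ∀ i, ev y (A i) = x i) (hx : ∀ i, x i ≠ 0)
    (τ : Idx n r → ℚ) (hτ : ∀ i, τ i ≠ 0) (hα : ∀ i, ev τ (A i) ≠ 0) (L₀ L : Lp n r)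
    (h : ev x L₀ = ev y L) : ev (fun i => ev τ (A i)) L₀ = ev τ L := by
  have hy0 : ∀ i, y i ≠ 0 := ne_zero_of_ai hy
  obtain ⟨N, hN⟩ := exists_poly L₀
  obtain ⟨p, hp⟩ := hN N le_rfl
  have haev : ∀ {K' : Type} [Field K'] (z : Idx n r → K') (hz : ∀ i, z i ≠ 0),
      ev z (MvPolynomial.aeval A p) = MvPolynomial.aeval (fun i => ev z (A i)) p := by
    intro K' _ z hz
    rw [← evH_apply z hz, MvPolynomial.aeval_def, MvPolynomial.hom_eval₂, MvPolynomial.aeval_def]
    congr 1
    exact Subsingleton.elim _ _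
  have hprod : ∀ {K' : Type} [Field K'] (z : Idx n r → K') (hz : ∀ i, z i ≠ 0),
      ev z (∏ i, A i ^ N) = ∏ i, ev z (A i) ^ N := by
    intro K' _ z hz
    rw [← evH_apply z hz, map_prod]
    apply Finset.prod_congr rfl
    intro i _
    rw [map_pow, evH_apply]
  have hmul : ∀ {K' : Type} [Field K'] (z : Idx n r → K') (hz : ∀ i, z i ≠ 0),
      ev z L₀ * ∏ i, z i ^ N = MvPolynomial.aeval z p := by
    intro K' _ z hz
    rw [← ev_ofPoly, ← hp, ev_mul hz, ev_single]
    simp [mono]
  have h1 : L * ∏ i, A i ^ N = MvPolynomial.aeval A p := by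
    apply ev_injective hy
    rw [ev_mul hy0, hprod y hy0, haev y hy0, ← h]
    simp only [hA]
    exact hmul x hx
  have h2 := congrArg (ev τ) h1
  rw [ev_mul hτ, hprod τ hτ, haev τ hτ, ← hmul _ hα] at h2
  exact (mul_right_cancel₀ (Finset.prod_ne_zero_iff.2 fun i _ => pow_ne_zero _ (hα i)) h2).symm

end Pool.Agent.LibSP
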