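import Mathlib

/-!
Two binomials with independent exponents are relatively prime.
-/

set_option autoImplicit false

namespace Pool.Agent.LibSP

open MvPolynomial

/-- A binomial with distinct monomials is not zero. -/
private lemma ufdB_ne_zero {σ : Type} (u v : σ →₀ ℕ) (ε : ℤ) (huv : u ≠ v) :
    (monomial u 1 + monomial v ε : MvPolynomial σ ℤ) ≠ 0 := by
  classical
  intro h0
  have h := congrArg (coeff u) h0
  simp [coeff_monomial, huv.symm] at h

/-- A variable does not divide a binomial whose monomials are coprime. -/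
private lemma ufdB_not_dvd {σ : Type} (p q : σ →₀ ℕ) (hpq : p ≠ q)
    (h : ∀ i, p i = 0 ∨ q i = 0) (i : σ) :
    ¬ (X i ∣ (monomial p 1 + monomial q 1 : MvPolynomial σ ℤ)) := by
  classical
  rintro ⟨w, hw⟩
  rcases h i with hi | hi
  · have h1 := congrArg (coeff p) hw
    rw [coeff_X_mul'] at h1
    simp [coeff_monomial, hpq.symm, hi] at h1
  · have h1 := congrArg (coeff q) hw
    rw [coeff_X_mul'] at h1
    simp [coeff_monomial, hpq, hi] at h1

/-- A prime dividing two binomials with nonproportional exponent vectors has degree zero in each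
variable. -/
private lemma ufdB_degree {σ : Type} [Finite σ] (p q p' q' : σ →₀ ℕ)
    (ind : ∀ a b : ℤ, (∀ i, a * ((p i : ℤ) - q i) = b * ((p' i : ℤ) - q' i)) → a = 0 ∧ b = 0)
    (π : MvPolynomial σ ℤ) (hπ : Prime π) (hX : ∀ i, ¬ π ∣ X i)
    (h1 : π ∣ monomial p 1 + monomial q 1) (h2 : π ∣ monomial p' 1 + monomial q' 1) (i : σ) :
    degreeOf i π = 0 := by
  classical
  cases nonempty_fintype σ
  have : (Ideal.span {π}).IsPrime := (Ideal.span_singleton_prime hπ.ne_zero).2 hπ
  let K := FractionRing (MvPolynomial σ ℤ ⧸ Ideal.span {π})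
  let φ : MvPolynomial σ ℤ →+* K := (algebraMap _ K).comp (Ideal.Quotient.mk (Ideal.span {π}))
  have hφ : ∀ f, φ f = 0 ↔ π ∣ f := by
    intro f
    simp only [φ, RingHom.comp_apply]
    rw [FaithfulSMul.algebraMap_eq_zero_iff, Ideal.Quotient.eq_zero_iff_mem,
      Ideal.mem_span_singleton]
  let y : σ → K := fun j => φ (X j)
  have hy : ∀ j, y j ≠ 0 := fun j h0 => hX j ((hφ _).1 h0)
  have hmon : ∀ u : σ →₀ ℕ, φ (monomial u 1) = ∏ j, y j ^ u j := by
    intro u
    rw [monomial_eq, map_mul, Finsupp.prod_fintype _ _ (fun _ => pow_zero _)]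
    simp [y]
  have hdiv : ∀ u v : σ →₀ ℕ, φ (monomial u 1) = (∏ j, y j ^ ((u j : ℤ) - v j)) * φ (monomial v 1) := by
    intro u v
    rw [hmon, hmon, ← Finset.prod_mul_distrib]
    refine Finset.prod_congr rfl fun j _ => ?_
    rw [← zpow_natCast, ← zpow_natCast, ← zpow_add₀ (hy j)]
    congr 1; ring
  have hne : ∀ u : σ →₀ ℕ, φ (monomial u 1) ≠ 0 := by
    intro u
    rw [hmon]
    exact Finset.prod_ne_zero_iff.2 fun j _ => pow_ne_zero _ (hy j)
  have key : ∀ u v : σ →₀ ℕ, π ∣ monomial u 1 + monomial v 1 →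
      ∏ j, y j ^ ((u j : ℤ) - v j) = -1 := by
    intro u v huv
    have h0 := (hφ _).2 huv
    rw [map_add, hdiv u v] at h0
    have h3 : ((∏ j, y j ^ ((u j : ℤ) - v j)) + 1) * φ (monomial v 1) = 0 := by
      rw [← h0]; ring
    rcases mul_eq_zero.1 h3 with h4 | h4
    · exact eq_neg_of_add_eq_zero_left h4
    · exact absurd h4 (hne v)
  -- choice of the combination killing the variable `i`
  obtain ⟨a, b, hab, hi⟩ : ∃ a b : ℤ, ¬ (a = 0 ∧ b = 0) ∧
      a * ((p i : ℤ) - q i) + b * ((p' i : ℤ) - q' i) = 0 := by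
    by_cases hv : (p i : ℤ) - q i = 0
    · exact ⟨1, 0, by simp, by rw [hv]; ring⟩
    · exact ⟨(p' i : ℤ) - q' i, -((p i : ℤ) - q i), fun h => hv (neg_eq_zero.1 h.2), by ring⟩
  let w : σ → ℤ := fun j => a * ((p j : ℤ) - q j) + b * ((p' j : ℤ) - q' j)
  have hw : ∃ j, w j ≠ 0 := by
    by_contra hcon
    push Not at hcon
    obtain ⟨ha, hb⟩ := ind a (-b) (fun j => by have := hcon j; simp only [w] at this; linarith)
    exact hab ⟨ha, neg_eq_zero.1 hb⟩
  have hmw : ∏ j, y j ^ w j = (-1) ^ a * (-1) ^ b := by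
    have e1 : ((-1 : K)) ^ a = ∏ j, y j ^ (((p j : ℤ) - q j) * a) := by
      rw [← key p q h1, ← Finset.prod_zpow]
      exact Finset.prod_congr rfl fun j _ => (zpow_mul _ _ _).symm
    have e2 : ((-1 : K)) ^ b = ∏ j, y j ^ (((p' j : ℤ) - q' j) * b) := by
      rw [← key p' q' h2, ← Finset.prod_zpow]
      exact Finset.prod_congr rfl fun j _ => (zpow_mul _ _ _).symm
    rw [e1, e2, ← Finset.prod_mul_distrib]
    refine Finset.prod_congr rfl fun j _ => ?_
    rw [← zpow_add₀ (hy j)]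
    congr 1; simp only [w]; ring
  obtain ⟨ε, hε⟩ : ∃ ε : ℤ, ((ε : ℤ) : K) = (-1) ^ a * (-1) ^ b := by
    rcases Int.even_or_odd a with ha | ha <;> rcases Int.even_or_odd b with hb | hb
    · exact ⟨1, by rw [ha.neg_one_zpow, hb.neg_one_zpow]; simp⟩
    · exact ⟨-1, by rw [ha.neg_one_zpow, hb.neg_one_zpow]; simp⟩
    · exact ⟨-1, by rw [ha.neg_one_zpow, hb.neg_one_zpow]; simp⟩
    · exact ⟨1, by rw [ha.neg_one_zpow, hb.neg_one_zpow]; simp⟩
  let u : σ →₀ ℕ := Finsupp.equivFunOnFinite.symm fun j => (w j).toNat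
  let v : σ →₀ ℕ := Finsupp.equivFunOnFinite.symm fun j => (-(w j)).toNat
  have huv : ∀ j, (u j : ℤ) - v j = w j := by
    intro j
    simp only [u, v, Finsupp.coe_equivFunOnFinite_symm]
    omega
  have hne' : u ≠ v := by
    intro he
    obtain ⟨j, hj⟩ := hw
    apply hj
    rw [← huv j, he]; ring
  have hu0 : u i = 0 ∧ v i = 0 := by
    have : w i = 0 := hi
    simp only [u, v, Finsupp.coe_equivFunOnFinite_symm, this]
    simp
  have hd : π ∣ monomial u 1 + monomial v (-ε) := by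
    rw [← hφ, map_add, hdiv u v]
    have h5 : (monomial v (-ε) : MvPolynomial σ ℤ) = C (-ε) * monomial v 1 := by
      rw [C_mul_monomial, mul_one]
    have h6 : φ (C (-ε)) = -(ε : K) := by
      simp [φ]
    rw [h5, map_mul, h6, hε]
    simp only [huv]
    rw [hmw]; ring
  obtain ⟨W, hW⟩ := hd
  have hnz := ufdB_ne_zero u v (-ε) hne'
  have hWne : W ≠ 0 := by
    rintro rfl
    rw [mul_zero] at hW
    exact hnz hW
  have hdeg : degreeOf i (monomial u 1 + monomial v (-ε) : MvPolynomial σ ℤ) = 0 := by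
    have h7 := degreeOf_add_le i (monomial u 1 : MvPolynomial σ ℤ) (monomial v (-ε))
    have h8 : degreeOf i (monomial u 1 : MvPolynomial σ ℤ) = 0 := by
      rw [degreeOf_monomial_eq _ _ one_ne_zero]; exact hu0.1
    have h9 : degreeOf i (monomial v (-ε) : MvPolynomial σ ℤ) = 0 := by
      by_cases h0 : -ε = 0
      · rw [h0]; simp
      · rw [degreeOf_monomial_eq _ _ h0]; exact hu0.2
    omega
  rw [hW, degreeOf_mul_eq hπ.ne_zero hWne] at hdeg
  omega

/-- Two binomials with nonproportional exponent vectors are relatively prime. -/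
theorem relprime_binom_binom {σ : Type} [Finite σ] (p q p' q' : σ →₀ ℕ)
    (h : ∀ i, p i = 0 ∨ q i = 0) (h' : ∀ i, p' i = 0 ∨ q' i = 0)
    (ind : ∀ a b : ℤ, (∀ i, a * ((p i : ℤ) - q i) = b * ((p' i : ℤ) - q' i)) → a = 0 ∧ b = 0) :
    IsRelPrime (monomial p 1 + monomial q 1 : MvPolynomial σ ℤ)
      (monomial p' 1 + monomial q' 1) := by
  classical
  have hpq : p ≠ q := by
    rintro rfl
    exact one_ne_zero (ind 1 0 (by simp)).1
  rw [UniqueFactorizationMonoid.isRelPrime_iff_no_prime_factors (ufdB_ne_zero p q 1 hpq)]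
  intro π h1 h2 hπ
  have hX : ∀ i, ¬ π ∣ X i := by
    intro i hi
    have hXi : Prime (X i : MvPolynomial σ ℤ) := X_prime
    have h3 : Associated π (X i) := hπ.irreducible.associated_of_dvd hXi.irreducible hi
    exact ufdB_not_dvd p q hpq h i (h3.symm.dvd.trans h1)
  have hdeg : ∀ i, degreeOf i π = 0 :=
    ufdB_degree p q p' q' ind π hπ hX h1 h2
  have hC : π = C (coeff 0 π) := by
    ext m
    rw [coeff_C]
    split_ifs with h0
    · rw [← h0]
    · by_contra hne
      apply h0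
      ext i
      have := degreeOf_le_iff.1 (hdeg i).le m (mem_support_iff.2 hne)
      simp only [Finsupp.coe_zero, Pi.zero_apply]
      omega
  have h4 : C (coeff 0 π) ∣ (monomial p 1 + monomial q 1 : MvPolynomial σ ℤ) := hC ▸ h1
  rw [C_dvd_iff_dvd_coeff] at h4
  have h5 := h4 p
  simp only [coeff_add, coeff_monomial, if_neg hpq.symm, if_true, add_zero] at h5
  apply hπ.not_isUnit
  rw [hC]
  exact (isUnit_of_dvd_one h5).map C

end Pool.Agent.LibSP
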