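import Pool.Agent.LibSP.UfdA

/-!
The multivariate coprimality statement.
-/

set_option autoImplicit false

namespace Pool.Agent.LibSP

open MvPolynomial

/-- Restriction of an exponent to the variables other than `j`. -/
noncomputable def resE {σ : Type} (j : σ) (α : σ →₀ ℕ) : {i // i ≠ j} →₀ ℕ :=
  α.comapDomain Subtype.val Subtype.val_injective.injOn

theorem resE_apply {σ : Type} (j : σ) (α : σ →₀ ℕ) (i : {i // i ≠ j}) : resE j α i = α i := rfl

theorem rename_resE {σ : Type} (j : σ) (α : σ →₀ ℕ) (h : α j = 0) :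
    rename Subtype.val (monomial (resE j α) (1 : ℤ)) = monomial α 1 := by
  rw [rename_monomial]
  congr 2
  apply Finsupp.mapDomain_comapDomain
  · exact Subtype.val_injective
  · intro i hi
    have : i ≠ j := by
      rintro rfl
      simp [h] at hi
    exact ⟨⟨i, this⟩, rfl⟩

/-- The isomorphism with the polynomial ring in `X j` over the polynomials in the others. -/
noncomputable def isoP {σ : Type} [DecidableEq σ] (j : σ) :
    MvPolynomial σ ℤ ≃ₐ[ℤ] Polynomial (MvPolynomial {i // i ≠ j} ℤ) :=
  (renameEquiv ℤ (Equiv.optionSubtypeNe j).symm).trans (optionEquivLeft ℤ {i // i ≠ j})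

theorem isoP_X {σ : Type} [DecidableEq σ] (j : σ) : isoP j (X j) = Polynomial.X := by
  simp [isoP, optionEquivLeft_X_none]

theorem isoP_rename {σ : Type} [DecidableEq σ] (j : σ) (g : MvPolynomial {i // i ≠ j} ℤ) :
    isoP j (rename Subtype.val g) = Polynomial.C g := by
  have h : ((isoP j : MvPolynomial σ ℤ →ₐ[ℤ] Polynomial (MvPolynomial {i // i ≠ j} ℤ)).comp
      (rename Subtype.val)) = (Algebra.ofId (MvPolynomial {i // i ≠ j} ℤ)
        (Polynomial (MvPolynomial {i // i ≠ j} ℤ))).restrictScalars ℤ := by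
    apply MvPolynomial.algHom_ext
    intro i
    simp [isoP, Equiv.optionSubtypeNe_symm_of_ne i.2, optionEquivLeft_X_some, Algebra.ofId_apply]
  exact DFunLike.congr_fun h g

theorem isRelPrime_of_equiv {R S : Type} [CommRing R] [CommRing S] (Φ : R ≃+* S) {a b : R}
    (h : IsRelPrime (Φ a) (Φ b)) : IsRelPrime a b := by
  intro d h1 h2
  have := h (map_dvd Φ h1) (map_dvd Φ h2)
  exact (MulEquiv.isUnit_map Φ).1 this

/-- The multivariate form of `ts_poly`. Here `P` does not involve `X j`. -/
theorem ts_mv {σ : Type} [Finite σ] [DecidableEq σ] (j k : σ) (hjk : j ≠ k)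
    (α β γ δ α' β' θ : σ →₀ ℕ) (b c : ℕ) (hb : 0 < b) (hc : 0 < c)
    (hj : α j = 0 ∧ β j = 0 ∧ γ j = 0 ∧ δ j = 0 ∧ α' j = 0 ∧ β' j = 0 ∧ θ j = 0)
    (hk : α' k = 0) (h1 : α + b • δ = θ + α') (h2 : β = θ + β') (h3 : ∀ i, α' i = 0 ∨ β' i = 0)
    (e : σ →₀ ℕ) :
    ∃ W : MvPolynomial σ ℤ,
      monomial α 1 * (monomial γ 1 * (monomial α' 1 + monomial β' 1 * X k ^ b) ^ c
          + monomial δ 1 * X j ^ c) ^ b + monomial β 1 * X k ^ b * X j ^ (c * b)
        = (monomial α' 1 + monomial β' 1 * X k ^ b) * W ∧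
      IsRelPrime (monomial α' 1 + monomial β' 1 * X k ^ b : MvPolynomial σ ℤ)
        (monomial e 1 * (monomial γ 1 * (monomial α' 1 + monomial β' 1 * X k ^ b) ^ c
          + monomial δ 1 * X j ^ c) * W) := by
  classical
  obtain ⟨hjα, hjβ, hjγ, hjδ, hjα', hjβ', hjθ⟩ := hj
  have hfin : Finite {i // i ≠ j} := inferInstance
  have hpw : ∀ {τ : Type} (u : τ →₀ ℕ) (i : τ), (monomial u 1 * X i ^ b : MvPolynomial τ ℤ)
      = monomial (u + Finsupp.single i b) 1 := by
    intro τ u i
    rw [X_pow_eq_monomial, monomial_mul, one_mul]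
  set kk : {i // i ≠ j} := ⟨k, hjk.symm⟩ with hkk
  set P : MvPolynomial {i // i ≠ j} ℤ := monomial (resE j α') 1 + monomial (resE j β') 1 * X kk ^ b
    with hPdef
  have hP' : P = monomial (resE j α') 1 + monomial (resE j β' + Finsupp.single kk b) 1 := by
    rw [hPdef, hpw]
  have hcop : ∀ i, resE j α' i = 0 ∨ (resE j β' + Finsupp.single kk b) i = 0 := by
    intro i
    rw [Finsupp.add_apply, resE_apply, resE_apply]
    by_cases hik : i = kk
    · left
      rw [hik]
      exact hk
    · rcases h3 i with h | h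
      · exact Or.inl h
      · right
        rw [h, Finsupp.single_eq_of_ne hik, add_zero]
  have hPne : P ≠ 0 := by
    intro h0
    have := congrArg (MvPolynomial.eval (fun _ => (1 : ℤ))) h0
    rw [hP'] at this
    simp [eval_monomial] at this
  have hrel : (monomial (resE j α) 1 : MvPolynomial {i // i ≠ j} ℤ) * (monomial (resE j δ) 1) ^ b
      + monomial (resE j β) 1 * X kk ^ b = monomial (resE j θ) 1 * P := by
    rw [hPdef, mul_add, ← mul_assoc, monomial_mul, monomial_mul, monomial_pow, monomial_mul]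
    have e1 : resE j α + b • resE j δ = resE j θ + resE j α' := by
      ext i
      have := DFunLike.congr_fun h1 (i : σ)
      simpa [resE_apply] using this
    have e2 : resE j β = resE j θ + resE j β' := by
      ext i
      have := DFunLike.congr_fun h2 (i : σ)
      simpa [resE_apply] using this
    rw [e1, e2]
    simp
  obtain ⟨W, hW1, hW2⟩ := ts_poly P (X kk) (monomial (resE j α) 1) (monomial (resE j β) 1)
    (monomial (resE j γ) 1) (monomial (resE j δ) 1) (monomial (resE j θ) 1) b c hb hc hPne
    (by rw [hP']; exact relprime_binom_monomial _ _ _ hcop)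
    (by rw [hP']; exact relprime_binom_monomial _ _ _ hcop) hrel
  have iso_mon : ∀ u : σ →₀ ℕ, u j = 0 → isoP j (monomial u 1)
      = Polynomial.C (monomial (resE j u) 1) := by
    intro u hu
    rw [← rename_resE j u hu, isoP_rename]
  have iso_k : isoP j (X k) = Polynomial.C (X kk) := by
    have : (X k : MvPolynomial σ ℤ) = rename Subtype.val (X kk) := by
      rw [rename_X]
    rw [this, isoP_rename]
  have isoPP : isoP j (monomial α' 1 + monomial β' 1 * X k ^ b) = Polynomial.C P := by
    rw [map_add, map_mul, map_pow, iso_mon _ hjα', iso_mon _ hjβ', iso_k, hPdef]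
    simp
  have isoY : isoP j (monomial γ 1 * (monomial α' 1 + monomial β' 1 * X k ^ b) ^ c
          + monomial δ 1 * X j ^ c) = Polynomial.C (monomial (resE j γ) 1) * Polynomial.C P ^ c
          + Polynomial.C (monomial (resE j δ) 1) * Polynomial.X ^ c := by
    rw [map_add, map_mul, map_pow, isoPP, map_mul, map_pow, isoP_X, iso_mon _ hjγ, iso_mon _ hjδ]
  refine ⟨(isoP j).symm W, ?_, ?_⟩
  · apply (isoP j).injective
    rw [map_add, map_mul, map_pow, isoY, map_mul (isoP j) (_ + _), isoPP, AlgEquiv.apply_symm_apply,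
      map_mul, map_mul, map_pow, map_pow, isoP_X, iso_k, iso_mon _ hjα, iso_mon _ hjβ, hW1]
  · have hmono : IsRelPrime (monomial α' 1 + monomial β' 1 * X k ^ b : MvPolynomial σ ℤ)
        (monomial e 1) := by
      rw [hpw]
      apply relprime_binom_monomial
      intro i
      rw [Finsupp.add_apply]
      by_cases hik : i = k
      · left
        rw [hik]
        exact hk
      · rcases h3 i with h | h
        · exact Or.inl h
        · right
          rw [h, Finsupp.single_eq_of_ne hik, add_zero]
    have hYW : IsRelPrime (monomial α' 1 + monomial β' 1 * X k ^ b : MvPolynomial σ ℤ)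
        ((monomial γ 1 * (monomial α' 1 + monomial β' 1 * X k ^ b) ^ c
          + monomial δ 1 * X j ^ c) * (isoP j).symm W) := by
      apply isRelPrime_of_equiv (isoP j).toRingEquiv
      show IsRelPrime (isoP j _) (isoP j _)
      rw [map_mul, isoPP, isoY, AlgEquiv.apply_symm_apply]
      rw [mul_assoc] at hW2
      exact hW2.of_mul_right_right
    rw [mul_assoc]
    exact hmono.mul_right hYW

end Pool.Agent.LibSP
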