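import Pool.Agent.LibSP.TwoA
import Pool.Agent.LibSP.UfdB
import Pool.Agent.LibSP.UfdC

/-!
The two step lemma.
-/

set_option autoImplicit false

namespace Pool.Agent.LibSP

variable {K : Type} [Field K] {n r : ℕ}

namespace TwoStep

open MvPolynomial

/-- exponent vectors as finitely supported functions -/
noncomputable def fe (f : Idx n r → ℕ) : Idx n r →₀ ℕ := Finsupp.equivFunOnFinite.symm f

@[simp] lemma fe_apply (f : Idx n r → ℕ) (i : Idx n r) : fe f i = f i := rfl

/-- a monomial with coefficient one -/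
noncomputable abbrev mn (f : Idx n r → ℕ) : MvPolynomial (Idx n r) ℤ := monomial (fe f) 1

lemma aeval_mn (y : Idx n r → K) (f : Idx n r → ℕ) : aeval y (mn f) = ∏ i, y i ^ f i := by
  rw [aeval_monomial, Finsupp.prod_fintype _ _ (by simp)]
  simp

/-- the exchange binomial -/
noncomputable def Pol (B : EMat n r) (k : Fin n) : MvPolynomial (Idx n r) ℤ :=
  mn (fun i => (B i k).toNat) + mn (fun i => (-(B i k)).toNat)

lemma aeval_Pol (y : Idx n r → K) (B : EMat n r) (k : Fin n) :
    aeval y (Pol B k) = (∏ i, y i ^ (B i k).toNat) + ∏ i, y i ^ (-(B i k)).toNat := by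
  rw [Pol, map_add, aeval_mn, aeval_mn]

lemma exch_eq (y : Idx n r → K) (B : EMat n r) (k : Fin n) :
    exch y B k = aeval y (Pol B k) / y (Sum.inl k) := by
  rw [exch, aeval_Pol]

/-- substitution of elements which become polynomials after multiplication by `d` -/
lemma subst_poly {y z : Idx n r → K} (dd : MvPolynomial (Idx n r) ℤ)
    (g : Idx n r → MvPolynomial (Idx n r) ℤ) (hg : ∀ i, z i * aeval y dd = aeval y (g i))
    (p : MvPolynomial (Idx n r) ℤ) :
    ∃ (M : ℕ) (f : MvPolynomial (Idx n r) ℤ), aeval z p * (aeval y dd) ^ M = aeval y f := by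
  induction p using MvPolynomial.induction_on with
  | C a => exact ⟨0, C a, by simp⟩
  | add p q hp hq =>
    obtain ⟨M1, f1, h1⟩ := hp
    obtain ⟨M2, f2, h2⟩ := hq
    refine ⟨M1 + M2, f1 * dd ^ M2 + f2 * dd ^ M1, ?_⟩
    rw [map_add, map_add, map_mul, map_mul, map_pow, map_pow, ← h1, ← h2, pow_add]
    ring
  | mul_X p i hp =>
    obtain ⟨M1, f1, h1⟩ := hp
    refine ⟨M1 + 1, f1 * g i, ?_⟩
    rw [map_mul, map_mul, ← h1, ← hg, aeval_X, pow_succ]
    ring

lemma prod_update (y : Idx n r → K) (a : Idx n r) (v : K) (e : Idx n r → ℕ) :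
    ∏ i, (Function.update y a v i) ^ e i = v ^ e a * ∏ i, y i ^ (Function.update e a 0 i) := by
  rw [← Finset.mul_prod_erase Finset.univ _ (Finset.mem_univ a),
    ← Finset.mul_prod_erase Finset.univ (fun i => y i ^ (Function.update e a 0 i))
      (Finset.mem_univ a)]
  simp only [Function.update_self, pow_zero, one_mul]
  congr 1
  refine Finset.prod_congr rfl fun i hi => ?_
  have : i ≠ a := Finset.ne_of_mem_erase hi
  rw [Function.update_of_ne this, Function.update_of_ne this]

/-- the product of the cluster variables at an updated point -/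
lemma prod_inl_update (y : Idx n r → K) (j : Fin n) (v : K) :
    (∏ i : Fin n, Function.update y (Sum.inl j) v (Sum.inl i)) * y (Sum.inl j) =
      v * ∏ i : Fin n, y (Sum.inl i) := by
  rw [← Finset.mul_prod_erase Finset.univ _ (Finset.mem_univ j),
    ← Finset.mul_prod_erase Finset.univ (fun i : Fin n => y (Sum.inl i)) (Finset.mem_univ j)]
  rw [Function.update_self]
  have : ∏ i ∈ Finset.univ.erase j, Function.update y (Sum.inl j) v (Sum.inl i) =
      ∏ i ∈ Finset.univ.erase j, y (Sum.inl i) := by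
    refine Finset.prod_congr rfl fun i hi => ?_
    have : i ≠ j := Finset.ne_of_mem_erase hi
    rw [Function.update_of_ne]
    intro h
    exact this (Sum.inl_injective h)
  rw [this]
  ring

/-- the product of the mutable variables -/
noncomputable def DD : MvPolynomial (Idx n r) ℤ := ∏ i : Fin n, X (Sum.inl i)

lemma aeval_DD (y : Idx n r → K) : aeval y (DD : MvPolynomial (Idx n r) ℤ) =
    ∏ i : Fin n, y (Sum.inl i) := by
  rw [DD, map_prod]
  simp

/-- first direction: Laurent at a point with one exchanged coordinate -/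
lemma first {y : Idx n r → K} (hy : ∀ i, y i ≠ 0) {P : MvPolynomial (Idx n r) ℤ} {j : Fin n}
    (hP : aeval y P ≠ 0) {u : K}
    (h : Lau (Function.update y (Sum.inl j) (aeval y P / y (Sum.inl j))) u) :
    ∃ (N M : ℕ) (f : MvPolynomial (Idx n r) ℤ),
      u * (aeval y P) ^ N * (aeval y DD) ^ M = aeval y f := by
  set z := Function.update y (Sum.inl j) (aeval y P / y (Sum.inl j)) with hz
  have hz0 : ∀ i, z i ≠ 0 := by
    intro i
    rcases eq_or_ne i (Sum.inl j) with rfl | hi
    · rw [hz, Function.update_self]; exact div_ne_zero hP (hy _)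
    · rw [hz, Function.update_of_ne hi]; exact hy i
  obtain ⟨N, p, hp⟩ := (lau_iff hz0 u).1 h
  obtain ⟨M, f, hf⟩ := subst_poly (y := y) (z := z) (X (Sum.inl j))
    (fun i => if i = Sum.inl j then P else X i * X (Sum.inl j)) (by
      intro i
      rw [aeval_X]
      rcases eq_or_ne i (Sum.inl j) with rfl | hi
      · rw [if_pos rfl, hz, Function.update_self]
        exact div_mul_cancel₀ _ (hy _)
      · rw [if_neg hi, hz, Function.update_of_ne hi, map_mul, aeval_X, aeval_X]) p
  rw [aeval_X] at hf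
  have hD : (∏ i : Fin n, z (Sum.inl i)) * y (Sum.inl j) * y (Sum.inl j) =
      aeval y P * aeval y DD := by
    rw [hz, prod_inl_update, aeval_DD, mul_right_comm, div_mul_cancel₀ _ (hy _)]
  refine ⟨N, N + M, f * X (Sum.inl j) ^ (2 * N) * (∏ i ∈ Finset.univ.erase j,
    X (Sum.inl i)) ^ M, ?_⟩
  rw [map_mul, map_mul, ← hf, ← hp, map_pow, map_pow, aeval_X, map_prod]
  have hE : aeval y DD = y (Sum.inl j) * ∏ i ∈ Finset.univ.erase j, y (Sum.inl i) := by
    rw [aeval_DD, Finset.mul_prod_erase Finset.univ (fun i : Fin n => y (Sum.inl i))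
      (Finset.mem_univ j)]
  simp only [aeval_X]
  have e1 : ((∏ i : Fin n, z (Sum.inl i)) * y (Sum.inl j) * y (Sum.inl j)) ^ N =
      (aeval y P * aeval y DD) ^ N := by rw [hD]
  calc u * (aeval y P) ^ N * (aeval y DD) ^ (N + M)
      = u * (aeval y P * aeval y DD) ^ N * (aeval y DD) ^ M := by rw [mul_pow, pow_add]; ring
    _ = u * ((∏ i : Fin n, z (Sum.inl i)) * y (Sum.inl j) * y (Sum.inl j)) ^ N *
        (y (Sum.inl j) * ∏ i ∈ Finset.univ.erase j, y (Sum.inl i)) ^ M := by rw [e1, hE]
    _ = _ := by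
        rw [mul_pow, mul_pow, mul_pow, two_mul, pow_add]
        ring

/-- the conclusion from two representations -/
lemma lau_of_relprime {y : Idx n r → K} (hy : AlgebraicIndependent ℤ y) {u : K}
    {P R f1 f2 : MvPolynomial (Idx n r) ℤ} {N M : ℕ}
    (h1 : u * (aeval y P) ^ N * (aeval y DD) ^ M = aeval y f1)
    (h2 : u * aeval y R = aeval y f2) (hP : aeval y P ≠ 0) (hrel : IsRelPrime P R) :
    Lau y u := by
  have hy0 : ∀ i, y i ≠ 0 := ne_zero_of_ai hy
  have e1 : f1 * R = f2 * P ^ N * DD ^ M := by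
    apply hy
    rw [map_mul, map_mul, map_mul, map_pow, map_pow, ← h1, ← h2]
    ring
  have e2 : P ^ N ∣ f1 * R := ⟨f2 * DD ^ M, by rw [e1]; ring⟩
  have e3 : P ^ N ∣ f1 := (IsRelPrime.pow_left hrel).dvd_of_dvd_mul_right e2
  obtain ⟨g, hg⟩ := e3
  rw [lau_iff hy0]
  refine ⟨M, g, ?_⟩
  rw [hg, map_mul, map_pow] at h1
  rw [← aeval_DD]
  have h3 : (aeval y P) ^ N ≠ 0 := pow_ne_zero _ hP
  apply mul_left_cancel₀ h3
  rw [← h1]
  ring

/-- the conclusion, with the second direction in terms of a substitution -/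
lemma conclude {y z : Idx n r → K} (hy : AlgebraicIndependent ℤ y) (hz : ∀ i, z i ≠ 0) {u : K}
    {P f1 : MvPolynomial (Idx n r) ℤ} {N M : ℕ}
    (h1 : u * (aeval y P) ^ N * (aeval y DD) ^ M = aeval y f1) (hP : aeval y P ≠ 0)
    (hu : Lau z u) (dd : MvPolynomial (Idx n r) ℤ) (g : Idx n r → MvPolynomial (Idx n r) ℤ)
    (hg : ∀ i, z i * aeval y dd = aeval y (g i)) (hrel : ∀ i : Fin n, IsRelPrime P (g (Sum.inl i)))
    (hdd : IsRelPrime P dd) : Lau y u := by
  obtain ⟨N', p, hp⟩ := (lau_iff hz u).1 hu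
  obtain ⟨M', f, hf⟩ := subst_poly dd g hg p
  have hprod : (∏ i : Fin n, z (Sum.inl i)) * (aeval y dd) ^ n =
      aeval y (∏ i : Fin n, g (Sum.inl i)) := by
    rw [map_prod, Finset.prod_congr rfl fun i _ => (hg (Sum.inl i)).symm,
      Finset.prod_mul_distrib, Finset.prod_const, Finset.card_univ, Fintype.card_fin]
  refine lau_of_relprime hy (P := P) (R := (∏ i : Fin n, g (Sum.inl i)) ^ N' * dd ^ M')
    (f2 := f * dd ^ (n * N')) h1 ?_ hP ?_
  · rw [map_mul, map_pow, map_pow, ← hprod, map_mul, map_pow, ← hf, ← hp, mul_pow, pow_mul]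
    ring
  · exact IsRelPrime.mul_right (IsRelPrime.pow_right (IsRelPrime.prod_right fun i _ => hrel i))
      (IsRelPrime.pow_right hdd)

/-- exponent vector with one entry replaced by zero -/
lemma prod_zero_at (y : Idx n r → K) (a : Idx n r) (e : Idx n r → ℕ) :
    ∏ i, y i ^ e i = y a ^ e a * ∏ i, y i ^ (Function.update e a 0 i) := by
  have := prod_update y a (y a) e
  rwa [Function.update_eq_self] at this

/-- changing the point at a place with exponent zero -/
lemma prod_update_zero (y : Idx n r → K) (a : Idx n r) (v : K) (e : Idx n r → ℕ) (he : e a = 0) :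
    ∏ i, (Function.update y a v i) ^ e i = ∏ i, y i ^ e i := by
  rw [prod_update, prod_zero_at y a e, he, pow_zero, pow_zero]

lemma mono_X (a : Idx n r) : (X a : MvPolynomial (Idx n r) ℤ) = monomial (Finsupp.single a 1) 1 :=
  rfl

lemma coprime_toNat (B : EMat n r) (k : Fin n) (i : Idx n r) :
    fe (fun i => (B i k).toNat) i = 0 ∨ fe (fun i => (-(B i k)).toNat) i = 0 := by
  rw [fe_apply, fe_apply]
  omega

lemma Pol_X (B : EMat n r) (k : Fin n) (a : Idx n r) : IsRelPrime (Pol B k) (X a) := by
  rw [Pol, mono_X]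
  exact relprime_binom_monomial _ _ _ (coprime_toNat B k)

/-- all data of a rank two step -/
lemma data {s : Seed K n r} (h : Good s) {j k : Fin n} (hjk : j ≠ k) :
    (s.mut k).x = Function.update ((s.mut k).mut j).x (Sum.inl j)
      (aeval ((s.mut k).mut j).x (Pol ((s.mut k).mut j).B j) / ((s.mut k).mut j).x (Sum.inl j)) ∧
    aeval ((s.mut k).mut j).x (Pol ((s.mut k).mut j).B j) ≠ 0 ∧
    s.x (Sum.inl k) = exch (s.mut k).x (s.mut k).B k ∧
    s.x (Sum.inl j) = (s.mut k).x (Sum.inl j) ∧
    (∀ i, i ≠ Sum.inl j → i ≠ Sum.inl k → s.x i = ((s.mut k).mut j).x i) ∧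
    (s.mut k).x (Sum.inl k) = ((s.mut k).mut j).x (Sum.inl k) := by
  have hjk' : (Sum.inl j : Idx n r) ≠ Sum.inl k := fun e => hjk (Sum.inl_injective e)
  have hk := h.mut k
  have e1 : (((s.mut k).mut j).mut j).x = (s.mut k).x := by rw [hk.mut_mut]
  have e2 : (((s.mut k).mut k)).x = s.x := by rw [h.mut_mut]
  have e3 : (s.mut k).x = Function.update ((s.mut k).mut j).x (Sum.inl j)
      (aeval ((s.mut k).mut j).x (Pol ((s.mut k).mut j).B j) /
        ((s.mut k).mut j).x (Sum.inl j)) := by
    rw [← e1, ← exch_eq]; rfl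
  refine ⟨e3, ?_, ?_, ?_, ?_, ?_⟩
  · intro h0
    have := congrFun e3 (Sum.inl j)
    rw [Function.update_self, h0, zero_div] at this
    exact ne_zero_of_ai hk.ai _ this
  · rw [← e2]
    exact Function.update_self _ _ _
  · exact (Function.update_of_ne hjk' _ _).symm
  · intro i hij hik
    have a1 : (s.mut k).x i = s.x i := Function.update_of_ne hik _ _
    have a2 : ((s.mut k).mut j).x i = (s.mut k).x i := Function.update_of_ne hij _ _
    rw [a2, a1]
  · exact (Function.update_of_ne hjk'.symm _ _).symm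

lemma two_zero {s : Seed K n r} (h : Good s) {j k : Fin n} (hjk : j ≠ k)
    (hc : s.B (Sum.inl j) k = 0) {u : K}
    (hj : Lau (s.mut j).x u) (hk : Lau (s.mut k).x u) : Lau ((s.mut k).mut j).x u := by
  obtain ⟨e3, hP, exk, exj, exi, eyk⟩ := data h hjk
  have hjk' : (Sum.inl j : Idx n r) ≠ Sum.inl k := fun e => hjk (Sum.inl_injective e)
  have hgk := h.mut k
  have hgt := hgk.mut j
  have hc' : s.B (Sum.inl k) j = 0 := by rw [h.ss, hc, neg_zero]
  have hB : ∀ i, ((s.mut k).mut j).B i j = -s.B i j := by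
    intro i
    have a1 : ((s.mut k).mut j).B i j = -(mutMat s.B k) i j := mutMat_col _ _ _
    rw [a1]
    rcases eq_or_ne i (Sum.inl k) with rfl | hik
    · rw [mutMat_row, hc']; simp
    · rw [mutMat_off _ _ _ _ hik hjk, hc']; simp
  have hBk : ∀ i, (s.mut k).B i k = -s.B i k := fun i => mutMat_col _ _ _
  set y := ((s.mut k).mut j).x with hy
  have hy0 : ∀ i, y i ≠ 0 := ne_zero_of_ai hgt.ai
  obtain ⟨N, M, f1, h1⟩ := first hy0 hP (u := u) (by rw [← e3]; exact hk)
  have hz0 : ∀ i, (s.mut j).x i ≠ 0 := ne_zero_of_ai (h.mut j).ai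
  have hPB : Pol ((s.mut k).mut j).B j = Pol s.B j := by
    rw [Pol, Pol, add_comm]
    congr 2
    · funext i; rw [hB]; simp
    · funext i; rw [hB]
  -- the value at `k`
  have vk : s.x (Sum.inl k) * y (Sum.inl k) = aeval y (Pol s.B k) := by
    rw [exk, exch, eyk, div_mul_cancel₀ _ (hy0 _), aeval_Pol, add_comm]
    rw [e3, prod_update_zero, prod_update_zero]
    · congr 1
      · refine Finset.prod_congr rfl fun i _ => ?_
        rw [hBk]; simp
      · refine Finset.prod_congr rfl fun i _ => ?_
        rw [hBk]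
    · rw [hBk, hc]; simp
    · rw [hBk, hc]; simp
  have vj : s.x (Sum.inl j) * y (Sum.inl j) = aeval y (Pol s.B j) := by
    rw [exj, e3, Function.update_self, hPB, div_mul_cancel₀ _ (hy0 _)]
  have vj' : (s.mut j).x (Sum.inl j) = y (Sum.inl j) := by
    have b1 : (s.mut j).x (Sum.inl j) = exch s.x s.B j := Function.update_self _ _ _
    rw [b1, exch]
    have hs : s.x = Function.update (Function.update y (Sum.inl j) (s.x (Sum.inl j)))
        (Sum.inl k) (s.x (Sum.inl k)) := by
      funext i
      rcases eq_or_ne i (Sum.inl k) with rfl | hik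
      · rw [Function.update_self]
      · rw [Function.update_of_ne hik]
        rcases eq_or_ne i (Sum.inl j) with rfl | hij
        · rw [Function.update_self]
        · rw [Function.update_of_ne hij, exi i hij hik]
    have hd : s.B (Sum.inl j) j = 0 := h.ss.diag j
    have e5 : (∏ i, s.x i ^ (s.B i j).toNat) + ∏ i, s.x i ^ (-s.B i j).toNat =
        aeval y (Pol s.B j) := by
      rw [aeval_Pol]
      rw [hs, prod_update_zero _ _ _ _ (by rw [hc']; simp),
        prod_update_zero _ _ _ _ (by rw [hd]; simp),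
        prod_update_zero _ _ _ _ (by rw [hc']; simp), prod_update_zero _ _ _ _ (by rw [hd]; simp)]
    rw [e5, ← vj, mul_div_cancel_left₀]
    exact ne_zero_of_ai h.ai _
  have vk' : (s.mut j).x (Sum.inl k) = s.x (Sum.inl k) := Function.update_of_ne hjk'.symm _ _
  have vi' : ∀ i, i ≠ Sum.inl j → i ≠ Sum.inl k → (s.mut j).x i = y i := by
    intro i hij hik
    have : (s.mut j).x i = s.x i := Function.update_of_ne hij _ _
    rw [this, exi i hij hik]
  have hrX : ∀ a, IsRelPrime (Pol ((s.mut k).mut j).B j) (X a) := Pol_X _ _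
  refine conclude hgt.ai hz0 h1 hP hj (X (Sum.inl k))
    (fun i => if i = Sum.inl k then Pol s.B k else X i * X (Sum.inl k)) ?_ ?_ (hrX _)
  · intro i
    rw [aeval_X]
    rcases eq_or_ne i (Sum.inl k) with rfl | hik
    · rw [if_pos rfl, vk', ← vk]
    · rw [if_neg hik, map_mul, aeval_X, aeval_X]
      rcases eq_or_ne i (Sum.inl j) with rfl | hij
      · rw [vj']
      · rw [vi' i hij hik]
  · intro i
    rcases eq_or_ne (Sum.inl i : Idx n r) (Sum.inl k) with hik | hik
    · simp only [hik, if_true]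
      rw [hPB]
      refine relprime_binom_binom _ _ _ _ (coprime_toNat _ _) (coprime_toNat _ _) ?_
      intro a b hab
      refine h.ci.two hjk (a := a) (b := b) fun i => ?_
      have := hab i
      simp only [fe_apply] at this
      have c1 : (((s.B i j).toNat : ℤ) - ((-s.B i j).toNat : ℤ)) = s.B i j := by omega
      have c2 : (((s.B i k).toNat : ℤ) - ((-s.B i k).toNat : ℤ)) = s.B i k := by omega
      rwa [c1, c2] at this
    · simp only [hik, if_false]
      exact IsRelPrime.mul_right (hrX _) (hrX _)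

lemma two_pos {s : Seed K n r} (h : Good s) {j k : Fin n} (hjk : j ≠ k) {c : ℕ} (hc0 : 0 < c)
    (hc : s.B (Sum.inl j) k = c) {u : K}
    (hj : Lau (s.mut j).x u) (hk : Lau (s.mut k).x u) : Lau ((s.mut k).mut j).x u := by
  obtain ⟨e3, hP, exk, exj, exi, eyk⟩ := data h hjk
  have hjk' : (Sum.inl j : Idx n r) ≠ Sum.inl k := fun e => hjk (Sum.inl_injective e)
  have hgk := h.mut k
  have hgt := hgk.mut j
  have hc' : s.B (Sum.inl k) j = -c := by rw [h.ss, hc]
  have hjj : s.B (Sum.inl j) j = 0 := h.ss.diag j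
  have hkk : s.B (Sum.inl k) k = 0 := h.ss.diag k
  have hBi : ∀ i, i ≠ Sum.inl k →
      ((s.mut k).mut j).B i j = -s.B i j + c * max (-s.B i k) 0 := by
    intro i hik
    have a1 : ((s.mut k).mut j).B i j = -(mutMat s.B k) i j := mutMat_col _ _ _
    rw [a1, mutMat_off _ _ _ _ hik hjk, hc']
    have e : max (s.B i k) 0 = s.B i k + max (-s.B i k) 0 := by
      rcases le_total (s.B i k) 0 with h | h
      · rw [max_eq_right h, max_eq_left (by omega)]; omega
      · rw [max_eq_left h, max_eq_right (by omega)]; omega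
    rw [e, neg_neg, max_eq_left (Int.natCast_nonneg c)]
    ring
  have hBkj : ((s.mut k).mut j).B (Sum.inl k) j = -c := by
    have a1 : ((s.mut k).mut j).B (Sum.inl k) j = -(mutMat s.B k) (Sum.inl k) j :=
      mutMat_col _ _ _
    rw [a1, mutMat_row, hc']; ring
  have hBjj : ((s.mut k).mut j).B (Sum.inl j) j = 0 := hgt.ss.diag j
  have hBk : ∀ i, (s.mut k).B i k = -s.B i k := fun i => mutMat_col _ _ _
  set y := ((s.mut k).mut j).x with hy
  set T := ((s.mut k).mut j).B with hT
  have hy0 : ∀ i, y i ≠ 0 := ne_zero_of_ai hgt.ai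
  obtain ⟨N, M, f1, h1⟩ := first hy0 hP (u := u) (by rw [← e3]; exact hk)
  have hz0 : ∀ i, (s.mut j).x i ≠ 0 := ne_zero_of_ai (h.mut j).ai
  -- the exponent vectors
  let α : Idx n r → ℕ := Function.update (fun i => (-s.B i j).toNat) (Sum.inl k) 0
  let β : Idx n r → ℕ := fun i => (s.B i j).toNat
  let γ : Idx n r → ℕ := Function.update (fun i => (s.B i k).toNat) (Sum.inl j) 0
  let δ : Idx n r → ℕ := fun i => (-s.B i k).toNat
  let α' : Idx n r → ℕ := fun i => (T i j).toNat
  let β' : Idx n r → ℕ := Function.update (fun i => (-T i j).toNat) (Sum.inl k) 0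
  let θ : Idx n r → ℕ := fun i => min (β i) (α i + c * δ i)
  have hαj : α (Sum.inl j) = 0 := by simp [α, hjj, Function.update_of_ne hjk']
  have hβj : β (Sum.inl j) = 0 := by simp [β, hjj]
  have hγj : γ (Sum.inl j) = 0 := by simp [γ]
  have hδj : δ (Sum.inl j) = 0 := by simp [δ, hc]
  have hα'j : α' (Sum.inl j) = 0 := by simp [α', hBjj]
  have hβ'j : β' (Sum.inl j) = 0 := by simp [β', hBjj, Function.update_of_ne hjk']
  have hθj : θ (Sum.inl j) = 0 := by simp [θ, hβj]
  have hα'k : α' (Sum.inl k) = 0 := by simp [α', hBkj]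
  have hβ'k : β' (Sum.inl k) = 0 := by simp [β']
  have hαk : α (Sum.inl k) = 0 := by simp [α]
  have hβk : β (Sum.inl k) = 0 := by simp [β, hc']
  have hδk : δ (Sum.inl k) = 0 := by simp [δ, hkk]
  have hTT : ∀ i, i ≠ Sum.inl k → T i j = (α i : ℤ) + c * δ i - β i := by
    intro i hik
    rw [hBi i hik]
    have a1 : (α i : ℤ) - β i = -s.B i j := by
      simp only [α, β, Function.update_of_ne hik]
      omega
    have a2 : (δ i : ℤ) = max (-s.B i k) 0 := by
      simp only [δ]; omega
    rw [← a2]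
    linarith
  have H1 : ∀ i, α i + c * δ i = θ i + α' i := by
    intro i
    rcases eq_or_ne i (Sum.inl k) with rfl | hik
    · simp only [θ, hαk, hβk, hδk, hα'k]; simp
    · have := hTT i hik
      simp only [θ, α']
      have e : ((α i + c * δ i : ℕ) : ℤ) = (α i : ℤ) + c * δ i := by push_cast; ring
      generalize α i + c * δ i = w at *
      omega
  have H2 : ∀ i, β i = θ i + β' i := by
    intro i
    rcases eq_or_ne i (Sum.inl k) with rfl | hik
    · simp only [θ, hβk, hβ'k]; simp
    · have := hTT i hik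
      simp only [θ, β', Function.update_of_ne hik]
      have e : ((α i + c * δ i : ℕ) : ℤ) = (α i : ℤ) + c * δ i := by push_cast; ring
      generalize α i + c * δ i = w at *
      omega
  have H3 : ∀ i, α' i = 0 ∨ β' i = 0 := by
    intro i
    rcases eq_or_ne i (Sum.inl k) with rfl | hik
    · exact Or.inr hβ'k
    · simp only [α', β', Function.update_of_ne hik]; omega
  have hPol : Pol T j = mn α' + mn β' * X (Sum.inl k) ^ c := by
    have hfe : fe (fun i => (-T i j).toNat) = fe β' + c • Finsupp.single (Sum.inl k) 1 := by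
      ext i
      rw [fe_apply, Finsupp.add_apply, fe_apply, Finsupp.smul_apply, Finsupp.single_apply]
      rcases eq_or_ne i (Sum.inl k) with rfl | hik
      · rw [hβ'k, if_pos rfl, hBkj]; simp
      · rw [if_neg hik.symm]
        simp only [β', Function.update_of_ne hik]; simp
    rw [Pol, mono_X, monomial_pow, monomial_mul, one_pow, one_mul, mn, mn, hfe]
  have ts := ts_mv (Sum.inl j) (Sum.inl k) hjk' (fe α) (fe β) (fe γ) (fe δ) (fe α') (fe β')
    (fe θ) c c hc0 hc0 ⟨hαj, hβj, hγj, hδj, hα'j, hβ'j, hθj⟩ hα'k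
    (by ext i; simpa using H1 i) (by ext i; simpa using H2 i) H3
  rw [← hPol] at ts
  have hrX : ∀ a, IsRelPrime (Pol T j) (X a) := Pol_X _ _
  obtain ⟨W, hW, hrel⟩ := ts 0
  set Y : MvPolynomial (Idx n r) ℤ := mn γ * Pol T j ^ c + mn δ * X (Sum.inl j) ^ c with hY
  have hrelY : IsRelPrime (Pol T j) Y := hrel.of_mul_right_left.of_mul_right_right
  have hrelW : IsRelPrime (Pol T j) W := hrel.of_mul_right_right
  -- the values
  have vj : s.x (Sum.inl j) * y (Sum.inl j) = aeval y (Pol T j) := by
    rw [exj, e3, Function.update_self, div_mul_cancel₀ _ (hy0 _)]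
  have vk0 : s.x (Sum.inl k) * y (Sum.inl k) =
      aeval y (mn γ) * s.x (Sum.inl j) ^ c + aeval y (mn δ) := by
    rw [exk, exch, eyk, div_mul_cancel₀ _ (hy0 _), exj]
    rw [e3, Function.update_self, aeval_mn, aeval_mn]
    rw [prod_update _ _ _ (fun i => ((s.mut k).B i k).toNat),
      prod_update _ _ _ (fun i => (-(s.mut k).B i k).toNat)]
    have b1 : ((s.mut k).B (Sum.inl j) k).toNat = 0 := by rw [hBk, hc]; simp
    have b2 : (-(s.mut k).B (Sum.inl j) k).toNat = c := by rw [hBk, hc]; simp
    rw [b1, b2, pow_zero, one_mul, add_comm, mul_comm]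
    congr 1
    · congr 1
      refine Finset.prod_congr rfl fun i _ => ?_
      congr 1
      simp only [γ]
      congr 1
      funext i
      rw [hBk]; simp
    · refine Finset.prod_congr rfl fun i _ => ?_
      congr 1
      rcases eq_or_ne i (Sum.inl j) with rfl | hij
      · rw [Function.update_self, hδj]
      · rw [Function.update_of_ne hij, hBk]
  have vk : s.x (Sum.inl k) * (y (Sum.inl k) * y (Sum.inl j) ^ c) = aeval y Y := by
    rw [hY, map_add, map_mul, map_mul, map_pow, map_pow, aeval_X, ← vj, ← mul_assoc, vk0]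
    ring
  have vj0 : (s.mut j).x (Sum.inl j) * s.x (Sum.inl j) =
      aeval y (mn β) + aeval y (mn α) * s.x (Sum.inl k) ^ c := by
    have b1 : (s.mut j).x (Sum.inl j) = exch s.x s.B j := Function.update_self _ _ _
    rw [b1, exch, div_mul_cancel₀ _ (ne_zero_of_ai h.ai _)]
    have hs : s.x = Function.update (Function.update y (Sum.inl j) (s.x (Sum.inl j)))
        (Sum.inl k) (s.x (Sum.inl k)) := by
      funext i
      rcases eq_or_ne i (Sum.inl k) with rfl | hik
      · rw [Function.update_self]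
      · rw [Function.update_of_ne hik]
        rcases eq_or_ne i (Sum.inl j) with rfl | hij
        · rw [Function.update_self]
        · rw [Function.update_of_ne hij, exi i hij hik]
    have g1 : ∏ i, s.x i ^ (s.B i j).toNat = ∏ i, y i ^ (s.B i j).toNat := by
      rw [hs, prod_update_zero _ _ _ _ hβk, prod_update_zero _ _ _ _ hβj]
    have g2 : ∏ i, s.x i ^ (-s.B i j).toNat = s.x (Sum.inl k) ^ c * ∏ i, y i ^ α i := by
      conv_lhs => rw [hs]
      rw [prod_update _ _ _ (fun i => (-s.B i j).toNat), prod_update_zero _ _ _ _ hαj]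
      congr 2
      rw [hc']; simp
    rw [g1, g2, aeval_mn, aeval_mn]
    ring
  have vj' : (s.mut j).x (Sum.inl j) * (y (Sum.inl k) ^ c * y (Sum.inl j) ^ (c * c)) =
      y (Sum.inl j) * aeval y W := by
    have hPW := congrArg (aeval y) hW
    rw [map_mul, map_add, map_mul, map_mul, map_mul, map_pow, map_pow, map_pow, aeval_X,
      aeval_X] at hPW
    have hsj : s.x (Sum.inl j) ≠ 0 := ne_zero_of_ai h.ai _
    have hq : s.x (Sum.inl j) ≠ 0 := hsj
    apply mul_left_cancel₀ hq
    have step1 : s.x (Sum.inl j) * ((s.mut j).x (Sum.inl j) *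
        (y (Sum.inl k) ^ c * y (Sum.inl j) ^ (c * c))) =
        ((s.mut j).x (Sum.inl j) * s.x (Sum.inl j)) *
        (y (Sum.inl k) ^ c * y (Sum.inl j) ^ (c * c)) := by ring
    have step2 : s.x (Sum.inl j) * (y (Sum.inl j) * aeval y W) =
        aeval y (Pol T j) * aeval y W := by rw [← mul_assoc, vj]
    rw [step1, step2, ← hPW, vj0, ← vk, mul_pow, mul_pow, ← pow_mul]
    ring
  have vk' : (s.mut j).x (Sum.inl k) = s.x (Sum.inl k) := Function.update_of_ne hjk'.symm _ _
  have vi' : ∀ i, i ≠ Sum.inl j → i ≠ Sum.inl k → (s.mut j).x i = y i := by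
    intro i hij hik
    have : (s.mut j).x i = s.x i := Function.update_of_ne hij _ _
    rw [this, exi i hij hik]
  have hdd : IsRelPrime (Pol T j) (X (Sum.inl k) ^ (c + 1) * X (Sum.inl j) ^ (c * c + c)) :=
    IsRelPrime.mul_right (IsRelPrime.pow_right (hrX _)) (IsRelPrime.pow_right (hrX _))
  refine conclude hgt.ai hz0 h1 hP hj (X (Sum.inl k) ^ (c + 1) * X (Sum.inl j) ^ (c * c + c))
    (fun i => if i = Sum.inl k then Y * (X (Sum.inl k) ^ c * X (Sum.inl j) ^ (c * c)) else
      if i = Sum.inl j then X (Sum.inl j) * W * (X (Sum.inl k) * X (Sum.inl j) ^ c) else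
      X i * (X (Sum.inl k) ^ (c + 1) * X (Sum.inl j) ^ (c * c + c))) ?_ ?_ hdd
  · intro i
    rcases eq_or_ne i (Sum.inl k) with rfl | hik
    · simp only [if_true]
      rw [vk', map_mul, map_mul, map_mul, map_pow, map_pow, map_pow, map_pow, aeval_X, aeval_X,
        ← vk]
      ring
    · rw [if_neg hik]
      rcases eq_or_ne i (Sum.inl j) with rfl | hij
      · simp only [if_true]
        rw [map_mul, map_mul, map_mul, map_mul, map_pow, map_pow, map_pow, aeval_X, aeval_X,
          ← vj']
        ring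
      · rw [if_neg hij, vi' i hij hik, map_mul (aeval y) (X i), aeval_X]
  · intro i
    rcases eq_or_ne (Sum.inl i : Idx n r) (Sum.inl k) with hik | hik
    · simp only [hik, if_true]
      exact IsRelPrime.mul_right hrelY (IsRelPrime.mul_right (IsRelPrime.pow_right (hrX _))
        (IsRelPrime.pow_right (hrX _)))
    · rcases eq_or_ne (Sum.inl i : Idx n r) (Sum.inl j) with hij | hij
      · simp only [hij, if_true]
        simp only [hij] at hik
        rw [if_neg hjk']
        exact IsRelPrime.mul_right (IsRelPrime.mul_right (hrX _) hrelW)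
          (IsRelPrime.mul_right (hrX _) (IsRelPrime.pow_right (hrX _)))
      · simp only [if_neg hik, if_neg hij]
        exact IsRelPrime.mul_right (hrX _) hdd

/-- the negated seed -/
def negS (s : Seed K n r) : Seed K n r := ⟨s.x, fun i j => -s.B i j⟩

lemma exch_neg (x : Idx n r → K) (B : EMat n r) (k : Fin n) :
    exch x (fun i j => -B i j) k = exch x B k := by
  rw [exch, exch, add_comm]
  simp only [neg_neg]

lemma mutMat_neg (B : EMat n r) (k : Fin n) :
    mutMat (fun i j => -B i j) k = fun i j => -(mutMat B k i j) := by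
  funext i j
  rcases eq_or_ne i (Sum.inl k) with rfl | hi
  · rw [mutMat_row, mutMat_row]
  · rcases eq_or_ne j k with rfl | hj
    · rw [mutMat_col, mutMat_col]
    · rw [mutMat_off _ _ _ _ hi hj, mutMat_off _ _ _ _ hi hj]
      have e1 : max (B i k) 0 = B i k + max (-B i k) 0 := by
        rcases le_total (B i k) 0 with h | h
        · rw [max_eq_right h, max_eq_left (by omega)]; omega
        · rw [max_eq_left h, max_eq_right (by omega)]; omega
      have e2 : max (B (Sum.inl k) j) 0 = B (Sum.inl k) j + max (-B (Sum.inl k) j) 0 := by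
        rcases le_total (B (Sum.inl k) j) 0 with h | h
        · rw [max_eq_right h, max_eq_left (by omega)]; omega
        · rw [max_eq_left h, max_eq_right (by omega)]; omega
      rw [neg_neg, e1, e2]
      ring

lemma negS_mut (s : Seed K n r) (k : Fin n) : (negS s).mut k = negS (s.mut k) := by
  rw [Seed.mut, negS, negS, Seed.mut]
  simp only [exch_neg, mutMat_neg]

lemma negS_good {s : Seed K n r} (h : Good s) : Good (negS s) := by
  refine ⟨h.ai, ?_, ?_⟩
  · intro i j
    have := h.ss i j
    simp only [negS]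
    rw [this]
  · intro c hc
    refine h.ci c fun i => ?_
    have := hc i
    simp only [negS, neg_mul, Finset.sum_neg_distrib] at this
    exact neg_eq_zero.1 this

end TwoStep

open TwoStep

/-- The two step lemma. -/
theorem two_step {s : Seed K n r} (h : Good s) {j k : Fin n} (hjk : j ≠ k) {u : K}
    (hj : Lau (s.mut j).x u) (hk : Lau (s.mut k).x u) : Lau ((s.mut k).mut j).x u := by
  rcases lt_trichotomy (s.B (Sum.inl j) k) 0 with hc | hc | hc
  · have key := two_pos (negS_good h) hjk (c := (-s.B (Sum.inl j) k).toNat) (by omega)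
      (by simp only [negS]; omega) (u := u) (by rw [negS_mut]; exact hj)
      (by rw [negS_mut]; exact hk)
    rw [negS_mut, negS_mut] at key
    exact key
  · exact two_zero h hjk hc hj hk
  · exact two_pos h hjk (c := (s.B (Sum.inl j) k).toNat) (by omega) (by omega) hj hk

end Pool.Agent.LibSP
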