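import Pool.Agent.LibSP.Mat
import Pool.Agent.LibSP.Mut

/-!
Good seeds and Laurent elements.
-/

set_option autoImplicit false

namespace Pool.Agent.LibSP

variable {K : Type} [Field K] {n r : ℕ}

/-- Seeds with algebraically independent extended cluster, skew-symmetric exchange matrix and
linearly independent columns. -/
structure Good (s : Seed K n r) : Prop where
  ai : AlgebraicIndependent ℤ s.x
  ss : SkewSymm s.B
  ci : ColIndep s.B

lemma mono_max (x : Idx n r → K) (m : Idx n r → ℤ) :
    mono x (fun i => max (m i) 0) = ∏ i, x i ^ (m i).toNat := by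
  unfold mono
  refine Finset.prod_congr rfl fun i _ => ?_
  rw [← zpow_natCast]
  congr 1
  change max (m i) 0 = _
  omega

lemma exch_eq (x : Idx n r → K) (B : EMat n r) (k : Fin n) :
    exch x B k = (mono x (fun i => max (B i k) 0) + mono x (fun i => max (-B i k) 0)) /
      x (Sum.inl k) := by
  rw [exch, mono_max x (fun i => B i k), mono_max x (fun i => -B i k)]

/-- Seed mutation in terms of `bmut`. -/
lemma mut_x (s : Seed K n r) (k : Fin n) :
    (s.mut k).x = bmut s.x (Sum.inl k) (fun i => max (s.B i k) 0) (fun i => max (-s.B i k) 0) := by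
  rw [bmut, ← exch_eq]
  rfl

theorem Good.mut {s : Seed K n r} (h : Good s) (k : Fin n) : Good (s.mut k) := by
  refine ⟨?_, h.ss.mut k, h.ci.mut h.ss k⟩
  rw [mut_x]
  apply ai_bmut h.ai
  · simp [h.ss.diag k]
  · simp [h.ss.diag k]
  · intro heq
    obtain ⟨i, hi⟩ := h.ci.ne_zero k
    have h1 : max (s.B i k) 0 = max (-s.B i k) 0 := congrFun heq i
    omega

lemma mono_update {x : Idx n r → K} {i₀ : Idx n r} {y : K} {m : Idx n r → ℤ} (hm : m i₀ = 0) :
    mono (Function.update x i₀ y) m = mono x m := by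
  unfold mono
  refine Finset.prod_congr rfl fun i _ => ?_
  by_cases hi : i = i₀
  · subst hi
    rw [hm, zpow_zero, zpow_zero]
  · rw [Function.update_of_ne hi]

theorem Good.mut_mut {s : Seed K n r} (h : Good s) (k : Fin n) : (s.mut k).mut k = s := by
  have hkk := h.ss.diag k
  have hx0 : s.x (Sum.inl k) ≠ 0 := ne_zero_of_ai h.ai _
  have he0 : (s.mut k).x (Sum.inl k) ≠ 0 := ne_zero_of_ai (h.mut k).ai _
  have he : (s.mut k).x (Sum.inl k) = exch s.x s.B k := by
    change Function.update s.x (Sum.inl k) (exch s.x s.B k) (Sum.inl k) = _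
    rw [Function.update_self]
  rw [he] at he0
  have hxx : ((s.mut k).mut k).x = s.x := by
    change Function.update (Function.update s.x (Sum.inl k) (exch s.x s.B k)) (Sum.inl k)
      (exch (Function.update s.x (Sum.inl k) (exch s.x s.B k)) (mutMat s.B k) k) = s.x
    rw [Function.update_idem]
    have h1 : exch (Function.update s.x (Sum.inl k) (exch s.x s.B k)) (mutMat s.B k) k =
        s.x (Sum.inl k) := by
      rw [exch_eq, Function.update_self]
      simp only [mutMat_col, neg_neg]
      rw [mono_update (by simp [hkk]), mono_update (by simp [hkk]), add_comm]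
      have h2 : mono s.x (fun i => max (s.B i k) 0) + mono s.x (fun i => max (-s.B i k) 0) =
          exch s.x s.B k * s.x (Sum.inl k) := by
        rw [exch_eq, div_mul_cancel₀ _ hx0]
      rw [h2, mul_div_cancel_left₀ _ he0]
    rw [h1, Function.update_eq_self]
  have hBB : ((s.mut k).mut k).B = s.B := mutMat_mutMat h.ss k
  have hext : ∀ t t' : Seed K n r, t.x = t'.x → t.B = t'.B → t = t' := by
    rintro ⟨x, B⟩ ⟨x', B'⟩ h1 h2
    simp only at h1 h2
    rw [h1, h2]
  exact hext _ _ hxx hBB

/-- Laurent polynomials form a ring. -/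
lemma Lau.add {x : Idx n r → K} {u v : K} (hu : Lau x u) (hv : Lau x v) : Lau x (u + v) := by
  obtain ⟨L, hL, rfl⟩ := hu
  obtain ⟨L', hL', rfl⟩ := hv
  refine ⟨L + L', ?_, ev_add _ _ _⟩
  intro m hm
  by_cases h : L.coeff m = 0
  · apply hL'
    intro h'
    apply hm
    rw [AddMonoidAlgebra.coeff_add, Finsupp.add_apply, h, h', add_zero]
  · exact hL m h

lemma Lau.mul {x : Idx n r → K} (hx : ∀ i, x i ≠ 0) {u v : K} (hu : Lau x u) (hv : Lau x v) :
    Lau x (u * v) := by
  classical
  obtain ⟨L, hL, rfl⟩ := hu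
  obtain ⟨L', hL', rfl⟩ := hv
  refine ⟨L * L', ?_, ev_mul hx _ _⟩
  intro m hm j
  have h1 := AddMonoidAlgebra.support_coeff_mul_subset L L' (Finsupp.mem_support_iff.2 hm)
  obtain ⟨a, ha, b, hb, rfl⟩ := Finset.mem_add.1 h1
  have := hL a (Finsupp.mem_support_iff.1 ha) j
  have := hL' b (Finsupp.mem_support_iff.1 hb) j
  simp only [Pi.add_apply]
  omega

lemma Lau.neg {x : Idx n r → K} {u : K} (hu : Lau x u) : Lau x (-u) := by
  obtain ⟨L, hL, rfl⟩ := hu
  refine ⟨-L, ?_, ev_neg _ _⟩
  intro m hm
  apply hL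
  intro h
  apply hm
  rw [AddMonoidAlgebra.coeff_neg, Finsupp.neg_apply, h, neg_zero]

lemma lau_mono (x : Idx n r → K) (m : Idx n r → ℤ) (hm : ∀ j, 0 ≤ m (Sum.inr j)) (a : ℤ) :
    Lau x ((a : K) * mono x m) := by
  classical
  refine ⟨AddMonoidAlgebra.single m a, ?_, ev_single _ _ _⟩
  intro m' hm'
  rw [AddMonoidAlgebra.coeff_single, Finsupp.single_apply] at hm'
  by_cases h : m = m'
  · subst h
    exact hm
  · rw [if_neg h] at hm'
    exact absurd rfl hm'

lemma Lau.var (x : Idx n r → K) (i : Idx n r) : Lau x (x i) := by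
  have := lau_mono x (Pi.single i 1) (fun j => by
    by_cases h : Sum.inr j = i
    · subst h; simp
    · rw [Pi.single_eq_of_ne h]) 1
  rwa [mono_single, zpow_one, Int.cast_one, one_mul] at this

lemma Lau.var_inv (x : Idx n r → K) (k : Fin n) : Lau x (x (Sum.inl k))⁻¹ := by
  have := lau_mono x (Pi.single (Sum.inl k) (-1)) (fun j => by
    rw [Pi.single_eq_of_ne (by simp)]) 1
  rwa [mono_single, zpow_neg_one, Int.cast_one, one_mul] at this

lemma Lau.int (x : Idx n r → K) (a : ℤ) : Lau x (a : K) := by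
  have := lau_mono x 0 (fun j => le_rfl) a
  rwa [mono_zero, mul_one] at this

lemma Lau.pow {x : Idx n r → K} (hx : ∀ i, x i ≠ 0) {u : K} (hu : Lau x u) (N : ℕ) :
    Lau x (u ^ N) := by
  induction N with
  | zero => simpa using Lau.int x 1
  | succ N ih => rw [pow_succ]; exact Lau.mul hx ih hu

lemma Lau.aeval {x : Idx n r → K} (hx : ∀ i, x i ≠ 0) (p : MvPolynomial (Idx n r) ℤ) :
    Lau x (MvPolynomial.aeval x p) := by
  induction p using MvPolynomial.induction_on with
  | C a =>
    rw [MvPolynomial.aeval_C]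
    exact Lau.int x a
  | add p q hp hq =>
    rw [map_add]
    exact hp.add hq
  | mul_X p i hp =>
    rw [map_mul, MvPolynomial.aeval_X]
    exact hp.mul hx (Lau.var x i)

/-- Laurent polynomials are the elements which become polynomials after multiplication by a power
of the product of the cluster variables. -/
lemma lau_iff {x : Idx n r → K} (hx : ∀ i, x i ≠ 0) (u : K) :
    Lau x u ↔ ∃ (N : ℕ) (p : MvPolynomial (Idx n r) ℤ),
      u * (∏ j : Fin n, x (Sum.inl j)) ^ N = MvPolynomial.aeval x p := by
  classical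
  constructor
  · rintro ⟨L, hL, rfl⟩
    set N : ℕ := ∑ m ∈ L.coeff.support, ∑ i, (m i).natAbs with hN
    refine ⟨N, ∑ m ∈ L.coeff.support, MvPolynomial.monomial
      (Finsupp.equivFunOnFinite.symm fun i => (m i + Sum.elim (fun _ : Fin n => (N : ℤ)) (fun _ => 0) i).toNat)
      (L.coeff m), ?_⟩
    have hprod : (∏ j : Fin n, x (Sum.inl j)) ^ N =
        mono x (Sum.elim (fun _ : Fin n => (N : ℤ)) (fun _ => 0)) := by
      rw [mono, Fintype.prod_sum_type]
      simp [Finset.prod_pow]
    rw [hprod, ev, Finsupp.sum, Finset.sum_mul, map_sum]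
    refine Finset.sum_congr rfl fun m hm => ?_
    rw [MvPolynomial.aeval_monomial, mul_assoc, ← mono_add hx, mono,
      Finsupp.prod_fintype _ _ (by simp)]
    congr 1
    refine Finset.prod_congr rfl fun i _ => ?_
    rw [← zpow_natCast]
    congr 1
    simp only [Pi.add_apply, Finsupp.equivFunOnFinite_symm_apply_apply]
    rw [Int.toNat_of_nonneg]
    have h1 : (m i).natAbs ≤ N := by
      refine le_trans (Finset.single_le_sum (f := fun i => (m i).natAbs) (by simp)
        (Finset.mem_univ i)) ?_
      exact Finset.single_le_sum (f := fun m : Idx n r → ℤ => ∑ i, (m i).natAbs) (by simp) hm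
    rcases i with i | j
    · simp only [Sum.elim_inl]
      omega
    · simp only [Sum.elim_inr, add_zero]
      exact hL m (Finsupp.mem_support_iff.1 hm) j
  · rintro ⟨N, p, h⟩
    have h1 : u = MvPolynomial.aeval x p * (∏ j : Fin n, (x (Sum.inl j))⁻¹) ^ N := by
      rw [← h, mul_assoc, ← mul_pow, ← Finset.prod_mul_distrib]
      rw [Finset.prod_eq_one (fun j _ => mul_inv_cancel₀ (hx _)), one_pow, mul_one]
    rw [h1]
    refine (Lau.aeval hx p).mul hx (Lau.pow hx ?_ N)
    have : ∀ s : Finset (Fin n), Lau x (∏ j ∈ s, (x (Sum.inl j))⁻¹) := by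
      intro s
      induction s using Finset.induction_on with
      | empty => simpa using Lau.int x 1
      | insert j s hj ih =>
        rw [Finset.prod_insert hj]
        exact (Lau.var_inv x j).mul hx ih
    exact this _

end Pool.Agent.LibSP
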