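import Mathlib

/-!
Coprimality in one variable; binomials and monomials.
-/

set_option autoImplicit false

namespace Pool.Agent.LibSP

open Polynomial in
/-- The key coprimality, in one variable over a unique factorization domain. -/
theorem ts_poly {G : Type} [CommRing G] [IsDomain G] [UniqueFactorizationMonoid G]
    (P sk α β γ δ θ : G) (b c : ℕ) (hb : 0 < b) (hc : 0 < c) (hP : P ≠ 0)
    (hδ : IsRelPrime P δ) (hθ : IsRelPrime P θ) (rel : α * δ ^ b + β * sk ^ b = θ * P) :
    ∃ W : G[X], C α * (C γ * C P ^ c + C δ * X ^ c) ^ b + C β * C sk ^ b * X ^ (c * b) = C P * W ∧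
      IsRelPrime (C P) (X * (C γ * C P ^ c + C δ * X ^ c) * W) := by
  set Y : G[X] := C γ * C P ^ c + C δ * X ^ c with hY
  set T : G[X] := C δ * X ^ c with hT
  set Z : G[X] := ∑ i ∈ Finset.range b, Y ^ i * T ^ (b - 1 - i) with hZ
  obtain ⟨c', rfl⟩ : ∃ c', c = c' + 1 := ⟨c - 1, by omega⟩
  obtain ⟨b', rfl⟩ : ∃ b', b = b' + 1 := ⟨b - 1, by omega⟩
  have hZ2 : Z * (Y - T) = Y ^ (b' + 1) - T ^ (b' + 1) := geom_sum₂_mul Y T (b' + 1)
  have hYT : Y - T = C γ * C P ^ (c' + 1) := by rw [hY, hT]; ring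
  have hTd : T.natDegree ≤ c' + 1 := by
    rw [hT]
    exact natDegree_C_mul_X_pow_le δ (c' + 1)
  have hYd : Y.natDegree ≤ c' + 1 := by
    rw [hY]
    refine (natDegree_add_le _ _).trans (max_le ?_ hTd)
    rw [← C_pow, ← C_mul, natDegree_C]
    exact Nat.zero_le _
  have hZd : Z.natDegree ≤ (c' + 1) * b' := by
    rw [hZ]
    refine natDegree_sum_le_of_forall_le _ _ fun i hi => ?_
    have hi' : i ≤ b' := Nat.lt_succ_iff.mp (Finset.mem_range.mp hi)
    refine natDegree_mul_le.trans ?_
    have h1 : (Y ^ i).natDegree ≤ i * (c' + 1) :=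
      natDegree_pow_le.trans (Nat.mul_le_mul_left _ hYd)
    have h2 : (T ^ (b' + 1 - 1 - i)).natDegree ≤ (b' + 1 - 1 - i) * (c' + 1) :=
      natDegree_pow_le.trans (Nat.mul_le_mul_left _ hTd)
    refine (Nat.add_le_add h1 h2).trans ?_
    rw [← Nat.add_mul]
    have : i + (b' + 1 - 1 - i) = b' := by omega
    rw [this, mul_comm]
  set W : G[X] := C θ * X ^ ((c' + 1) * (b' + 1)) + C (α * γ * P ^ c') * Z with hW
  have hCP : (C P : G[X]) ≠ 0 := by
    rw [Ne, C_eq_zero]
    exact hP
  refine ⟨W, ?_, ?_⟩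
  · have hYb : Y ^ (b' + 1) = C γ * C P ^ (c' + 1) * Z + (C δ * X ^ (c' + 1)) ^ (b' + 1) := by
      have := hZ2
      rw [hYT] at this
      rw [← hT]
      linear_combination -this
    rw [hYb, hW]
    have hrel : (C α * C δ ^ (b' + 1) + C β * C sk ^ (b' + 1) : G[X]) = C θ * C P := by
      rw [← C_pow, ← C_mul, ← C_pow, ← C_mul, ← C_add, rel, C_mul]
    simp only [C_mul, C_pow]
    rw [mul_pow, ← pow_mul]
    linear_combination (X ^ ((c' + 1) * (b' + 1)) : G[X]) * hrel
  · rw [UniqueFactorizationMonoid.isRelPrime_iff_no_prime_factors hCP]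
    intro d hd1 hd2 hdp
    have hd0 : d.natDegree ≤ 0 := by
      have := natDegree_le_of_dvd hd1 hCP
      rwa [natDegree_C] at this
    obtain ⟨π, rfl⟩ : ∃ π : G, d = C π := ⟨_, eq_C_of_natDegree_le_zero hd0⟩
    have hπ : Prime π := prime_C_iff.mp hdp
    have hπP : π ∣ P := by
      have := (C_dvd_iff_dvd_coeff π (C P)).mp hd1 0
      rwa [coeff_C_zero] at this
    rcases hdp.dvd_or_dvd hd2 with h3 | h3
    · rcases hdp.dvd_or_dvd h3 with h4 | h4
      · have := (C_dvd_iff_dvd_coeff π X).mp h4 1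
        rw [coeff_X_one] at this
        exact hπ.not_isUnit (isUnit_of_dvd_one this)
      · have := (C_dvd_iff_dvd_coeff π Y).mp h4 (c' + 1)
        rw [hY, ← C_pow, ← C_mul, coeff_add, coeff_C, if_neg (Nat.succ_ne_zero c'), zero_add, hT,
          coeff_C_mul_X_pow, if_pos rfl] at this
        exact hπ.not_isUnit (hδ hπP this)
    · have := (C_dvd_iff_dvd_coeff π W).mp h3 ((c' + 1) * (b' + 1))
      have hz : Z.coeff ((c' + 1) * (b' + 1)) = 0 := by
        refine coeff_eq_zero_of_natDegree_lt (lt_of_le_of_lt hZd ?_)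
        exact Nat.mul_lt_mul_of_pos_left (Nat.lt_succ_self b') (Nat.succ_pos c')
      rw [hW, coeff_add, coeff_C_mul_X_pow, if_pos rfl, coeff_C_mul, hz, mul_zero, add_zero] at this
      exact hπ.not_isUnit (hθ hπP this)

open MvPolynomial

/-- A binomial with coprime monomials is relatively prime to every monomial. -/
theorem relprime_binom_monomial {σ : Type} [Finite σ] (p q e : σ →₀ ℕ) (hpq : ∀ i, p i = 0 ∨ q i = 0) :
    IsRelPrime (monomial p 1 + monomial q 1 : MvPolynomial σ ℤ) (monomial e 1) := by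
  classical
  rw [monomial_eq (s := e), C_1, one_mul]
  refine IsRelPrime.prod_right fun i _ => IsRelPrime.pow_right ?_
  refine IsRelPrime.symm ?_
  rw [(X_prime (R := ℤ) (i := i)).irreducible.isRelPrime_iff_not_dvd]
  rintro ⟨s, hs⟩
  have h := congrArg (eval (fun j => if j = i then (0 : ℤ) else 1)) hs
  rw [map_add, map_mul, eval_X, if_pos rfl, zero_mul, eval_monomial, eval_monomial, one_mul, one_mul] at h
  have key : ∀ m : σ →₀ ℕ, 0 ≤ (m.prod fun n k => (if n = i then (0 : ℤ) else 1) ^ k) ∧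
      (m i = 0 → (m.prod fun n k => (if n = i then (0 : ℤ) else 1) ^ k) = 1) := by
    intro m
    constructor
    · refine Finset.prod_nonneg fun j _ => ?_
      beta_reduce
      split_ifs
      · exact pow_nonneg le_rfl _
      · exact pow_nonneg zero_le_one _
    · intro hm
      refine Finset.prod_eq_one fun j _ => ?_
      beta_reduce
      by_cases hj : j = i
      · rw [if_pos hj, hj, hm, pow_zero]
      · rw [if_neg hj, one_pow]
  rcases hpq i with h1 | h1
  · have h2 := (key p).2 h1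
    have h3 := (key q).1
    rw [h2] at h
    omega
  · have h2 := (key q).2 h1
    have h3 := (key p).1
    rw [h2] at h
    omega

end Pool.Agent.LibSP
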