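import Pool.Agent.LibSP.Two

/-!
The upper bound does not depend on the seed; Laurent phenomenon.
-/

set_option autoImplicit false

namespace Pool.Agent.LibSP

variable {K : Type} [Field K] {n r : ℕ} {s₀ : Seed K n r}

theorem Reach.good (h : Good s₀) {s : Seed K n r} (hs : Reach s₀ s) : Good s := by
  induction hs with
  | refl => exact h
  | step k _ ih => exact ih.mut k

lemma reach_trans_aux {s t u : Seed K n r} (hs : Reach s t) (ht : Reach t u) : Reach s u := by
  induction ht with
  | refl => exact hs
  | step k _ ih => exact Reach.step k ih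

theorem Reach.symm (h : Good s₀) {s : Seed K n r} (hs : Reach s₀ s) : Reach s s₀ := by
  induction hs with
  | refl => exact Reach.refl
  | @step s k hs' ih =>
    have h1 : Reach (s.mut k) ((s.mut k).mut k) := Reach.step k Reach.refl
    rw [(Reach.good h hs').mut_mut k] at h1
    exact reach_trans_aux h1 ih

theorem Reach.trans {s t : Seed K n r} (hs : Reach s₀ s) (ht : Reach s t) : Reach s₀ t :=
  reach_trans_aux hs ht

lemma mut_x_of_ne (s : Seed K n r) (k : Fin n) {i : Idx n r} (hi : i ≠ Sum.inl k) :
    (s.mut k).x i = s.x i := by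
  simp only [Seed.mut]
  exact Function.update_of_ne hi _ _

lemma mut_x_self (s : Seed K n r) (k : Fin n) :
    (s.mut k).x (Sum.inl k) = exch s.x s.B k := by
  simp only [Seed.mut]
  exact Function.update_self _ _ _

/-- The coefficient variables never change. -/
theorem Reach.frozen {s : Seed K n r} (hs : Reach s₀ s) (j : Fin r) :
    s.x (Sum.inr j) = s₀.x (Sum.inr j) := by
  induction hs with
  | refl => rfl
  | step k _ ih => rw [mut_x_of_ne _ _ (by simp), ih]

/-- `u` is a Laurent polynomial at every reachable seed. -/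
def Univ (s₀ : Seed K n r) (u : K) : Prop := ∀ s, Reach s₀ s → Lau s.x u

lemma upper_aux {s : Seed K n r} (h : Good s) {u : K} (hu : Lau s.x u)
    (hu' : ∀ k, Lau (s.mut k).x u) {t : Seed K n r} (ht : Reach s t) :
    Lau t.x u ∧ ∀ k, Lau (t.mut k).x u := by
  induction ht with
  | refl => exact ⟨hu, hu'⟩
  | @step t k ht' ih =>
    have hg : Good t := Reach.good h ht'
    refine ⟨ih.2 k, fun j => ?_⟩
    by_cases hjk : j = k
    · subst hjk
      rw [hg.mut_mut j]
      exact ih.1
    · exact two_step hg hjk (ih.2 j) (ih.2 k)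

/-- An element which is Laurent at one seed and its neighbours is Laurent at every seed. -/
theorem upper (h : Good s₀) {s : Seed K n r} (hs : Reach s₀ s) {u : K} (hu : Lau s.x u)
    (hu' : ∀ k, Lau (s.mut k).x u) : Univ s₀ u := by
  intro t ht
  exact (upper_aux (Reach.good h hs) hu hu' ((Reach.symm h hs).trans ht)).1

lemma Lau.one (x : Idx n r → K) : Lau x 1 := by
  have := Lau.int x 1
  simpa using this

lemma Lau.prod {ι : Type} {x : Idx n r → K} (hx : ∀ i, x i ≠ 0) (S : Finset ι) (f : ι → K)
    (hf : ∀ i ∈ S, Lau x (f i)) : Lau x (∏ i ∈ S, f i) := by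
  classical
  induction S using Finset.induction_on with
  | empty => rw [Finset.prod_empty]; exact Lau.one x
  | insert i S hi ih =>
    rw [Finset.prod_insert hi]
    exact Lau.mul hx (hf i (Finset.mem_insert_self i S))
      (ih fun j hj => hf j (Finset.mem_insert_of_mem hj))

lemma lau_exch {x : Idx n r → K} (hx : ∀ i, x i ≠ 0) (B : EMat n r) (k : Fin n) :
    Lau x (exch x B k) := by
  unfold exch
  rw [div_eq_mul_inv]
  refine Lau.mul hx (Lau.add ?_ ?_) (Lau.var_inv x k)
  · exact Lau.prod hx _ _ fun i _ => Lau.pow hx (Lau.var x i) _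
  · exact Lau.prod hx _ _ fun i _ => Lau.pow hx (Lau.var x i) _

/-- The Laurent phenomenon. -/
theorem laurent (h : Good s₀) {s : Seed K n r} (hs : Reach s₀ s) (i : Idx n r) :
    Univ s₀ (s.x i) := by
  have hg := Reach.good h hs
  refine upper h hs (Lau.var s.x i) fun k => ?_
  by_cases hi : i = Sum.inl k
  · subst hi
    have h1 : s.x (Sum.inl k) = exch (s.mut k).x (s.mut k).B k := by
      have h2 := mut_x_self (s.mut k) k
      rw [hg.mut_mut k] at h2
      exact h2
    rw [h1]
    exact lau_exch (fun i => ne_zero_of_ai (hg.mut k).ai i) _ _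
  · rw [← mut_x_of_ne s k hi]
    exact Lau.var _ _

theorem Univ.add {u v : K} (hu : Univ s₀ u) (hv : Univ s₀ v) : Univ s₀ (u + v) :=
  fun s hs => Lau.add (hu s hs) (hv s hs)

theorem Univ.neg {u : K} (hu : Univ s₀ u) : Univ s₀ (-u) :=
  fun s hs => Lau.neg (hu s hs)

theorem Univ.mul (h : Good s₀) {u v : K} (hu : Univ s₀ u) (hv : Univ s₀ v) :
    Univ s₀ (u * v) :=
  fun s hs => Lau.mul (fun i => ne_zero_of_ai (Reach.good h hs).ai i) (hu s hs) (hv s hs)

theorem univ_of_mem (h : Good s₀) {u : K} (hu : u ∈ clusterAlg s₀) : Univ s₀ u := by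
  unfold clusterAlg at hu
  induction hu using Subring.closure_induction with
  | mem y hy =>
    obtain ⟨s, hs, i, rfl⟩ := hy
    exact laurent h hs i
  | zero =>
    intro s _
    have := Lau.int s.x 0
    simpa using this
  | one => exact fun s _ => Lau.one s.x
  | add x y _ _ hx hy => exact hx.add hy
  | neg x _ hx => exact hx.neg
  | mul x y _ _ hx hy => exact Univ.mul h hx hy

end Pool.Agent.LibSP
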